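import Pool.Agent.HadS.Pt

/-! The sum over all the frequencies `a / M`. -/

set_option autoImplicit false

namespace Pool.Agent.HadS

open Finset

/-- far from all fractions with small denominator -/
noncomputable def f1 (D : ℕ) (X α : ℝ) : ℝ :=
  ∑ q ∈ Icc 1 D, ∑ a ∈ range (q + 1), 1 / ((q : ℝ) * (1 + |α - (a : ℝ) / q| * X)) ^ 4

/-- near fractions with a small denominator `q ≥ 2` -/
noncomputable def f2 (N₀ X R α : ℝ) : ℝ :=
  ∑ q ∈ Icc 1 ⌊N₀⌋₊, ∑ a ∈ range (q + 1),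
    if |α - (a : ℝ) / q| * (q * X) ≤ N₀ then (N₀ / R) ^ 2 else 0

/-- near `0` or `1` -/
noncomputable def f3 (X α : ℝ) : ℝ :=
  ∑ a ∈ range 2, 4 / (1 + |α - (a : ℝ)| * X) ^ 2

/-- MODULE ar1. From `Real.exists_rat_abs_sub_le_and_den_le`. -/
theorem dirichlet {α : ℝ} (h0 : 0 ≤ α) (h1 : α < 1) {D : ℕ} (hD : 1 ≤ D) :
    ∃ q a : ℕ, 1 ≤ q ∧ q ≤ D ∧ a ≤ q ∧ IsCoprime (a : ℤ) (q : ℤ) ∧
      (q : ℝ) * |α - (a : ℝ) / q| * D ≤ 1 := by
  obtain ⟨r, hr1, hr2⟩ := Real.exists_rat_abs_sub_le_and_den_le α (n := D) (by omega)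
  have hden : 0 < r.den := r.den_pos
  have hdR : (0 : ℝ) < r.den := by exact_mod_cast hden
  have hDR : (0 : ℝ) < (D : ℝ) := by exact_mod_cast (by omega : 0 < D)
  have hrR : (r : ℝ) = (r.num : ℝ) / r.den := Rat.cast_def r
  have hsmall : (1 : ℝ) / ((D + 1) * r.den) < 1 / r.den := by
    apply one_div_lt_one_div_of_lt hdR
    nlinarith
  have hlt : |α - r| < 1 / r.den := lt_of_le_of_lt hr1 hsmall
  rw [abs_lt] at hlt
  obtain ⟨hl1, hl2⟩ := hlt
  have hone : (1 : ℝ) / r.den * r.den = 1 := by field_simp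
  have hnum : (r : ℝ) * r.den = r.num := by
    rw [hrR]
    field_simp
  have hn0 : 0 ≤ r.num := by
    have h2 : (-1 : ℝ) < r.num := by
      have h3 : -(1 / (r.den : ℝ)) < r := by linarith
      have h4 := mul_lt_mul_of_pos_right h3 hdR
      rw [hnum, neg_mul, hone] at h4
      exact h4
    have h3 : (-1 : ℤ) < r.num := by exact_mod_cast h2
    omega
  have hn1 : r.num ≤ r.den := by
    have h2 : (r.num : ℝ) < r.den + 1 := by
      have h3 : (r : ℝ) < 1 + 1 / r.den := by linarith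
      have h4 := mul_lt_mul_of_pos_right h3 hdR
      rw [hnum, add_mul, one_mul, hone] at h4
      exact h4
    have h3 : r.num < r.den + 1 := by exact_mod_cast h2
    omega
  have hnc : ((r.num.toNat : ℕ) : ℤ) = r.num := Int.toNat_of_nonneg hn0
  have hncR : ((r.num.toNat : ℕ) : ℝ) = (r.num : ℝ) := by exact_mod_cast hnc
  refine ⟨r.den, r.num.toNat, hden, hr2, ?_, ?_, ?_⟩
  · have : ((r.num.toNat : ℕ) : ℤ) ≤ ((r.den : ℕ) : ℤ) := by rw [hnc]; exact hn1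
    exact_mod_cast this
  · rw [hnc]
    exact Int.isCoprime_iff_gcd_eq_one.2 r.reduced
  · rw [hncR, ← hrR]
    have h2 : (r.den : ℝ) * |α - r| * D ≤ (r.den : ℝ) * (1 / ((D + 1) * r.den)) * D := by
      have := mul_le_mul_of_nonneg_left hr1 hdR.le
      exact mul_le_mul_of_nonneg_right this hDR.le
    refine h2.trans ?_
    have h3 : (r.den : ℝ) * (1 / ((D + 1) * r.den)) * D = D / (D + 1) := by
      field_simp
    rw [h3, div_le_one (by linarith)]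
    linarith

/-- MODULE ar2. `q ≥ 2`, `N = q (1 + |β| X) < N₀`: `‖α‖ ≥ ‖a / q‖ - |β| ≥ 1 / q - N₀ / (q X) ≥
1 / (2 q) ≥ 1 / (2 N₀)`. -/
theorem arc_R {α X N₀ : ℝ} {q a R : ℕ} (hX0 : 0 < X) (hq : 2 ≤ q)
    (ha : IsCoprime (a : ℤ) (q : ℤ))
    (hN : (q : ℝ) * (1 + |α - (a : ℝ) / q| * X) < N₀) (hX : 2 * N₀ ≤ X) (hR : 0 < R) :
    ‖gs R α / R‖ ≤ N₀ / R := by
  have hRR : (0 : ℝ) < R := by exact_mod_cast hR
  have hqR : (2 : ℝ) ≤ q := by exact_mod_cast hq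
  have hq0 : (0 : ℝ) < q := by linarith
  have hnd : ¬ (q : ℤ) ∣ (a : ℤ) := by
    intro h
    have h1 : IsUnit (q : ℤ) := ha.symm.isUnit_of_dvd' (dvd_refl _) h
    rw [Int.isUnit_iff_natAbs_eq, Int.natAbs_natCast] at h1
    omega
  have h1 := nint_div (by omega : 0 < q) hnd
  have h2 := nint_add (((a : ℤ) : ℝ) / q) (α - (a : ℝ) / q)
  have h3 : (((a : ℤ) : ℝ) / q) + (α - (a : ℝ) / q) = α := by
    push_cast
    ring
  rw [h3] at h2
  set t := |α - (a : ℝ) / q| with ht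
  have ht0 : 0 ≤ t := abs_nonneg _
  have h4 : t ≤ 1 / (2 * q) := by
    rw [le_div_iff₀ (by positivity)]
    have h5 : q * (t * X) < N₀ := by nlinarith
    have h6 : (t * (2 * q)) * X ≤ 1 * X := by nlinarith
    exact le_of_mul_le_mul_right h6 hX0
  have h5 : 1 / (2 * (q : ℝ)) ≤ nint α := by
    have h6 : 1 / (2 * (q : ℝ)) = 1 / q - 1 / (2 * q) := by
      field_simp
      ring
    rw [h6]
    linarith
  have h6 := norm_gs_mul R α
  have h7 : ‖gs R α‖ ≤ q := by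
    have h8 : ‖gs R α‖ * (2 * (1 / (2 * (q : ℝ)))) ≤ 1 :=
      (mul_le_mul_of_nonneg_left (by linarith) (norm_nonneg _)).trans h6
    have h9 : 2 * (1 / (2 * (q : ℝ))) = 1 / q := by field_simp
    rw [h9, mul_one_div, div_le_one hq0] at h8
    exact h8
  have h8 : (q : ℝ) ≤ N₀ := by
    have : 0 ≤ t * X := by positivity
    nlinarith
  rw [norm_div, RCLike.norm_natCast]
  exact div_le_div_of_nonneg_right (h7.trans h8) hRR.le

/-- MODULE ar2. `α = a + β`, `a` an integer, `|β| X ≤ N₀`, `2 ^ e U ≤ X`, `2 N₀ ≤ U`: then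
`|2 ^ e β| ≤ 1 / 2` and `|gs U (2 ^ e α)| ≤ 1 / (2 · 2 ^ e |β|)`, so the quotient is at most
`1 / (X |β|)`; it is also at most `1`. -/
theorem arc_U {α X N₀ : ℝ} {a e U : ℕ} (hX : 0 < X) (hN₀ : 0 < N₀)
    (hN : |α - (a : ℝ)| * X ≤ N₀) (hU : 2 * N₀ ≤ U)
    (hU1 : X ≤ 2 * (2 ^ e * U)) (hU2 : (2 : ℝ) ^ e * U ≤ X) :
    ‖gs U (2 ^ e * α) / U‖ ^ 2 ≤ 4 / (1 + |α - (a : ℝ)| * X) ^ 2 := by
  set t := |α - (a : ℝ)| with ht
  have ht0 : 0 ≤ t := abs_nonneg _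
  have hU0 : (0 : ℝ) < U := by linarith
  have h2e : (0 : ℝ) < 2 ^ e := by positivity
  have hnorm : ‖gs U (2 ^ e * α) / U‖ = ‖gs U (2 ^ e * α)‖ / U := by
    rw [norm_div, RCLike.norm_natCast]
  rw [hnorm]
  have hpos : (0 : ℝ) < (1 + t * X) ^ 2 := by positivity
  rcases le_or_gt (t * X) 1 with hc | hc
  · have h1 : ‖gs U (2 ^ e * α)‖ / U ≤ 1 := by
      rw [div_le_one hU0]
      exact norm_gs_le U _
    have h2 : (‖gs U (2 ^ e * α)‖ / U) ^ 2 ≤ 1 := by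
      have : 0 ≤ ‖gs U (2 ^ e * α)‖ / U := by positivity
      nlinarith
    refine h2.trans ?_
    rw [le_div_iff₀ hpos]
    have : 0 ≤ t * X := by positivity
    nlinarith
  · have ht1 : 0 < t := by
      rcases ht0.lt_or_eq with h | h
      · exact h
      · rw [← h] at hc
        norm_num at hc
    have h1 : |2 ^ e * (α - (a : ℝ))| = 2 ^ e * t := by
      rw [abs_mul, abs_of_pos h2e]
    have h2 : |2 ^ e * (α - (a : ℝ))| ≤ 1 / 2 := by
      rw [h1]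
      have h3 : (2 ^ e * t) * X ≤ 2 ^ e * N₀ := by nlinarith
      have h4 : (2 : ℝ) ^ e * (2 * N₀) ≤ 2 ^ e * U := mul_le_mul_of_nonneg_left hU h2e.le
      have h5 : (2 ^ e * t) * X ≤ 1 / 2 * X := by linarith
      exact le_of_mul_le_mul_right h5 hX
    have h3 : nint (2 ^ e * α) = 2 ^ e * t := by
      have h4 : (2 : ℝ) ^ e * α = 2 ^ e * (α - (a : ℝ)) + (((2 ^ e * a : ℕ) : ℤ) : ℝ) := by
        push_cast
        ring
      rw [h4, nint_int, nint_of_abs _ h2, h1]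
    have h4 := norm_gs_mul U (2 ^ e * α)
    rw [h3] at h4
    set g := ‖gs U (2 ^ e * α)‖ with hg
    have hg0 : 0 ≤ g := norm_nonneg _
    have h5 : g / U * (t * X) ≤ 1 := by
      rw [div_mul_eq_mul_div, div_le_one hU0]
      have h6 : g * (t * X) ≤ g * (t * (2 * (2 ^ e * U))) := by
        have : t * X ≤ t * (2 * (2 ^ e * U)) := mul_le_mul_of_nonneg_left hU1 ht0
        exact mul_le_mul_of_nonneg_left this hg0
      have h7 : g * (t * (2 * (2 ^ e * U))) = g * (2 * (2 ^ e * t)) * U := by ring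
      rw [h7] at h6
      nlinarith
    have h6 : g / U * (1 + t * X) ≤ 2 := by
      have h7 : 0 ≤ g / U := by positivity
      nlinarith
    rw [le_div_iff₀ hpos, ← mul_pow]
    have h7 : 0 ≤ g / U * (1 + t * X) := by positivity
    nlinarith

/-- MODULE ar3. From `dirichlet` (`D` with `12 C ^ (k - k / 2) ≤ D ≤ 13 C ^ (k - k / 2)`), `pt`,
`arc_R`, `arc_U` with `N₀ = C ^ 30`: three cases (`N ≥ N₀`; `N < N₀` and `q ≥ 2`; `N < N₀` and
`q = 1`), in each of them the left side is at most one term of `f1`, `f2`, `f3`. -/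
theorem arc_term {L : ℕ} {Q : Finset ℕ} {C lam : ℝ} (h : Cls L Q C lam) {k D e U R : ℕ}
    (hk : 61 ≤ k) (hkL : k ≤ L) (hD1 : 12 * C ^ (k - k / 2) ≤ D)
    (hD2 : (D : ℝ) ≤ 13 * C ^ (k - k / 2)) (hU : 2 * C ^ 30 ≤ U)
    (hU1 : C ^ k ≤ 2 * (2 ^ e * U)) (hU2 : (2 : ℝ) ^ e * U ≤ C ^ k) (hR : 7 * C ^ 60 ≤ R)
    {α : ℝ} (h0 : 0 ≤ α) (h1 : α < 1) :
    ‖Sk Q k α‖ ^ 10 * ‖gs U (2 ^ e * α) / U‖ ^ 2 * ‖gs R α / R‖ ^ 2 ≤
      f1 D (C ^ k) α + f2 (C ^ 30) (C ^ k) R α + f3 (C ^ k) α := by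
  have hC : 16 ≤ C := h.C1
  have hC0 : 0 < C := by linarith
  have hC1 : 1 ≤ C := by linarith
  have hX0 : 0 < C ^ k := pow_pos hC0 k
  have hN0 : (0 : ℝ) < C ^ 30 := pow_pos hC0 30
  have hU0 : (0 : ℝ) < U := by linarith
  have hR0 : (0 : ℝ) < R := by
    have : (0 : ℝ) < C ^ 60 := pow_pos hC0 60
    linarith
  have hD0 : 1 ≤ D := by
    have h2 : (0 : ℝ) < D := lt_of_lt_of_le (by positivity) hD1
    have h3 : 0 < D := by exact_mod_cast h2
    exact h3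
  have hf1 : 0 ≤ f1 D (C ^ k) α := by
    unfold f1
    exact Finset.sum_nonneg fun q _ => Finset.sum_nonneg fun a _ => by positivity
  have hf2 : 0 ≤ f2 (C ^ 30) (C ^ k) R α := by
    unfold f2
    refine Finset.sum_nonneg fun q _ => Finset.sum_nonneg fun a _ => ?_
    split_ifs
    · positivity
    · exact le_refl 0
  have hf3 : 0 ≤ f3 (C ^ k) α := by
    unfold f3
    exact Finset.sum_nonneg fun a _ => by positivity
  have hS : ‖Sk Q k α‖ ≤ 1 := norm_Sk_le Q k α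
  have hS0 : 0 ≤ ‖Sk Q k α‖ := norm_nonneg _
  have hSp : ‖Sk Q k α‖ ^ 10 ≤ 1 := pow_le_one₀ hS0 hS
  have hSp0 : 0 ≤ ‖Sk Q k α‖ ^ 10 := pow_nonneg hS0 10
  have hgU : ‖gs U (2 ^ e * α) / U‖ ≤ 1 := by
    rw [norm_div, RCLike.norm_natCast, div_le_one hU0]
    exact norm_gs_le U _
  have hgU0 : 0 ≤ ‖gs U (2 ^ e * α) / U‖ := norm_nonneg _
  have hgUp : ‖gs U (2 ^ e * α) / U‖ ^ 2 ≤ 1 := pow_le_one₀ hgU0 hgU
  have hgUp0 : 0 ≤ ‖gs U (2 ^ e * α) / U‖ ^ 2 := pow_nonneg hgU0 2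
  have hgR : ‖gs R α / R‖ ≤ 1 := by
    rw [norm_div, RCLike.norm_natCast, div_le_one hR0]
    exact norm_gs_le R _
  have hgR0 : 0 ≤ ‖gs R α / R‖ := norm_nonneg _
  have hgRp : ‖gs R α / R‖ ^ 2 ≤ 1 := pow_le_one₀ hgR0 hgR
  have hgRp0 : 0 ≤ ‖gs R α / R‖ ^ 2 := pow_nonneg hgR0 2
  obtain ⟨q, a, hq1, hqD, haq, hco, hdir⟩ := dirichlet h0 h1 hD0
  have hqR : (1 : ℝ) ≤ q := by exact_mod_cast hq1
  have hq0 : (0 : ℝ) < q := by linarith
  have hqD' : (q : ℝ) ≤ D := by exact_mod_cast hqD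
  set t := |α - (a : ℝ) / q| with ht
  have ht0 : 0 ≤ t := abs_nonneg _
  have hNpos : 0 < (q : ℝ) * (1 + t * C ^ k) := by positivity
  have hqN : (q : ℝ) ≤ q * (1 + t * C ^ k) := by
    have : 0 ≤ t * C ^ k := by positivity
    nlinarith
  rcases le_or_gt (C ^ 30) ((q : ℝ) * (1 + t * C ^ k)) with hN | hN
  · -- far from small denominators
    have hcast : |α - ((a : ℤ) : ℝ) / q| = t := by
      rw [ht]
      push_cast
      rfl
    have h2 : ‖Sk Q k α‖ ^ 10 * (q * (1 + |α - ((a : ℤ) : ℝ) / q| * C ^ k)) ^ 4 ≤ 1 := by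
      refine pt h (by omega) hkL hq1 hco (hqD'.trans hD2) ?_ ?_
      · rw [hcast]
        have h3 : (q : ℝ) * t * (12 * C ^ (k - k / 2)) ≤ q * t * D :=
          mul_le_mul_of_nonneg_left hD1 (by positivity)
        exact h3.trans hdir
      · rw [hcast]
        exact hN
    rw [hcast] at h2
    have h3 : ‖Sk Q k α‖ ^ 10 ≤ 1 / ((q : ℝ) * (1 + t * C ^ k)) ^ 4 := by
      rw [le_div_iff₀ (by positivity)]
      exact h2
    have h4 : ‖Sk Q k α‖ ^ 10 * ‖gs U (2 ^ e * α) / U‖ ^ 2 * ‖gs R α / R‖ ^ 2 ≤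
        ‖Sk Q k α‖ ^ 10 := by
      have h5 : ‖Sk Q k α‖ ^ 10 * ‖gs U (2 ^ e * α) / U‖ ^ 2 ≤ ‖Sk Q k α‖ ^ 10 :=
        mul_le_of_le_one_right hSp0 hgUp
      exact (mul_le_of_le_one_right (mul_nonneg hSp0 hgUp0) hgRp).trans h5
    have h5 : 1 / ((q : ℝ) * (1 + t * C ^ k)) ^ 4 ≤ f1 D (C ^ k) α := by
      unfold f1
      have h6 : ∑ b ∈ range (q + 1), 1 / ((q : ℝ) * (1 + |α - (b : ℝ) / q| * C ^ k)) ^ 4 ≤
          ∑ q ∈ Icc 1 D, ∑ b ∈ range (q + 1),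
            1 / ((q : ℝ) * (1 + |α - (b : ℝ) / q| * C ^ k)) ^ 4 :=
        Finset.single_le_sum (f := fun q : ℕ => ∑ b ∈ range (q + 1),
            1 / ((q : ℝ) * (1 + |α - (b : ℝ) / q| * C ^ k)) ^ 4)
          (fun q _ => Finset.sum_nonneg fun b _ => by positivity)
          (Finset.mem_Icc.2 ⟨hq1, hqD⟩)
      have h7 : 1 / ((q : ℝ) * (1 + |α - (a : ℝ) / q| * C ^ k)) ^ 4 ≤
          ∑ b ∈ range (q + 1), 1 / ((q : ℝ) * (1 + |α - (b : ℝ) / q| * C ^ k)) ^ 4 :=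
        Finset.single_le_sum (f := fun b : ℕ =>
            1 / ((q : ℝ) * (1 + |α - (b : ℝ) / q| * C ^ k)) ^ 4)
          (fun b _ => by positivity) (Finset.mem_range.2 (by omega))
      exact h7.trans h6
    linarith
  · by_cases hq2 : 2 ≤ q
    · have hk61 : C ^ 61 ≤ C ^ k := pow_le_pow_right₀ hC1 hk
      have hX2 : 2 * C ^ 30 ≤ C ^ k := by
        have h2 : C ^ 61 = C ^ 30 * C ^ 31 := by ring
        have h3 : (2 : ℝ) ≤ C ^ 31 := by
          have : C ^ 1 ≤ C ^ 31 := pow_le_pow_right₀ hC1 (by norm_num)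
          rw [pow_one] at this
          linarith
        nlinarith
      have hR0' : 0 < R := by exact_mod_cast hR0
      have h2 := arc_R hX0 hq2 hco hN hX2 hR0'
      have h3 : ‖gs R α / R‖ ^ 2 ≤ (C ^ 30 / R) ^ 2 := pow_le_pow_left₀ hgR0 h2 2
      have h4 : ‖Sk Q k α‖ ^ 10 * ‖gs U (2 ^ e * α) / U‖ ^ 2 * ‖gs R α / R‖ ^ 2 ≤
          ‖gs R α / R‖ ^ 2 := by
        have h5 : ‖Sk Q k α‖ ^ 10 * ‖gs U (2 ^ e * α) / U‖ ^ 2 ≤ 1 := by
          calc ‖Sk Q k α‖ ^ 10 * ‖gs U (2 ^ e * α) / U‖ ^ 2 ≤ 1 * 1 :=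
                mul_le_mul hSp hgUp hgUp0 zero_le_one
            _ = 1 := by norm_num
        exact mul_le_of_le_one_left hgRp0 h5
      have h5 : (C ^ 30 / (R : ℝ)) ^ 2 ≤ f2 (C ^ 30) (C ^ k) R α := by
        unfold f2
        have hnn : ∀ q b : ℕ, 0 ≤ (if |α - (b : ℝ) / q| * (q * C ^ k) ≤ C ^ 30 then
            (C ^ 30 / (R : ℝ)) ^ 2 else 0) := by
          intro q b
          split_ifs
          · positivity
          · exact le_refl 0
        have hqm : q ∈ Icc 1 ⌊C ^ 30⌋₊ := by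
          rw [Finset.mem_Icc]
          exact ⟨hq1, Nat.le_floor (hqN.trans hN.le)⟩
        have h6 : ∑ b ∈ range (q + 1), (if |α - (b : ℝ) / q| * (q * C ^ k) ≤ C ^ 30 then
            (C ^ 30 / (R : ℝ)) ^ 2 else 0) ≤
            ∑ q ∈ Icc 1 ⌊C ^ 30⌋₊, ∑ b ∈ range (q + 1),
              (if |α - (b : ℝ) / q| * (q * C ^ k) ≤ C ^ 30 then
                (C ^ 30 / (R : ℝ)) ^ 2 else 0) :=
          Finset.single_le_sum (f := fun q : ℕ => ∑ b ∈ range (q + 1),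
              (if |α - (b : ℝ) / q| * (q * C ^ k) ≤ C ^ 30 then
                (C ^ 30 / (R : ℝ)) ^ 2 else 0))
            (fun q _ => Finset.sum_nonneg fun b _ => hnn q b) hqm
        have h7 : (if |α - (a : ℝ) / q| * (q * C ^ k) ≤ C ^ 30 then
            (C ^ 30 / (R : ℝ)) ^ 2 else 0) ≤
            ∑ b ∈ range (q + 1), (if |α - (b : ℝ) / q| * (q * C ^ k) ≤ C ^ 30 then
            (C ^ 30 / (R : ℝ)) ^ 2 else 0) :=
          Finset.single_le_sum (f := fun b : ℕ =>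
              (if |α - (b : ℝ) / q| * (q * C ^ k) ≤ C ^ 30 then
                (C ^ 30 / (R : ℝ)) ^ 2 else 0))
            (fun b _ => hnn q b) (Finset.mem_range.2 (by omega))
        have h8 : |α - (a : ℝ) / q| * (q * C ^ k) ≤ C ^ 30 := by
          have : |α - (a : ℝ) / q| * (q * C ^ k) ≤ (q : ℝ) * (1 + t * C ^ k) := by
            rw [← ht]
            nlinarith
          exact this.trans hN.le
        rw [if_pos h8] at h7
        exact h7.trans h6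
      linarith
    · have hq1' : q = 1 := by omega
      subst hq1'
      have h2 : t = |α - (a : ℝ)| := by
        rw [ht]
        simp
      have h3 : |α - (a : ℝ)| * C ^ k ≤ C ^ 30 := by
        rw [← h2]
        have h4 : ((1 : ℕ) : ℝ) * (1 + t * C ^ k) = 1 + t * C ^ k := by
          rw [Nat.cast_one, one_mul]
        rw [h4] at hN
        linarith
      have h4 := arc_U (α := α) (a := a) hX0 hN0 h3 hU hU1 hU2
      have h5 : ‖Sk Q k α‖ ^ 10 * ‖gs U (2 ^ e * α) / U‖ ^ 2 * ‖gs R α / R‖ ^ 2 ≤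
          ‖gs U (2 ^ e * α) / U‖ ^ 2 := by
        have h6 : ‖Sk Q k α‖ ^ 10 * ‖gs U (2 ^ e * α) / U‖ ^ 2 ≤
            ‖gs U (2 ^ e * α) / U‖ ^ 2 := mul_le_of_le_one_left hgUp0 hSp
        exact (mul_le_of_le_one_right (mul_nonneg hSp0 hgUp0) hgRp).trans h6
      have h6 : 4 / (1 + |α - (a : ℝ)| * C ^ k) ^ 2 ≤ f3 (C ^ k) α := by
        unfold f3
        exact Finset.single_le_sum (f := fun b : ℕ => 4 / (1 + |α - (b : ℝ)| * C ^ k) ^ 2)
          (fun b _ => by positivity) (Finset.mem_range.2 (by omega))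
      linarith

private theorem ar4_key {M a : ℕ} {X y z : ℝ} (hM : 0 < M) (hX : M ≤ 13 * X)
    (hz : z * M = y) : |(a : ℝ) - y| / 13 ≤ |(a : ℝ) / M - z| * X := by
  have hMR : (0 : ℝ) < M := by exact_mod_cast hM
  have h1 : |(a : ℝ) - y| = |(a : ℝ) / M - z| * M := by
    rw [← abs_of_pos hMR, ← abs_mul, abs_of_pos hMR, ← hz]
    congr 1
    field_simp
  rw [h1]
  have h2 : 0 ≤ |(a : ℝ) / M - z| := abs_nonneg _
  nlinarith

private theorem ar4_cube (D : ℕ) : ∑ q ∈ Icc 1 D, (1 : ℝ) / (q : ℝ) ^ 3 ≤ 2 := by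
  have h : ∀ D : ℕ, ∑ q ∈ Icc 1 (D + 1), (1 : ℝ) / (q : ℝ) ^ 3 ≤ 2 - 1 / (D + 1) := by
    intro D
    induction D with
    | zero => norm_num
    | succ D ih =>
      rw [Finset.sum_Icc_succ_top (by omega)]
      push_cast
      have h1 : (1 : ℝ) / ((D : ℝ) + 1 + 1) ^ 3 ≤ 1 / (D + 1) - 1 / (D + 1 + 1) := by
        rw [div_sub_div _ _ (by positivity) (by positivity), div_le_div_iff₀ (by positivity) (by positivity)]
        have : (0 : ℝ) ≤ D := Nat.cast_nonneg D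
        nlinarith [mul_nonneg this this, mul_nonneg this (mul_nonneg this this)]
      linarith
  rcases Nat.eq_zero_or_pos D with h0 | h0
  · subst h0
    simp
  · obtain ⟨E, rfl⟩ : ∃ E, D = E + 1 := ⟨D - 1, by omega⟩
    refine (h E).trans ?_
    have : (0 : ℝ) ≤ 1 / ((E : ℝ) + 1) := by positivity
    linarith

/-- MODULE ar4. `spaced` with `y = a' M / q`: `|a / M - a' / q| X ≥ |a - y| / 13`; then
`∑_q (q + 1) 28 / q ^ 4 ≤ 56 ∑ 1 / q ^ 3 ≤ 112`. -/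
theorem f1_sum (D M : ℕ) {X : ℝ} (hM : 0 < M) (hX : M ≤ 13 * X) :
    ∑ a ∈ range M, f1 D X ((a : ℝ) / M) ≤ 112 := by
  have hMR : (0 : ℝ) < M := by exact_mod_cast hM
  have hX0 : 0 < X := by linarith
  unfold f1
  rw [Finset.sum_comm]
  have h1 : ∀ q ∈ Icc 1 D, ∑ a ∈ range M, ∑ b ∈ range (q + 1),
      1 / ((q : ℝ) * (1 + |(a : ℝ) / M - (b : ℝ) / q| * X)) ^ 4 ≤ 56 * (1 / (q : ℝ) ^ 3) := by
    intro q hq
    rw [Finset.mem_Icc] at hq
    have hqR : (1 : ℝ) ≤ q := by exact_mod_cast hq.1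
    have hq0 : (0 : ℝ) < q := by linarith
    rw [Finset.sum_comm]
    have h2 : ∀ b ∈ range (q + 1), ∑ a ∈ range M,
        1 / ((q : ℝ) * (1 + |(a : ℝ) / M - (b : ℝ) / q| * X)) ^ 4 ≤ 28 * (1 / (q : ℝ) ^ 4) := by
      intro b _
      have h3 : ∀ a ∈ range M, 1 / ((q : ℝ) * (1 + |(a : ℝ) / M - (b : ℝ) / q| * X)) ^ 4 ≤
          1 / (q : ℝ) ^ 4 * (1 / (1 + |(a : ℝ) - (b : ℝ) / q * M| / 13) ^ 2) := by
        intro a _
        rw [one_div_mul_one_div]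
        have h4 := ar4_key (a := a) hM hX (rfl : (b : ℝ) / q * M = (b : ℝ) / q * M)
        set s := |(a : ℝ) - (b : ℝ) / q * M| / 13 with hs
        set u := |(a : ℝ) / M - (b : ℝ) / q| * X with hu
        have hs0 : 0 ≤ s := by positivity
        have hu0 : 0 ≤ u := by positivity
        apply one_div_le_one_div_of_le (by positivity)
        rw [mul_pow]
        apply mul_le_mul_of_nonneg_left _ (by positivity)
        have h5 : (1 + s) ^ 2 ≤ (1 + u) ^ 2 := pow_le_pow_left₀ (by linarith) (by linarith) 2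
        have h6 : (1 + u) ^ 2 ≤ (1 + u) ^ 4 := pow_le_pow_right₀ (by linarith) (by norm_num)
        exact h5.trans h6
      refine (Finset.sum_le_sum h3).trans ?_
      rw [← Finset.mul_sum]
      have h4 := spaced M ((b : ℝ) / q * M)
      have h5 : (0 : ℝ) ≤ 1 / (q : ℝ) ^ 4 := by positivity
      nlinarith
    refine (Finset.sum_le_sum h2).trans ?_
    rw [Finset.sum_const, Finset.card_range, nsmul_eq_mul]
    push_cast
    have h3 : ((q : ℝ) + 1) * (28 * (1 / (q : ℝ) ^ 4)) ≤ (2 * q) * (28 * (1 / (q : ℝ) ^ 4)) :=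
      mul_le_mul_of_nonneg_right (by linarith) (by positivity)
    refine h3.trans (le_of_eq ?_)
    field_simp
    norm_num
  refine (Finset.sum_le_sum h1).trans ?_
  rw [← Finset.mul_sum]
  have := ar4_cube D
  linarith

private theorem ar5_count (M : ℕ) (y r : ℝ) (hr : 0 ≤ r) :
    (((range M).filter fun a : ℕ => |(a : ℝ) - y| ≤ r).card : ℝ) ≤ 2 * r + 1 := by
  classical
  set S := (range M).filter fun a : ℕ => |(a : ℝ) - y| ≤ r with hS
  rcases S.eq_empty_or_nonempty with h | h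
  · rw [h]
    simp
    linarith
  · set m := S.min' h with hm
    have hmS : m ∈ S := S.min'_mem h
    have h1 : S ⊆ Icc m (m + ⌊2 * r⌋₊) := by
      intro a ha
      rw [Finset.mem_Icc]
      have h2 : m ≤ a := S.min'_le a ha
      refine ⟨h2, ?_⟩
      have h3 := (Finset.mem_filter.1 ha).2
      have h4 := (Finset.mem_filter.1 hmS).2
      rw [abs_le] at h3 h4
      have h5 : ((a - m : ℕ) : ℝ) ≤ 2 * r := by
        rw [Nat.cast_sub h2]
        linarith [h3.2, h4.1]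
      have h6 : a - m ≤ ⌊2 * r⌋₊ := Nat.le_floor h5
      omega
    have h2 := Finset.card_le_card h1
    rw [Nat.card_Icc] at h2
    have h3 : S.card ≤ ⌊2 * r⌋₊ + 1 := by omega
    have h4 : (S.card : ℝ) ≤ (⌊2 * r⌋₊ : ℝ) + 1 := by exact_mod_cast h3
    have h5 : (⌊2 * r⌋₊ : ℝ) ≤ 2 * r := Nat.floor_le (by linarith)
    linarith

/-- MODULE ar5. The number of `a` with `|a / M - a' / q| q X ≤ N₀` is at most
`2 · 13 N₀ / q + 1`; summed over `a' ≤ q` at most `2 q (26 N₀ / q + 1) ≤ 54 N₀`; over `q ≤ N₀` at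
most `54 N₀²`; times `(N₀ / R)² ≤ 1 / (49 N₀²)`. -/
theorem f2_sum (M : ℕ) {X N₀ R : ℝ} (hM : 0 < M) (hX : M ≤ 13 * X) (hN₀ : 1 ≤ N₀)
    (hR : 7 * N₀ ^ 2 ≤ R) :
    ∑ a ∈ range M, f2 N₀ X R ((a : ℝ) / M) ≤ 2 := by
  classical
  have hMR : (0 : ℝ) < M := by exact_mod_cast hM
  have hX0 : 0 < X := by linarith
  have hN0 : 0 < N₀ := by linarith
  have hR0 : 0 < R := lt_of_lt_of_le (by positivity) hR
  unfold f2
  rw [Finset.sum_comm]
  have h1 : ∀ q ∈ Icc 1 ⌊N₀⌋₊, ∑ a ∈ range M, ∑ b ∈ range (q + 1),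
      (if |(a : ℝ) / M - (b : ℝ) / q| * (q * X) ≤ N₀ then (N₀ / R) ^ 2 else 0) ≤
      54 * N₀ * (N₀ / R) ^ 2 := by
    intro q hq
    rw [Finset.mem_Icc] at hq
    have hqR : (1 : ℝ) ≤ q := by exact_mod_cast hq.1
    have hq0 : (0 : ℝ) < q := by linarith
    have hqN : (q : ℝ) ≤ N₀ := (Nat.cast_le.2 hq.2).trans (Nat.floor_le hN0.le)
    rw [Finset.sum_comm]
    have h2 : ∀ b ∈ range (q + 1), ∑ a ∈ range M,
        (if |(a : ℝ) / M - (b : ℝ) / q| * (q * X) ≤ N₀ then (N₀ / R) ^ 2 else 0) ≤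
        (2 * (13 * N₀ / q) + 1) * (N₀ / R) ^ 2 := by
      intro b _
      rw [← Finset.sum_filter, Finset.sum_const, nsmul_eq_mul]
      apply mul_le_mul_of_nonneg_right _ (by positivity)
      refine le_trans ?_ (ar5_count M ((b : ℝ) / q * M) (13 * N₀ / q) (by positivity))
      have hsub : (range M).filter (fun a : ℕ => |(a : ℝ) / M - (b : ℝ) / q| * (q * X) ≤ N₀) ⊆
          (range M).filter (fun a : ℕ => |(a : ℝ) - (b : ℝ) / q * M| ≤ 13 * N₀ / q) := by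
        intro a ha
        obtain ⟨h3, h4⟩ := Finset.mem_filter.1 ha
        refine Finset.mem_filter.2 ⟨h3, ?_⟩
        have h5 := ar4_key (a := a) hM hX (rfl : (b : ℝ) / q * M = (b : ℝ) / q * M)
        rw [le_div_iff₀ hq0]
        have h6 : |(a : ℝ) / M - (b : ℝ) / q| * X * q ≤ N₀ := by
          calc |(a : ℝ) / M - (b : ℝ) / q| * X * q = |(a : ℝ) / M - (b : ℝ) / q| * (q * X) := by
                ring
            _ ≤ N₀ := h4
        have h7 := mul_le_mul_of_nonneg_right h5 hq0.le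
        linarith
      exact_mod_cast Finset.card_le_card hsub
    refine (Finset.sum_le_sum h2).trans ?_
    rw [Finset.sum_const, Finset.card_range, nsmul_eq_mul]
    push_cast
    rw [← mul_assoc]
    apply mul_le_mul_of_nonneg_right _ (by positivity)
    have h3 : ((q : ℝ) + 1) * (2 * (13 * N₀ / q) + 1) ≤ (2 * q) * (2 * (13 * N₀ / q) + 1) :=
      mul_le_mul_of_nonneg_right (by linarith) (by positivity)
    refine h3.trans ?_
    have h4 : (2 * (q : ℝ)) * (2 * (13 * N₀ / q) + 1) = 52 * N₀ + 2 * q := by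
      field_simp
      ring
    rw [h4]
    linarith
  refine (Finset.sum_le_sum h1).trans ?_
  rw [Finset.sum_const, Nat.card_Icc, nsmul_eq_mul]
  have h2 : ((⌊N₀⌋₊ + 1 - 1 : ℕ) : ℝ) ≤ N₀ := by
    rw [Nat.add_sub_cancel]
    exact Nat.floor_le hN0.le
  have h3 : ((⌊N₀⌋₊ + 1 - 1 : ℕ) : ℝ) * (54 * N₀ * (N₀ / R) ^ 2) ≤
      N₀ * (54 * N₀ * (N₀ / R) ^ 2) :=
    mul_le_mul_of_nonneg_right h2 (by positivity)
  refine h3.trans ?_
  have h4 : N₀ * (54 * N₀ * (N₀ / R) ^ 2) = 54 * (N₀ ^ 2 / R) ^ 2 := by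
    rw [div_pow, div_pow]
    ring
  rw [h4]
  have h5 : N₀ ^ 2 / R ≤ 1 / 7 := by
    rw [div_le_div_iff₀ hR0 (by norm_num)]
    linarith
  have h6 : 0 ≤ N₀ ^ 2 / R := by positivity
  nlinarith

/-- MODULE ar4 -/
theorem f3_sum (M : ℕ) {X : ℝ} (hM : 0 < M) (hX : M ≤ 13 * X) :
    ∑ a ∈ range M, f3 X ((a : ℝ) / M) ≤ 224 := by
  have hMR : (0 : ℝ) < M := by exact_mod_cast hM
  have hX0 : 0 < X := by linarith
  unfold f3
  rw [Finset.sum_comm]
  have h1 : ∀ b ∈ range 2, ∑ a ∈ range M, 4 / (1 + |(a : ℝ) / M - (b : ℝ)| * X) ^ 2 ≤ 112 := by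
    intro b _
    have h3 : ∀ a ∈ range M, 4 / (1 + |(a : ℝ) / M - (b : ℝ)| * X) ^ 2 ≤
        4 * (1 / (1 + |(a : ℝ) - (b : ℝ) * M| / 13) ^ 2) := by
      intro a _
      have h4 := ar4_key (a := a) hM hX (rfl : (b : ℝ) * M = (b : ℝ) * M)
      set s := |(a : ℝ) - (b : ℝ) * M| / 13 with hs
      set u := |(a : ℝ) / M - (b : ℝ)| * X with hu
      have hs0 : 0 ≤ s := by positivity
      have hu0 : 0 ≤ u := by positivity
      rw [mul_one_div]
      apply div_le_div_of_nonneg_left (by norm_num) (by positivity)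
      exact pow_le_pow_left₀ (by linarith) (by linarith) 2
    refine (Finset.sum_le_sum h3).trans ?_
    rw [← Finset.mul_sum]
    have h4 := spaced M ((b : ℝ) * M)
    linarith
  refine (Finset.sum_le_sum h1).trans ?_
  simp
  norm_num

/-- MODULE ar6 (from the preceding theorems). -/
theorem arc {L : ℕ} {Q : Finset ℕ} {C lam : ℝ} (h : Cls L Q C lam) {k M e U R : ℕ}
    (hk : 61 ≤ k) (hkL : k ≤ L) (hM0 : 0 < M) (hM : (M : ℝ) ≤ 13 * C ^ k) (hU : 2 * C ^ 30 ≤ U)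
    (hU1 : C ^ k ≤ 2 * (2 ^ e * U)) (hU2 : (2 : ℝ) ^ e * U ≤ C ^ k) (hR : 7 * C ^ 60 ≤ R) :
    ∑ a ∈ range M, ‖Sk Q k ((a : ℝ) / M)‖ ^ 10 * ‖gs U (2 ^ e * ((a : ℝ) / M)) / U‖ ^ 2 *
      ‖gs R ((a : ℝ) / M) / R‖ ^ 2 ≤ 400 := by
  have hC1 : (1 : ℝ) ≤ C := by linarith [h.C1]
  have hC60 : (1 : ℝ) ≤ C ^ 30 := one_le_pow₀ hC1
  have hCh : (1 : ℝ) ≤ C ^ (k - k / 2) := one_le_pow₀ hC1
  have hM0' : (0 : ℝ) < M := by exact_mod_cast hM0
  obtain ⟨D, hD1, hD2⟩ : ∃ D : ℕ, 12 * C ^ (k - k / 2) ≤ D ∧ (D : ℝ) ≤ 13 * C ^ (k - k / 2) :=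
    ⟨⌈12 * C ^ (k - k / 2)⌉₊, Nat.le_ceil _, by
      have := (Nat.ceil_lt_add_one (show (0 : ℝ) ≤ 12 * C ^ (k - k / 2) by positivity)).le
      linarith⟩
  have h1 : ∀ a ∈ range M, ‖Sk Q k ((a : ℝ) / M)‖ ^ 10 *
      ‖gs U (2 ^ e * ((a : ℝ) / M)) / U‖ ^ 2 * ‖gs R ((a : ℝ) / M) / R‖ ^ 2 ≤
      f1 D (C ^ k) ((a : ℝ) / M) + f2 (C ^ 30) (C ^ k) R ((a : ℝ) / M) +
        f3 (C ^ k) ((a : ℝ) / M) := by
    intro a ha
    refine arc_term h hk hkL hD1 hD2 hU hU1 hU2 hR (by positivity) ?_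
    rw [div_lt_one hM0']
    exact_mod_cast mem_range.1 ha
  refine (sum_le_sum h1).trans ?_
  rw [sum_add_distrib, sum_add_distrib]
  have h2 := f1_sum D M hM0 hM
  have h3 := f2_sum M (X := C ^ k) (N₀ := C ^ 30) (R := R) hM0 hM hC60 (by
    rw [← pow_mul]; exact hR)
  have h4 := f3_sum M hM0 hM
  linarith

end Pool.Agent.HadS
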