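import Pool.Agent.HadS.Defs

/-! The exponential function `ee`, the distance to the nearest integer and the geometric sum. -/

set_option autoImplicit false

namespace Pool.Agent.HadS

open Finset

/-- MODULE ge1 -/
theorem ee_add (x y : ℝ) : ee (x + y) = ee x * ee y := by
  unfold ee
  rw [← Complex.exp_add]
  congr 1
  push_cast
  ring

/-- MODULE ge1 -/
theorem ee_zero : ee 0 = 1 := by
  unfold ee
  simp

/-- MODULE ge1 -/
theorem norm_ee (x : ℝ) : ‖ee x‖ = 1 := by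
  unfold ee
  have h1 : 2 * (Real.pi : ℂ) * Complex.I * (x : ℂ) = ((2 * Real.pi * x : ℝ) : ℂ) * Complex.I := by
    push_cast
    ring
  rw [h1, Complex.norm_exp_ofReal_mul_I]

/-- MODULE ge1 -/
theorem ee_conj (x : ℝ) : (starRingEnd ℂ) (ee x) = ee (-x) := by
  unfold ee
  rw [← Complex.exp_conj]
  congr 1
  simp only [map_mul, Complex.conj_I, Complex.conj_ofReal, map_ofNat, Complex.ofReal_neg]
  ring

/-- MODULE ge1 -/
theorem ee_int (x : ℝ) (m : ℤ) : ee (x + m) = ee x := by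
  rw [ee_add]
  have h1 : ee (m : ℝ) = 1 := by
    unfold ee
    have h2 : 2 * (Real.pi : ℂ) * Complex.I * ((m : ℝ) : ℂ) = (m : ℂ) * (2 * Real.pi * Complex.I) := by
      push_cast
      ring
    rw [h2, Complex.exp_int_mul_two_pi_mul_I]
  rw [h1, mul_one]

/-- MODULE ge1 -/
theorem ee_mul_nat (x : ℝ) (n : ℕ) : ee (x * n) = ee x ^ n := by
  unfold ee
  rw [← Complex.exp_nat_mul]
  congr 1
  push_cast
  ring

/-- MODULE ge1. `|1 - e(x)| = 2 |sin (π x)| ≥ 4 ‖x‖`. -/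
theorem ee_sub_one (x : ℝ) : 4 * nint x ≤ ‖ee x - 1‖ := by
  have h0 : ee x = ee (x - round x) := by
    have h1 := ee_int (x - round x) (round x)
    rw [sub_add_cancel] at h1
    exact h1
  have h1 : nint x = |x - round x| := rfl
  rw [h0, h1]
  set y := x - round x with hy
  have hy2 : |y| ≤ 1 / 2 := abs_sub_round x
  have h2 : ee y = Complex.exp (Complex.I * ((2 * Real.pi * y : ℝ) : ℂ)) := by
    unfold ee
    congr 1
    push_cast
    ring
  rw [h2, Complex.norm_exp_I_mul_ofReal_sub_one]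
  have h3 : 2 * Real.pi * y / 2 = Real.pi * y := by ring
  rw [h3, norm_mul, Real.norm_eq_abs, Real.norm_eq_abs]
  have hpi := Real.pi_pos
  have h4 : |Real.pi * y| ≤ Real.pi / 2 := by
    rw [abs_mul, abs_of_pos hpi]
    nlinarith
  have h5 := Real.mul_abs_le_abs_sin h4
  rw [abs_mul, abs_of_pos hpi] at h5
  have h6 : 2 / Real.pi * (Real.pi * |y|) = 2 * |y| := by
    field_simp
  rw [h6] at h5
  rw [abs_of_pos (by norm_num : (0 : ℝ) < 2)]
  linarith

/-- MODULE ge2 -/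
theorem nint_nonneg (x : ℝ) : 0 ≤ nint x := by
  exact abs_nonneg _

/-- MODULE ge2 -/
theorem nint_int (x : ℝ) (m : ℤ) : nint (x + m) = nint x := by
  unfold nint
  rw [round_add_intCast]
  push_cast
  congr 1
  ring

/-- MODULE ge2 -/
theorem nint_neg (x : ℝ) : nint (-x) = nint x := by
  have h1 : ∀ y : ℝ, nint (-y) ≤ nint y := by
    intro y
    have h2 := round_le (-y) (-round y)
    unfold nint
    refine h2.trans (le_of_eq ?_)
    push_cast
    rw [← abs_neg]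
    congr 1
    ring
  refine le_antisymm (h1 x) ?_
  have h3 := h1 (-x)
  rwa [neg_neg] at h3

/-- MODULE ge2 -/
theorem nint_le (x : ℝ) (m : ℤ) : nint x ≤ |x - m| := by
  exact round_le x m

/-- MODULE ge2 -/
theorem nint_of_abs (x : ℝ) (h : |x| ≤ 1 / 2) : nint x = |x| := by
  refine le_antisymm ?_ ?_
  · have h1 := round_le x 0
    rwa [Int.cast_zero, sub_zero] at h1
  · unfold nint
    by_cases h0 : round x = 0
    · rw [h0, Int.cast_zero, sub_zero]
    · have h1 : (1 : ℝ) ≤ |(round x : ℝ)| := by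
        have h2 := Int.one_le_abs h0
        exact_mod_cast h2
      have h3 := abs_sub_abs_le_abs_sub (round x : ℝ) x
      rw [abs_sub_comm] at h3
      linarith

/-- MODULE ge2 -/
theorem nint_add (x y : ℝ) : nint x - |y| ≤ nint (x + y) := by
  have h1 := round_le x (round (x + y))
  have h2 : |x - (round (x + y) : ℝ)| ≤ |x + y - round (x + y)| + |y| := by
    have h3 : x - (round (x + y) : ℝ) = (x + y - round (x + y)) - y := by ring
    rw [h3]
    exact abs_sub _ _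
  unfold nint
  linarith

/-- MODULE ge2 -/
theorem nint_div {q : ℕ} (hq : 0 < q) {a : ℤ} (h : ¬ (q : ℤ) ∣ a) :
    1 / (q : ℝ) ≤ nint ((a : ℝ) / q) := by
  unfold nint
  set m := round ((a : ℝ) / q) with hm
  have hq0 : (0 : ℝ) < q := by exact_mod_cast hq
  have h1 : a - q * m ≠ 0 := by
    intro h0
    exact h ⟨m, by linarith⟩
  have h2 : (1 : ℝ) ≤ |((a - q * m : ℤ) : ℝ)| := by
    have h3 := Int.one_le_abs h1
    exact_mod_cast h3
  have h4 : (a : ℝ) / q - m = ((a - q * m : ℤ) : ℝ) / q := by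
    push_cast
    field_simp
  rw [h4, abs_div, abs_of_pos hq0]
  exact div_le_div_of_nonneg_right h2 hq0.le

/-- MODULE ge3 -/
theorem norm_gs_le (Y : ℕ) (θ : ℝ) : ‖gs Y θ‖ ≤ Y := by
  unfold gs
  refine (norm_sum_le _ _).trans (le_of_eq ?_)
  have h1 : ∀ x ∈ range Y, ‖ee (θ * (x : ℝ))‖ = 1 := fun x _ => norm_ee _
  rw [Finset.sum_congr rfl h1]
  simp

/-- MODULE ge3. `(1 - e(θ)) gs = 1 - e(θ Y)`. -/
theorem norm_gs_mul (Y : ℕ) (θ : ℝ) : ‖gs Y θ‖ * (2 * nint θ) ≤ 1 := by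
  have h1 : gs Y θ = ∑ x ∈ range Y, ee θ ^ x := by
    unfold gs
    exact Finset.sum_congr rfl fun x _ => ee_mul_nat θ x
  have h2 : gs Y θ * (ee θ - 1) = ee θ ^ Y - 1 := by
    rw [h1]
    exact geom_sum_mul (ee θ) Y
  have h3 : ‖gs Y θ‖ * ‖ee θ - 1‖ ≤ 2 := by
    rw [← norm_mul, h2]
    refine (norm_sub_le _ _).trans ?_
    rw [norm_pow, norm_ee, one_pow, norm_one]
    norm_num
  have h4 := ee_sub_one θ
  have h5 := norm_nonneg (gs Y θ)
  have h6 : ‖gs Y θ‖ * (4 * nint θ) ≤ ‖gs Y θ‖ * ‖ee θ - 1‖ := mul_le_mul_of_nonneg_left h4 h5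
  linarith

/-- MODULE ge3 -/
theorem norm_gs_neg (Y : ℕ) (θ : ℝ) : ‖gs Y (-θ)‖ = ‖gs Y θ‖ := by
  have h1 : gs Y (-θ) = (starRingEnd ℂ) (gs Y θ) := by
    unfold gs
    rw [map_sum]
    refine Finset.sum_congr rfl fun x _ => ?_
    rw [ee_conj, neg_mul]
  rw [h1, RCLike.norm_conj]

/-- MODULE ge3 -/
theorem gs_int (Y : ℕ) (θ : ℝ) (m : ℤ) : gs Y (θ + m) = gs Y θ := by
  unfold gs
  refine Finset.sum_congr rfl fun x _ => ?_
  have h1 : (θ + m) * x = θ * x + ((m * x : ℤ) : ℝ) := by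
    push_cast
    ring
  rw [h1, ee_int]

private theorem ge4_range (N : ℕ) : ∑ m ∈ range N, 1 / (1 + (m : ℝ) / 13) ^ 2 ≤ 14 := by
  have key : ∀ N : ℕ, ∑ m ∈ range (N + 1), 1 / (1 + (m : ℝ) / 13) ^ 2 ≤ 14 - 169 / (13 + (N : ℝ)) := by
    intro N
    induction N with
    | zero => norm_num
    | succ N ih =>
      rw [Finset.sum_range_succ]
      have hN : (0 : ℝ) ≤ N := Nat.cast_nonneg N
      have h1 : 1 / (1 + ((N + 1 : ℕ) : ℝ) / 13) ^ 2 ≤ 169 / (13 + (N : ℝ)) - 169 / (13 + ((N + 1 : ℕ) : ℝ)) := by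
        push_cast
        have h2 : 1 / (1 + ((N : ℝ) + 1) / 13) ^ 2 = 169 / (14 + N) ^ 2 := by
          have h3 : (14 + (N : ℝ)) ≠ 0 := by positivity
          have h4 : (1 + ((N : ℝ) + 1) / 13) = (14 + N) / 13 := by ring
          rw [h4]
          field_simp
          norm_num
        have h5 : 169 / (13 + (N : ℝ)) - 169 / (13 + ((N : ℝ) + 1)) = 169 / ((13 + N) * (14 + N)) := by
          have h3 : (13 + (N : ℝ)) ≠ 0 := by positivity
          have h4 : (14 + (N : ℝ)) ≠ 0 := by positivity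
          have h6 : (13 + ((N : ℝ) + 1)) = 14 + N := by ring
          rw [h6]
          field_simp
          ring
        rw [h2, h5]
        refine div_le_div_of_nonneg_left (by norm_num) (by positivity) ?_
        nlinarith
      linarith
  rcases N with _ | N
  · simp
  · refine (key N).trans ?_
    have : (0 : ℝ) ≤ 169 / (13 + (N : ℝ)) := by positivity
    linarith

private theorem ge4_set (F : Finset ℕ) : ∑ m ∈ F, 1 / (1 + (m : ℝ) / 13) ^ 2 ≤ 14 := by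
  have h1 : F ⊆ range (F.sup id + 1) := by
    intro m hm
    have h2 : m ≤ F.sup id := Finset.le_sup (f := id) hm
    exact Finset.mem_range.2 (Nat.lt_succ_of_le h2)
  exact (Finset.sum_le_sum_of_subset_of_nonneg h1 fun m _ _ => by positivity).trans (ge4_range _)

private theorem ge4_inj (S : Finset ℕ) (y : ℝ) (g : ℕ → ℕ) (hg : Set.InjOn g S)
    (h : ∀ a ∈ S, (g a : ℝ) ≤ |(a : ℝ) - y|) : ∑ a ∈ S, 1 / (1 + |(a : ℝ) - y| / 13) ^ 2 ≤ 14 := by
  have h1 : ∑ a ∈ S, 1 / (1 + |(a : ℝ) - y| / 13) ^ 2 ≤ ∑ a ∈ S, 1 / (1 + (g a : ℝ) / 13) ^ 2 := by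
    refine Finset.sum_le_sum fun a ha => ?_
    have h2 := h a ha
    refine one_div_le_one_div_of_le (by positivity) ?_
    refine pow_le_pow_left₀ (by positivity) ?_ 2
    linarith
  refine h1.trans ?_
  rw [← Finset.sum_image (f := fun m : ℕ => 1 / (1 + (m : ℝ) / 13) ^ 2) hg]
  exact ge4_set _

/-- MODULE ge4. Points with spacing `1 / 13`: the points `a ≥ y` are at distances at least
`0, 1, 2, …`, and `∑_{m ≥ 0} (1 + m / 13) ^ (-2) ≤ 1 + ∑_{m ≥ 1} 169 / ((12 + m) (13 + m)) = 14`;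
the same for `a < y`. -/
theorem spaced (M : ℕ) (y : ℝ) :
    ∑ a ∈ range M, 1 / (1 + |(a : ℝ) - y| / 13) ^ 2 ≤ 28 := by
  have h0 := Finset.sum_filter_add_sum_filter_not (range M) (fun a : ℕ => y ≤ (a : ℝ))
    (fun a : ℕ => 1 / (1 + |(a : ℝ) - y| / 13) ^ 2)
  have h1 := ge4_inj ((range M).filter (fun a : ℕ => y ≤ (a : ℝ))) y (fun a => ((a : ℤ) - ⌈y⌉).toNat) (by
    intro a ha b hb hab
    rw [Finset.mem_coe, Finset.mem_filter] at ha hb
    have ha' : ⌈y⌉ ≤ (a : ℤ) := Int.ceil_le.2 (by exact_mod_cast ha.2)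
    have hb' : ⌈y⌉ ≤ (b : ℤ) := Int.ceil_le.2 (by exact_mod_cast hb.2)
    have hab' : ((a : ℤ) - ⌈y⌉).toNat = ((b : ℤ) - ⌈y⌉).toNat := hab
    omega) (by
    intro a ha
    rw [Finset.mem_filter] at ha
    have ha' : ⌈y⌉ ≤ (a : ℤ) := Int.ceil_le.2 (by exact_mod_cast ha.2)
    have h2 : ((((a : ℤ) - ⌈y⌉).toNat : ℕ) : ℝ) = (a : ℝ) - ⌈y⌉ := by
      have h3 : ((((a : ℤ) - ⌈y⌉).toNat : ℕ) : ℤ) = (a : ℤ) - ⌈y⌉ := Int.toNat_of_nonneg (by linarith)
      exact_mod_cast h3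
    rw [h2, abs_of_nonneg (by linarith [ha.2])]
    have h4 := Int.le_ceil y
    linarith)
  have h2 := ge4_inj ((range M).filter (fun a : ℕ => ¬ y ≤ (a : ℝ))) y (fun a => (⌈y⌉ - 1 - (a : ℤ)).toNat) (by
    intro a ha b hb hab
    rw [Finset.mem_coe, Finset.mem_filter] at ha hb
    have ha' : (a : ℤ) < ⌈y⌉ := Int.lt_ceil.2 (by exact_mod_cast not_le.1 ha.2)
    have hb' : (b : ℤ) < ⌈y⌉ := Int.lt_ceil.2 (by exact_mod_cast not_le.1 hb.2)
    have hab' : (⌈y⌉ - 1 - (a : ℤ)).toNat = (⌈y⌉ - 1 - (b : ℤ)).toNat := hab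
    omega) (by
    intro a ha
    rw [Finset.mem_filter] at ha
    have ha'' := not_le.1 ha.2
    have ha' : (a : ℤ) < ⌈y⌉ := Int.lt_ceil.2 (by exact_mod_cast ha'')
    have h2 : (((⌈y⌉ - 1 - (a : ℤ)).toNat : ℕ) : ℝ) = ⌈y⌉ - 1 - (a : ℝ) := by
      have h3 : (((⌈y⌉ - 1 - (a : ℤ)).toNat : ℕ) : ℤ) = ⌈y⌉ - 1 - (a : ℤ) := Int.toNat_of_nonneg (by omega)
      exact_mod_cast h3
    rw [h2, abs_of_neg (by linarith)]
    have h4 := Int.ceil_lt_add_one y
    linarith)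
  rw [← h0]
  linarith

end Pool.Agent.HadS
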