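import Pool.Agent.HadS.PS
import Pool.Agent.HadS.Geo

/-! The bilinear estimate. -/

set_option autoImplicit false

namespace Pool.Agent.HadS

open Finset

private theorem bi1_sq (Q : Finset ℕ) (j : ℕ) (θ : ℝ) (x : ℕ) :
    (((‖PS Q j (fun y => ee (θ * ((x * y : ℕ) : ℝ)))‖ ^ 2 : ℝ)) : ℂ) =
      PS Q j (fun y => PS Q j (fun y' => ee (θ * ((y : ℝ) - (y' : ℝ)) * (x : ℝ)))) := by
  have h1 := PS_map (starRingEnd ℂ).toAddMonoidHom Q j (fun y => ee (θ * ((x * y : ℕ) : ℝ)))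
  have h2 : (starRingEnd ℂ) (PS Q j (fun y => ee (θ * ((x * y : ℕ) : ℝ)))) =
      PS Q j (fun y' => ee (-(θ * ((x * y' : ℕ) : ℝ)))) := by
    have h3 : (starRingEnd ℂ) (PS Q j (fun y => ee (θ * ((x * y : ℕ) : ℝ)))) =
        PS Q j (fun y => (starRingEnd ℂ) (ee (θ * ((x * y : ℕ) : ℝ)))) := h1
    rw [h3]
    apply PS_congr
    intro n _
    exact ee_conj _
  have h4 : (((‖PS Q j (fun y => ee (θ * ((x * y : ℕ) : ℝ)))‖ ^ 2 : ℝ)) : ℂ) =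
      (starRingEnd ℂ) (PS Q j (fun y => ee (θ * ((x * y : ℕ) : ℝ)))) *
        PS Q j (fun y => ee (θ * ((x * y : ℕ) : ℝ))) := by
    rw [Complex.conj_mul']
    push_cast
    rfl
  rw [h4, ← PS_mul_left]
  apply PS_congr
  intro y _
  rw [h2, mul_comm, ← PS_mul_left]
  apply PS_congr
  intro y' _
  rw [← ee_add]
  congr 1
  push_cast
  ring

private theorem bi1_sum (Q : Finset ℕ) (j Y : ℕ) (θ : ℝ) :
    (((∑ x ∈ range Y, ‖PS Q j (fun y => ee (θ * ((x * y : ℕ) : ℝ)))‖ ^ 2 : ℝ)) : ℂ) =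
      PS Q j (fun y => PS Q j (fun y' => gs Y (θ * ((y : ℝ) - (y' : ℝ))))) := by
  rw [Complex.ofReal_sum, Finset.sum_congr rfl (fun x _ => bi1_sq Q j θ x), ← PS_sum]
  apply PS_congr
  intro y _
  rw [← PS_sum]
  rfl

private theorem bi1_shift {Y : ℕ} (θ : ℝ) {y : ℕ} (hy : y < Y) :
    ∑ y' ∈ range Y, ‖gs Y (θ * ((y : ℝ) - (y' : ℝ)))‖ ≤
      ∑ h ∈ Ioo (-(Y : ℤ)) (Y : ℤ), ‖gs Y (θ * h)‖ := by
  have h1 : ∑ y' ∈ range Y, ‖gs Y (θ * ((y : ℝ) - (y' : ℝ)))‖ =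
      ∑ h ∈ (range Y).image (fun y' : ℕ => (y : ℤ) - (y' : ℤ)), ‖gs Y (θ * (h : ℝ))‖ := by
    rw [Finset.sum_image]
    · apply Finset.sum_congr rfl
      intro y' _
      push_cast
      rfl
    · intro a _ b _ hab
      simp only at hab
      omega
  rw [h1]
  apply Finset.sum_le_sum_of_subset_of_nonneg
  · intro h hh
    obtain ⟨y', hy', rfl⟩ := Finset.mem_image.1 hh
    rw [Finset.mem_range] at hy'
    rw [Finset.mem_Ioo]
    constructor <;> omega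
  · intro i _ _
    exact norm_nonneg _

/-- MODULE bi1. Let `T` be the double sum. By Cauchy-Schwarz (`PS_cs`, `norm_PS_le`)
`|T|² ≤ |Q|^j PS_x |PS_y e(θ x y)|²`, and the outer sum is at most `j! ∑_{x < Y}` (`PS_le_sum`).
Open the square: `|PS_y e(θ x y)|² = PS_y PS_{y'} e(θ x (y - y'))`, exchange the sums (`PS_sum`),
take the norm of the inner geometric sum over `x < Y`, and for every `y` replace
`PS_{y'} |gs Y (θ (y - y'))|` by `j! ∑_{y' < Y}`, which is at most `j! ∑_{|h| < Y}`. What is left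
is `PS_y 1 = |Q|^j`. -/
theorem bil {Q : Finset ℕ} (hQ : ∀ q ∈ Q, q.Prime) {j Y : ℕ} (hY : ∀ n, Pd Q j n → n < Y)
    (θ : ℝ) :
    ‖PS Q j (fun x => PS Q j (fun y => ee (θ * ((x * y : ℕ) : ℝ))))‖ ^ 2 ≤
      (Q.card : ℝ) ^ (2 * j) * (Nat.factorial j : ℝ) ^ 2 *
        ∑ h ∈ Ioo (-(Y : ℤ)) (Y : ℤ), ‖gs Y (θ * h)‖ := by
  have hfac : (0 : ℝ) ≤ (Nat.factorial j : ℝ) := Nat.cast_nonneg _
  have hcard : (0 : ℝ) ≤ (Q.card : ℝ) ^ j := by positivity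
  have h1 := norm_PS_le Q j (fun x => PS Q j (fun y => ee (θ * ((x * y : ℕ) : ℝ))))
  have h2 := PS_cs Q j (fun x => ‖PS Q j (fun y => ee (θ * ((x * y : ℕ) : ℝ)))‖)
  have h3 := PS_le_sum hQ j Y hY
    (F := fun x => ‖PS Q j (fun y => ee (θ * ((x * y : ℕ) : ℝ)))‖ ^ 2) (fun n => by positivity)
  have h4 : ∑ x ∈ range Y, ‖PS Q j (fun y => ee (θ * ((x * y : ℕ) : ℝ)))‖ ^ 2 ≤
      (Q.card : ℝ) ^ j * ((Nat.factorial j : ℝ) *
        ∑ h ∈ Ioo (-(Y : ℤ)) (Y : ℤ), ‖gs Y (θ * h)‖) := by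
    have h5 : ∑ x ∈ range Y, ‖PS Q j (fun y => ee (θ * ((x * y : ℕ) : ℝ)))‖ ^ 2 =
        ‖PS Q j (fun y => PS Q j (fun y' => gs Y (θ * ((y : ℝ) - (y' : ℝ)))))‖ := by
      rw [← bi1_sum Q j Y θ, Complex.norm_real, Real.norm_of_nonneg]
      exact Finset.sum_nonneg (fun i _ => by positivity)
    rw [h5, ← PS_const]
    refine le_trans (norm_PS_le _ _ _) ?_
    apply PS_mono
    intro y hy
    refine le_trans (norm_PS_le _ _ _) ?_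
    refine le_trans (PS_le_sum hQ j Y hY
      (F := fun y' => ‖gs Y (θ * ((y : ℝ) - (y' : ℝ)))‖) (fun n => norm_nonneg _)) ?_
    exact mul_le_mul_of_nonneg_left (bi1_shift θ (hY y hy)) hfac
  have h6 : (PS Q j (fun x => ‖PS Q j (fun y => ee (θ * ((x * y : ℕ) : ℝ)))‖)) ^ 2 ≤
      (Q.card : ℝ) ^ j * ((Nat.factorial j : ℝ) * ((Q.card : ℝ) ^ j * ((Nat.factorial j : ℝ) *
        ∑ h ∈ Ioo (-(Y : ℤ)) (Y : ℤ), ‖gs Y (θ * h)‖))) := by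
    refine le_trans h2 ?_
    apply mul_le_mul_of_nonneg_left _ hcard
    refine le_trans h3 ?_
    exact mul_le_mul_of_nonneg_left h4 hfac
  calc ‖PS Q j (fun x => PS Q j (fun y => ee (θ * ((x * y : ℕ) : ℝ))))‖ ^ 2
      ≤ (PS Q j (fun x => ‖PS Q j (fun y => ee (θ * ((x * y : ℕ) : ℝ)))‖)) ^ 2 :=
        pow_le_pow_left₀ (norm_nonneg _) h1 2
    _ ≤ _ := h6
    _ = (Q.card : ℝ) ^ (2 * j) * (Nat.factorial j : ℝ) ^ 2 *
        ∑ h ∈ Ioo (-(Y : ℤ)) (Y : ℤ), ‖gs Y (θ * h)‖ := by ring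

end Pool.Agent.HadS
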