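import Pool.Agent.HadS.Defs
import Pool.Agent.HadL.Defs

/-! The cost calculus: products are free, sums of boundedly many terms with a common power of two
cost a constant factor. -/

set_option autoImplicit false

namespace Pool.Agent.HadS

open Pool.Agent.HadL

/-- MODULE co1 (by `mul` with `b = 1`, `base`). -/
theorem cost_pow {P : ℕ → ℕ → Prop} (R : Rules P) {w a : ℕ} (hw : 1 ≤ w) (ha : 0 < a)
    (h : P w a) (j : ℕ) : P w (2 ^ j * a) := by
  have h1 : P w 1 := R.mono hw R.base
  induction j with
  | zero => simpa using h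
  | succ j ih =>
    have h2 := R.mul (m := w) (a := 2 ^ j * a) (b := 1) (by positivity) one_pos ih h1
    have e : 2 * (2 ^ j * a) * 1 = 2 ^ (j + 1) * a := by ring
    rwa [e] at h2

/-- MODULE co1 (by `mul`). -/
theorem cost_list {P : ℕ → ℕ → Prop} (R : Rules P) {w : ℕ} (t : List ℕ) (ht : t ≠ [])
    (h : ∀ c ∈ t, 0 < c ∧ P w c) : P w (2 ^ (t.length - 1) * t.prod) := by
  induction t with
  | nil => exact absurd rfl ht
  | cons c t ih =>
    rcases List.eq_nil_or_concat t with h0 | h0
    · subst h0
      simpa using (h c (by simp)).2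
    · have hne : t ≠ [] := by
        rcases h0 with ⟨a, b, e⟩
        rw [e]
        simp
      have h1 := ih hne (fun x hx => h x (List.mem_cons_of_mem _ hx))
      have hc := h c (by simp)
      have hpos : 0 < t.prod := by
        apply List.prod_pos
        intro x hx
        exact (h x (List.mem_cons_of_mem _ hx)).1
      have h2 := R.mul hc.1 (b := 2 ^ (t.length - 1) * t.prod) (by positivity) hc.2 h1
      have hl : 0 < t.length := List.length_pos_iff.2 hne
      have e : 2 * c * (2 ^ (t.length - 1) * t.prod) =
          2 ^ ((c :: t).length - 1) * (c :: t).prod := by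
        rw [List.prod_cons, List.length_cons]
        obtain ⟨m, hm⟩ : ∃ m, t.length = m + 1 := ⟨t.length - 1, by omega⟩
        rw [hm]
        have e1 : m + 1 - 1 = m := by omega
        have e2 : m + 1 + 1 - 1 = m + 1 := by omega
        rw [e1, e2]
        ring
      rwa [e] at h2

/-- MODULE co1 -/
theorem cost_smo {P : ℕ → ℕ → Prop} (R : Rules P) {w l k s y : ℕ} (hw : 1 ≤ w)
    (hR : Rg P w l) (hy : Smo l k y) (hs : k ≤ s) : P w (2 ^ s * y) := by
  obtain ⟨t, ht, hc, j, rfl⟩ := hy
  rcases List.eq_nil_or_concat t with h0 | h0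
  · subst h0
    have h1 := cost_pow R hw one_pos (R.mono hw R.base) (s + j)
    have e : 2 ^ (s + j) * 1 = 2 ^ s * (2 ^ j * (List.prod [] : ℕ)) := by
      rw [List.prod_nil, pow_add]
      ring
    rwa [e] at h1
  · have hne : t ≠ [] := by
      rcases h0 with ⟨a, b, e⟩
      rw [e]
      simp
    have h1 := cost_list R (w := w) t hne
      (fun c hcc => ⟨(hc c hcc).1, hR c (hc c hcc).1 (hc c hcc).2⟩)
    have hpos : 0 < t.prod := by
      apply List.prod_pos
      intro x hx
      exact (hc x hx).1
    have h2 := cost_pow R hw (a := 2 ^ (t.length - 1) * t.prod) (by positivity) h1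
      (s - (t.length - 1) + j)
    have e : 2 ^ (s - (t.length - 1) + j) * (2 ^ (t.length - 1) * t.prod) =
        2 ^ s * (2 ^ j * t.prod) := by
      have e1 : s = (s - (t.length - 1)) + (t.length - 1) := by omega
      conv_rhs => rw [e1]
      rw [pow_add, pow_add]
      ring
    rwa [e] at h2

/-- MODULE co2. Induction on `H`: `u = y₀ + u'`, and if both are positive
`2 ^ s u = 2 ^ s y₀ + 2 (2 ^ (s - 1) u')`; rule `add`. -/
theorem cost_sum {P : ℕ → ℕ → Prop} (R : Rules P) {w l k : ℕ} (hw : 1 ≤ w)
    (hR : Rg P w l) (H : ℕ) : ∀ u s : ℕ, Sm l k H u → 0 < u → k + H ≤ s →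
      P (H * (w + 1)) (2 ^ s * u) := by
  induction H with
  | zero =>
    intro u s hu hpos _
    obtain ⟨y, _, e⟩ := hu
    rw [Finset.univ_eq_empty, Finset.sum_empty] at e
    omega
  | succ H ih =>
    intro u s hu hpos hs
    obtain ⟨y, hy, e⟩ := hu
    rw [Fin.sum_univ_succ] at e
    have hu' : Sm l k H (∑ i : Fin H, y i.succ) := ⟨fun i => y i.succ, fun i => hy _, rfl⟩
    rcases Nat.eq_zero_or_pos (∑ i : Fin H, y i.succ) with h0 | h0
    · rw [h0, add_zero] at e
      have h1 : Smo l k u := by
        rcases hy 0 with h2 | h2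
        · omega
        · rwa [e]
      have h3 := cost_smo R hw hR h1 (s := s) (by omega)
      exact R.mono (by nlinarith) h3
    · rcases Nat.eq_zero_or_pos (y 0) with h1 | h1
      · rw [h1, zero_add] at e
        have h2 := ih (∑ i : Fin H, y i.succ) s hu' h0 (by omega)
        rw [← e] at h2
        exact R.mono (by nlinarith) h2
      · have h2 : Smo l k (y 0) := by
          rcases hy 0 with h3 | h3
          · omega
          · exact h3
        have h3 := cost_smo R hw hR h2 (s := s) (by omega)
        have h4 := ih (∑ i : Fin H, y i.succ) (s - 1) hu' h0 (by omega)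
        have h5 := R.add (a := 2 ^ s * y 0) (b := 2 ^ (s - 1) * ∑ i : Fin H, y i.succ)
          (by positivity) (by positivity) h3 h4
        have e1 : 2 ^ s * y 0 + 2 * (2 ^ (s - 1) * ∑ i : Fin H, y i.succ) = 2 ^ s * u := by
          have e2 : s = (s - 1) + 1 := by omega
          conv_rhs => rw [e2]
          conv_lhs => rw [e2]
          have e3 : s - 1 + 1 - 1 = s - 1 := by omega
          rw [e3, e, pow_succ]
          ring
        rw [e1] at h5
        have e4 : w + H * (w + 1) + 1 = (H + 1) * (w + 1) := by ring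
        rwa [e4] at h5

end Pool.Agent.HadS
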