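import Mathlib

/-!
# Hadamard orders: the bound with the iterated logarithm, definitions

Text: `MP_9e8db8_co_logstar_helper31.md`.
-/

set_option autoImplicit false

namespace Pool.Agent.HadS

/-- the distance to the nearest integer -/
noncomputable def nint (x : ℝ) : ℝ := |x - round x|

/-- `e(x) = exp (2 π i x)` -/
noncomputable def ee (x : ℝ) : ℂ := Complex.exp (2 * Real.pi * Complex.I * (x : ℂ))

/-- the geometric sum `∑_{x < Y} e(θ x)` -/
noncomputable def gs (Y : ℕ) (θ : ℝ) : ℂ := ∑ x ∈ Finset.range Y, ee (θ * x)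

/-- the sum of `F (q₁ ⋯ q_k)` over all `k`-tuples of elements of `Q` -/
def PS {V : Type} [AddCommMonoid V] (Q : Finset ℕ) : ℕ → (ℕ → V) → V
  | 0, F => F 1
  | k + 1, F => ∑ q ∈ Q, PS Q k (fun n => F (q * n))

/-- `n` is a product of `k` elements of `Q` -/
def Pd (Q : Finset ℕ) : ℕ → ℕ → Prop
  | 0, n => n = 1
  | k + 1, n => ∃ q ∈ Q, ∃ m, Pd Q k m ∧ n = q * m

/-- the number of `k`-tuples of elements of `Q` with product `n` -/
def wt (Q : Finset ℕ) (k n : ℕ) : ℕ := PS Q k (fun m => if m = n then 1 else 0)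

/-- the normalised exponential sum over products of `k` elements of `Q` -/
noncomputable def Sk (Q : Finset ℕ) (k : ℕ) (α : ℝ) : ℂ :=
  PS Q k (fun n => ee (α * n)) / (Q.card : ℂ) ^ k

/-- A class of primes: all of them lie in `[C, 2 ^ (1 / L) C]`, and there are at least
`L C / lam` of them. -/
structure Cls (L : ℕ) (Q : Finset ℕ) (C lam : ℝ) : Prop where
  L1 : 1 ≤ L
  C1 : 16 ≤ C
  lam1 : 1 ≤ lam
  prime : ∀ q ∈ Q, q.Prime
  lb : ∀ q ∈ Q, C ≤ q
  ub : ∀ q ∈ Q, (q : ℝ) ^ L ≤ 2 * C ^ L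
  card : (L : ℝ) * C ≤ lam * (Q.card : ℝ)
  small : (3 * lam ^ 3) ^ 20 ≤ C
  log : 1170 * (1 + Real.log (100 * C ^ (L + 2))) ≤ C

/-- `y` is a power of two times a product of at most `k` integers from `[1, 2 ^ l)` -/
def Smo (l k y : ℕ) : Prop :=
  ∃ t : List ℕ, t.length ≤ k ∧ (∀ c ∈ t, 0 < c ∧ c < 2 ^ l) ∧ ∃ j : ℕ, y = 2 ^ j * t.prod

/-- `n` is a sum of `H` terms, each `0` or of the form `Smo l k` -/
def Sm (l k H n : ℕ) : Prop :=
  ∃ y : Fin H → ℕ, (∀ i, y i = 0 ∨ Smo l k (y i)) ∧ n = ∑ i, y i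

/-- all positive integers below `2 ^ l` satisfy `P w` -/
def Rg (P : ℕ → ℕ → Prop) (w l : ℕ) : Prop := ∀ n, 0 < n → n < 2 ^ l → P w n

/-- the iterated logarithm: how often one has to take `Nat.log 2` to reach `0` -/
def lstar : ℕ → ℕ
  | 0 => 0
  | n + 1 => 1 + lstar (Nat.log 2 (n + 1))
decreasing_by exact Nat.log_lt_self 2 (Nat.succ_ne_zero n)

end Pool.Agent.HadS
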