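import Pool.Agent.HadS.Img

/-! The density of the sums at all scales. -/

set_option autoImplicit false

namespace Pool.Agent.HadS

open Finset

/-- MODULE de1 -/
theorem Smo.mono {l l' k k' y : ℕ} (hl : l ≤ l') (hk : k ≤ k') (h : Smo l k y) : Smo l' k' y := by
  obtain ⟨t, h1, h2, j, h3⟩ := h
  exact ⟨t, h1.trans hk, fun c hc => ⟨(h2 c hc).1,
    (h2 c hc).2.trans_le (Nat.pow_le_pow_right (by norm_num) hl)⟩, j, h3⟩

/-- MODULE de1 -/
theorem Sm.mono {l l' k k' H n : ℕ} (hl : l ≤ l') (hk : k ≤ k') (h : Sm l k H n) :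
    Sm l' k' H n := by
  obtain ⟨y, h1, h2⟩ := h
  exact ⟨y, fun i => (h1 i).imp id (Smo.mono hl hk), h2⟩

/-- MODULE de1 -/
theorem Sm.zero (l k H : ℕ) : Sm l k H 0 := by
  exact ⟨fun _ => 0, fun _ => Or.inl rfl, by simp⟩

/-- MODULE de1 (for `H ≥ 1`, `k ≥ 1`: one term, the list `[n]`). -/
theorem Sm.small {l k H n : ℕ} (hk : 1 ≤ k) (hH : 1 ≤ H) (hn : n < 2 ^ l) : Sm l k H n := by
  rcases Nat.eq_zero_or_pos n with h | h
  · rw [h]
    exact Sm.zero l k H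
  · obtain ⟨H', rfl⟩ : ∃ H', H = H' + 1 := ⟨H - 1, by omega⟩
    refine ⟨Fin.cons n fun _ => 0, fun i => ?_, ?_⟩
    · refine Fin.cases ?_ (fun j => ?_) i
      · right
        rw [Fin.cons_zero]
        refine ⟨[n], by simpa using hk, fun c hc => ?_, 0, by simp⟩
        rw [List.mem_singleton] at hc
        rw [hc]
        exact ⟨h, hn⟩
      · left
        rw [Fin.cons_succ]
    · rw [Fin.sum_univ_succ]
      simp

/-- MODULE de1. Sums of `H` numbers of the form `Sm l k T`. -/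
theorem Sm.sum {l k H T : ℕ} (y : Fin H → ℕ) (h : ∀ i, Sm l k T (y i)) :
    Sm l k (T * H) (∑ i, y i) := by
  choose z hz1 hz2 using h
  refine ⟨fun a => z (finProdFinEquiv.symm a).2 (finProdFinEquiv.symm a).1,
    fun a => hz1 _ _, ?_⟩
  rw [Equiv.sum_comp finProdFinEquiv.symm (fun p : Fin T × Fin H => z p.2 p.1),
    Fintype.sum_prod_type_right]
  exact sum_congr rfl fun i _ => hz2 i

/-- MODULE de2. The terms: `2 ^ i p_j` (list of the `k` primes, `Pd_list`; `q ≤ 2 C ≤ 2 ^ (b + 1)`),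
`2 ^ (i + e) c` (list `[c]`, `c < U ≤ 4 C ^ 30 ≤ 2 ^ (30 b + 2)`, or the term `0`),
`2 ^ i r + t < 2 ^ i R ≤ C · 8 C ^ 60 ≤ 2 ^ (61 b + 3)` (list `[2 ^ i r + t]` or the term `0`);
`61 b + 3 < 65 b`. -/
theorem sm_of_sum {L : ℕ} {Q : Finset ℕ} {C lam : ℝ} (h : Cls L Q C lam) {b k e U R i : ℕ}
    (hb : 1 ≤ b) (hC : C ≤ (2 : ℝ) ^ b) (hk : 1 ≤ k) (hU : (U : ℝ) ≤ 4 * C ^ 30)
    (hR : (R : ℝ) ≤ 8 * C ^ 60) (hi : (2 : ℝ) ^ i ≤ C) {p : Fin 5 → ℕ} (hp : ∀ j, Pd Q k (p j))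
    {c r t : ℕ} (hc : c < U) (hr : r < R) (ht : t < 2 ^ i) :
    Sm (65 * b) k 7 (2 ^ i * (∑ j, p j + 2 ^ e * c + r) + t) := by
  have hC0 : 0 < C := lt_of_lt_of_le (by norm_num) h.C1
  have hb65 : ∀ {m : ℕ}, m ≤ 65 * b → (2 : ℝ) ^ m ≤ 2 ^ (65 * b) := fun hm =>
    pow_le_pow_right₀ one_le_two hm
  have hq : ∀ q ∈ Q, 0 < q ∧ q < 2 ^ (65 * b) := by
    intro q hq
    refine ⟨(h.prime q hq).pos, ?_⟩
    have h1 : (q : ℝ) ≤ 2 * C := by
      refine le_of_pow_le_pow_left₀ (by have := h.L1; omega : L ≠ 0) (by positivity) ?_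
      refine (h.ub q hq).trans ?_
      rw [mul_pow]
      refine mul_le_mul_of_nonneg_right ?_ (by positivity)
      calc (2 : ℝ) = 2 ^ 1 := (pow_one 2).symm
        _ ≤ 2 ^ L := pow_le_pow_right₀ one_le_two h.L1
    have h2 : (q : ℝ) < (2 : ℝ) ^ (65 * b) := by
      calc (q : ℝ) ≤ 2 * C := h1
        _ ≤ 2 * 2 ^ b := mul_le_mul_of_nonneg_left hC (by norm_num)
        _ = 2 ^ (b + 1) := (pow_succ' 2 b).symm
        _ < 2 ^ (65 * b) := pow_lt_pow_right₀ one_lt_two (by omega)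
    exact_mod_cast h2
  have hcb : c < 2 ^ (65 * b) := by
    have h2 : (c : ℝ) < (2 : ℝ) ^ (65 * b) := by
      calc (c : ℝ) < U := by exact_mod_cast hc
        _ ≤ 4 * C ^ 30 := hU
        _ ≤ 4 * (2 ^ b) ^ 30 :=
            mul_le_mul_of_nonneg_left (pow_le_pow_left₀ hC0.le hC 30) (by norm_num)
        _ = 2 ^ (b * 30 + 2) := by rw [← pow_mul, pow_add]; ring
        _ ≤ 2 ^ (65 * b) := hb65 (by omega)
    exact_mod_cast h2
  have hrb : 2 ^ i * r + t < 2 ^ (65 * b) := by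
    have h1 : 2 ^ i * r + t < 2 ^ i * R := by
      calc 2 ^ i * r + t < 2 ^ i * r + 2 ^ i := Nat.add_lt_add_left ht _
        _ = 2 ^ i * (r + 1) := by ring
        _ ≤ 2 ^ i * R := Nat.mul_le_mul_left _ hr
    have h2 : ((2 ^ i * R : ℕ) : ℝ) ≤ (2 : ℝ) ^ (65 * b) := by
      push_cast
      calc (2 : ℝ) ^ i * R ≤ C * (8 * C ^ 60) := mul_le_mul hi hR (Nat.cast_nonneg R) hC0.le
        _ = 8 * C ^ 61 := by ring
        _ ≤ 8 * (2 ^ b) ^ 61 :=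
            mul_le_mul_of_nonneg_left (pow_le_pow_left₀ hC0.le hC 61) (by norm_num)
        _ = 2 ^ (b * 61 + 3) := by rw [← pow_mul, pow_add]; ring
        _ ≤ 2 ^ (65 * b) := hb65 (by omega)
    exact h1.trans_le (by exact_mod_cast h2)
  refine ⟨fun n => if hn : (n : ℕ) < 5 then 2 ^ i * p ⟨n, hn⟩ else
    if (n : ℕ) = 5 then 2 ^ (i + e) * c else 2 ^ i * r + t, fun n => ?_, ?_⟩
  · dsimp only
    split_ifs with h5 h6
    · right
      obtain ⟨l, hl1, hl2, hl3⟩ := Pd_list (hp ⟨n, h5⟩)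
      exact ⟨l, hl1.le, fun q hq' => hq q (hl2 q hq'), i, by rw [hl3]⟩
    · rcases Nat.eq_zero_or_pos c with h7 | h7
      · left; rw [h7, mul_zero]
      · right
        refine ⟨[c], by simpa using hk, fun q hq' => ?_, i + e, by simp⟩
        rw [List.mem_singleton] at hq'
        rw [hq']
        exact ⟨h7, hcb⟩
    · rcases Nat.eq_zero_or_pos (2 ^ i * r + t) with h7 | h7
      · left; exact h7
      · right
        refine ⟨[2 ^ i * r + t], by simpa using hk, fun q hq' => ?_, 0, by simp⟩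
        rw [List.mem_singleton] at hq'
        rw [hq']
        exact ⟨h7, hrb⟩
  · simp only [Fin.sum_univ_succ, Fin.sum_univ_zero]
    simp [Fin.succ]
    ring

/-- MODULE de3. The parameters for `img`: `M = ⌈12 X⌉`, `R = ⌈7 C ^ 60⌉`, `U = 2 ^ u` the power
of two in `[2 C ^ 30, 4 C ^ 30)`, `2 ^ e U` the power of two in `(X / 2, X]` (`X = C ^ k`,
`k ≥ 61`, `C ≥ 16`). -/
theorem params {C : ℝ} (hC : 16 ≤ C) {k : ℕ} (hk : 61 ≤ k) :
    ∃ M e U R : ℕ, 12 * C ^ k ≤ M ∧ (M : ℝ) ≤ 13 * C ^ k ∧ 2 * C ^ 30 ≤ U ∧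
      (U : ℝ) ≤ 4 * C ^ 30 ∧ C ^ k ≤ 2 * (2 ^ e * U) ∧ (2 : ℝ) ^ e * U ≤ C ^ k ∧
      7 * C ^ 60 ≤ R ∧ (R : ℝ) ≤ 8 * C ^ 60 ∧ (R : ℝ) ≤ C ^ k := by
  have hC1 : (1 : ℝ) ≤ C := by linarith
  have hC0 : (0 : ℝ) < C := by linarith
  have hX1 : (1 : ℝ) ≤ C ^ k := one_le_pow₀ hC1
  have h30 : (1 : ℝ) ≤ C ^ 30 := one_le_pow₀ hC1
  have h60 : (1 : ℝ) ≤ C ^ 60 := one_le_pow₀ hC1
  have h61 : 16 * C ^ 60 ≤ C ^ k := by
    calc 16 * C ^ 60 ≤ C * C ^ 60 := mul_le_mul_of_nonneg_right hC (by positivity)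
      _ = C ^ 61 := by ring
      _ ≤ C ^ k := pow_le_pow_right₀ hC1 hk
  have h3060 : C ^ 30 ≤ C ^ 60 := pow_le_pow_right₀ hC1 (by norm_num)
  obtain ⟨n, hn1, hn2⟩ := exists_nat_pow_near (show (1 : ℝ) ≤ 2 * C ^ 30 by linarith) one_lt_two
  have hU1 : 2 * C ^ 30 ≤ ((2 ^ (n + 1) : ℕ) : ℝ) := by push_cast; exact hn2.le
  have hU2 : ((2 ^ (n + 1) : ℕ) : ℝ) ≤ 4 * C ^ 30 := by
    push_cast
    rw [pow_succ]
    linarith
  have hUpos : (0 : ℝ) < ((2 ^ (n + 1) : ℕ) : ℝ) := by positivity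
  obtain ⟨e, he1, he2⟩ := exists_nat_pow_near
    (show (1 : ℝ) ≤ C ^ k / ((2 ^ (n + 1) : ℕ) : ℝ) by
      rw [le_div_iff₀ hUpos]; linarith) one_lt_two
  rw [le_div_iff₀ hUpos] at he1
  rw [div_lt_iff₀ hUpos] at he2
  refine ⟨⌈12 * C ^ k⌉₊, e, 2 ^ (n + 1), ⌈7 * C ^ 60⌉₊, Nat.le_ceil _, ?_, hU1, hU2, ?_, he1,
    Nat.le_ceil _, ?_, ?_⟩
  · have := Nat.ceil_lt_add_one (show (0 : ℝ) ≤ 12 * C ^ k by positivity)
    linarith
  · rw [pow_succ] at he2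
    linarith
  · have := Nat.ceil_lt_add_one (show (0 : ℝ) ≤ 7 * C ^ 60 by positivity)
    linarith
  · have := Nat.ceil_lt_add_one (show (0 : ℝ) ≤ 7 * C ^ 60 by positivity)
    linarith

/-- MODULE de4. Let `13 C ^ k ≤ x < 13 C ^ (k + 1)` (so `61 ≤ k ≤ L`, as
`x ≥ 2 ^ (65 b) ≥ 13 · 2 ^ (61 b)`) and `2 ^ i 13 C ^ k ≤ x < 2 ^ (i + 1) 13 C ^ k` (so
`2 ^ i ≤ C`). With `I` from `img` (`params`), the numbers `2 ^ i m + t`, `m ∈ I`, `t < 2 ^ i`, are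
different, lie in `[1, x]` and are `Sm (65 b) k 7` (`sm_of_sum`); there are at least
`2 ^ i M / 400 ≥ 2 ^ i 12 C ^ k / 400 ≥ x / 1000` of them. -/
theorem density {L : ℕ} {Q : Finset ℕ} {C lam : ℝ} (h : Cls L Q C lam) {b x : ℕ}
    (hb : 1 ≤ b) (hC : C ≤ (2 : ℝ) ^ b) (hx : 2 ^ (65 * b) ≤ x) (hxL : (x : ℝ) < 13 * C ^ (L + 1)) :
    ∃ k, 61 ≤ k ∧ k ≤ L ∧ C ^ k ≤ (x : ℝ) ∧ ∃ J : Finset ℕ, x ≤ 1000 * J.card ∧
      ∀ n ∈ J, 0 < n ∧ n ≤ x ∧ Sm (65 * b) k 7 n := by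
  have hC1 : (16 : ℝ) ≤ C := h.C1
  have hC0 : (0 : ℝ) < C := by linarith
  have hx' : (2 : ℝ) ^ (65 * b) ≤ x := by exact_mod_cast hx
  -- the exponent `k`
  have hex : ∃ k : ℕ, 13 * C ^ k ≤ (x : ℝ) ∧ (x : ℝ) < 13 * C ^ (k + 1) := by
    have h1 : ∃ m : ℕ, (x : ℝ) < 13 * C ^ m := ⟨L + 1, hxL⟩
    classical
    have h2 := Nat.find_spec h1
    have h3 : Nat.find h1 ≠ 0 := by
      intro h4
      rw [h4, pow_zero, mul_one] at h2
      have h5 : (2 : ℝ) ^ 65 ≤ 2 ^ (65 * b) := pow_le_pow_right₀ (by norm_num) (by omega)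
      norm_num at h5
      linarith
    obtain ⟨k, hk⟩ : ∃ k, Nat.find h1 = k + 1 := ⟨Nat.find h1 - 1, by omega⟩
    refine ⟨k, ?_, ?_⟩
    · have h4 := Nat.find_min h1 (m := k) (by omega)
      exact not_lt.1 h4
    · rw [hk] at h2
      exact h2
  obtain ⟨k, hk1, hk2⟩ := hex
  have hkL : k ≤ L := by
    by_contra h1
    have h2 : C ^ (L + 1) ≤ C ^ k := pow_le_pow_right₀ (by linarith) (by omega)
    linarith
  have hk61 : 61 ≤ k := by
    by_contra h1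
    have h2 : C ^ (k + 1) ≤ C ^ 61 := pow_le_pow_right₀ (by linarith) (by omega)
    have h3 : C ^ 61 ≤ ((2 : ℝ) ^ b) ^ 61 := pow_le_pow_left₀ hC0.le hC 61
    rw [← pow_mul] at h3
    have h4 : (2 : ℝ) ^ (b * 61 + 4) ≤ 2 ^ (65 * b) := pow_le_pow_right₀ (by norm_num) (by omega)
    rw [pow_add] at h4
    have h5 : (0 : ℝ) < 2 ^ (b * 61) := by positivity
    norm_num at h4
    linarith
  have hCk : (0 : ℝ) < C ^ k := by positivity
  have hX : C ^ k ≤ (x : ℝ) := by linarith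
  -- the exponent `i`
  have hex2 : ∃ i : ℕ, 2 ^ i * (13 * C ^ k) ≤ (x : ℝ) ∧ (x : ℝ) < 2 ^ (i + 1) * (13 * C ^ k) := by
    have h1 : ∃ m : ℕ, (x : ℝ) < 2 ^ m * (13 * C ^ k) := by
      obtain ⟨m, hm⟩ := pow_unbounded_of_one_lt (x : ℝ) (by norm_num : (1 : ℝ) < 2)
      refine ⟨m, hm.trans_le ?_⟩
      have h2 : (1 : ℝ) ≤ 13 * C ^ k := by
        have : (1 : ℝ) ≤ C ^ k := one_le_pow₀ (by linarith)
        linarith
      exact le_mul_of_one_le_right (by positivity) h2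
    classical
    have h2 := Nat.find_spec h1
    have h3 : Nat.find h1 ≠ 0 := by
      intro h4
      rw [h4] at h2
      rw [pow_zero, one_mul] at h2
      linarith
    obtain ⟨i, hi⟩ : ∃ i, Nat.find h1 = i + 1 := ⟨Nat.find h1 - 1, by omega⟩
    refine ⟨i, ?_, ?_⟩
    · have h4 := Nat.find_min h1 (m := i) (by omega)
      exact not_lt.1 h4
    · rw [hi] at h2
      exact h2
  obtain ⟨i, hi1, hi2⟩ := hex2
  have hi : (2 : ℝ) ^ i ≤ C := by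
    have h1 : 2 ^ i * (13 * C ^ k) < C * (13 * C ^ k) := by
      have h2 : 13 * C ^ (k + 1) = C * (13 * C ^ k) := by ring
      linarith
    exact (lt_of_mul_lt_mul_right h1 (by positivity)).le
  obtain ⟨M, e, U, R, p1, p2, p3, p4, p5, p6, p7, p8, p9⟩ := params h.C1 hk61
  obtain ⟨I, hI1, hI2⟩ := img h hk61 hkL p1 p2 p3 p5 p6 p7 p9
  have h2i : 0 < 2 ^ i := by positivity
  refine ⟨k, hk61, hkL, hX, (I ×ˢ range (2 ^ i)).image (fun z => 2 ^ i * z.1 + z.2), ?_, ?_⟩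
  · rw [card_image_of_injOn, card_product, card_range]
    · have h1 : (x : ℝ) ≤ 1000 * ((I.card : ℝ) * 2 ^ i) := by
        have h3 : 2 ^ (i + 1) * (13 * C ^ k) ≤ 2 ^ i * (1000 * (I.card : ℝ)) := by
          rw [pow_succ, mul_assoc]
          refine mul_le_mul_of_nonneg_left ?_ (by positivity)
          linarith
        linarith
      exact_mod_cast h1
    · rintro ⟨m, t⟩ hmt ⟨m', t'⟩ hmt' heq
      have ht := mem_range.1 (mem_product.1 (mem_coe.1 hmt)).2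
      have ht' := mem_range.1 (mem_product.1 (mem_coe.1 hmt')).2
      dsimp only at ht ht' heq
      have h1 : m = m' := by
        have h3 : (2 ^ i * m + t) / 2 ^ i = m := by
          rw [Nat.mul_add_div h2i, Nat.div_eq_of_lt ht, add_zero]
        have h4 : (2 ^ i * m' + t') / 2 ^ i = m' := by
          rw [Nat.mul_add_div h2i, Nat.div_eq_of_lt ht', add_zero]
        rw [← h3, ← h4, heq]
      subst h1
      have h5 : t = t' := by omega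
      rw [h5]
  · intro n hn
    obtain ⟨⟨m, t⟩, hmt, rfl⟩ := mem_image.1 hn
    obtain ⟨hm, ht⟩ := mem_product.1 hmt
    dsimp only at hm ht ⊢
    rw [mem_range] at ht
    obtain ⟨hm0, hmM, p, hp, c, hc, r, hr, hmeq⟩ := hI2 m hm
    refine ⟨?_, ?_, ?_⟩
    · have : 0 < 2 ^ i * m := Nat.mul_pos h2i hm0
      omega
    · have h1 : 2 ^ i * m + t ≤ 2 ^ i * M := by
        calc 2 ^ i * m + t ≤ 2 ^ i * m + 2 ^ i := by omega
          _ = 2 ^ i * (m + 1) := by ring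
          _ ≤ 2 ^ i * M := Nat.mul_le_mul_left _ hmM
      have h2 : ((2 ^ i * M : ℕ) : ℝ) ≤ x := by
        push_cast
        have h3 : (2 : ℝ) ^ i * M ≤ 2 ^ i * (13 * C ^ k) :=
          mul_le_mul_of_nonneg_left p2 (by positivity)
        linarith
      exact h1.trans (by exact_mod_cast h2)
    · rw [hmeq]
      exact sm_of_sum h hb hC (by omega) p4 p8 hi hp hc hr ht

end Pool.Agent.HadS
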