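import Pool.Agent.HadS.Geo

/-! The sum of the geometric sums over a symmetric interval. -/

set_option autoImplicit false

namespace Pool.Agent.HadS

open Finset

private theorem gb1_nint {x : ℝ} : x ≤ nint x ∨ 1 - x ≤ nint x := by
  unfold nint
  rcases le_or_gt (round x) 0 with h | h
  · left
    have h1 : ((round x : ℤ) : ℝ) ≤ 0 := by exact_mod_cast h
    have := le_abs_self (x - round x)
    linarith
  · right
    have h1 : (1 : ℝ) ≤ ((round x : ℤ) : ℝ) := by exact_mod_cast h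
    have := neg_abs_le (x - round x)
    linarith

private theorem gb1_harm (q : ℕ) : ∑ r ∈ Ico 1 q, (q : ℝ) / r ≤ q * (1 + Real.log q) := by
  have h1 : ∑ r ∈ Ico 1 q, (q : ℝ) / r = q * ∑ r ∈ Ico 1 q, (1 : ℝ) / r := by
    rw [Finset.mul_sum]
    refine Finset.sum_congr rfl fun r _ => ?_
    ring
  have h2 : ∑ r ∈ Ico 1 q, (1 : ℝ) / r ≤ ∑ r ∈ Icc 1 q, (1 : ℝ) / r := by
    refine Finset.sum_le_sum_of_subset_of_nonneg ?_ (fun i _ _ => by positivity)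
    intro r hr
    rw [Finset.mem_Ico] at hr
    exact Finset.mem_Icc.2 ⟨hr.1, hr.2.le⟩
  have h3 : ∑ u ∈ Icc 1 q, (1 : ℝ) / u ≤ 1 + Real.log q := by
    have h11 := harmonic_le_one_add_log q
    rw [harmonic_eq_sum_Icc] at h11
    push_cast at h11
    simpa [one_div] using h11
  rw [h1]
  exact mul_le_mul_of_nonneg_left (h2.trans h3) (Nat.cast_nonneg q)

private theorem gb1_refl (q : ℕ) :
    ∑ r ∈ Ico 1 q, (q : ℝ) / ((q : ℝ) - r) = ∑ r ∈ Ico 1 q, (q : ℝ) / r := by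
  refine Finset.sum_nbij' (fun r => q - r) (fun r => q - r) ?_ ?_ ?_ ?_ ?_
  · intro r hr
    rw [Finset.mem_Ico] at hr ⊢
    omega
  · intro r hr
    rw [Finset.mem_Ico] at hr ⊢
    omega
  · intro r hr
    rw [Finset.mem_Ico] at hr
    show q - (q - r) = r
    omega
  · intro r hr
    rw [Finset.mem_Ico] at hr
    show q - (q - r) = r
    omega
  · intro r hr
    rw [Finset.mem_Ico] at hr
    have : ((q - r : ℕ) : ℝ) = (q : ℝ) - r := by
      rw [Nat.cast_sub hr.2.le]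
    show (q : ℝ) / ((q : ℝ) - r) = (q : ℝ) / ((q - r : ℕ) : ℝ)
    rw [this]

/-- MODULE gb1. `1 / ‖a h / q‖` over a full period (without the multiples of `q`). `a h` runs
through the residues mod `q`, so the sum is `∑_{0 < r < q} 1 / ‖r / q‖ ≤ 2 ∑_{r ≤ q / 2} q / r`. -/
theorem period_sum {q : ℕ} (hq : 0 < q) {a : ℤ} (ha : IsCoprime a (q : ℤ)) (m : ℤ) :
    ∑ h ∈ (Ico m (m + q)).filter (fun h => ¬ (q : ℤ) ∣ h), 1 / nint ((a : ℝ) * h / q) ≤
      2 * q * (1 + Real.log q) := by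
  classical
  have hqR : (0 : ℝ) < q := by exact_mod_cast hq
  have hqZ : (0 : ℤ) < q := by exact_mod_cast hq
  set S := (Ico m (m + q)).filter (fun h => ¬ (q : ℤ) ∣ h) with hS
  set rr : ℤ → ℕ := fun h => ((a * h) % (q : ℤ)).toNat with hrr
  have hrrZ : ∀ h : ℤ, ((rr h : ℕ) : ℤ) = (a * h) % (q : ℤ) := by
    intro h
    exact Int.toNat_of_nonneg (Int.emod_nonneg _ hqZ.ne')
  have hmem : ∀ h ∈ S, rr h ∈ Ico 1 q := by
    intro h hh
    obtain ⟨h1, h2⟩ := Finset.mem_filter.1 hh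
    have h3 := Int.emod_lt_of_pos (a * h) hqZ
    have h4 : (a * h) % (q : ℤ) ≠ 0 := by
      intro h5
      have h6 : (q : ℤ) ∣ a * h := Int.dvd_of_emod_eq_zero h5
      exact h2 (ha.symm.dvd_of_dvd_mul_left h6)
    have h7 := hrrZ h
    rw [← h7] at h3 h4
    rw [Finset.mem_Ico]
    constructor
    · have : rr h ≠ 0 := by exact_mod_cast h4
      omega
    · exact_mod_cast h3
  have hterm : ∀ h ∈ S, 1 / nint ((a : ℝ) * h / q) ≤
      (q : ℝ) / (rr h : ℕ) + (q : ℝ) / ((q : ℝ) - (rr h : ℕ)) := by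
    intro h hh
    have h1 := Finset.mem_Ico.1 (hmem h hh)
    have hr0 : (0 : ℝ) < (rr h : ℕ) := by
      have : 0 < rr h := by omega
      exact_mod_cast this
    have hr1 : (0 : ℝ) < (q : ℝ) - (rr h : ℕ) := by
      have : ((rr h : ℕ) : ℝ) < q := by exact_mod_cast h1.2
      linarith
    have h2 : (a : ℝ) * h / q = ((rr h : ℕ) : ℝ) / q + (((a * h) / (q : ℤ) : ℤ) : ℝ) := by
      have h3 := Int.emod_add_mul_ediv (a * h) (q : ℤ)
      rw [← hrrZ h] at h3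
      have h4 : (((rr h : ℕ) : ℤ) : ℝ) + (q : ℝ) * (((a * h) / (q : ℤ) : ℤ) : ℝ) = (a : ℝ) * h := by
        exact_mod_cast h3
      rw [← h4]
      field_simp
      push_cast
      ring
    rw [h2, nint_int]
    have hx0 : (0 : ℝ) < ((rr h : ℕ) : ℝ) / q := by positivity
    have hx1 : (0 : ℝ) < 1 - ((rr h : ℕ) : ℝ) / q := by
      rw [sub_pos, div_lt_one hqR]
      linarith
    have e1 : 1 / (((rr h : ℕ) : ℝ) / q) = (q : ℝ) / (rr h : ℕ) := one_div_div _ _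
    have e2 : 1 / (1 - ((rr h : ℕ) : ℝ) / q) = (q : ℝ) / ((q : ℝ) - (rr h : ℕ)) := by
      rw [one_sub_div hqR.ne', one_div_div]
    rcases gb1_nint (x := ((rr h : ℕ) : ℝ) / q) with h5 | h5
    · have h6 := one_div_le_one_div_of_le hx0 h5
      rw [e1] at h6
      have : 0 ≤ (q : ℝ) / ((q : ℝ) - (rr h : ℕ)) := by positivity
      linarith
    · have h6 := one_div_le_one_div_of_le hx1 h5
      rw [e2] at h6
      have : 0 ≤ (q : ℝ) / ((rr h : ℕ) : ℝ) := by positivity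
      linarith
  have hinj : Set.InjOn rr (S : Set ℤ) := by
    intro x hx y hy hxy
    have hx1 := Finset.mem_Ico.1 (Finset.mem_filter.1 (Finset.mem_coe.1 hx)).1
    have hy1 := Finset.mem_Ico.1 (Finset.mem_filter.1 (Finset.mem_coe.1 hy)).1
    have h1 : (a * x) % (q : ℤ) = (a * y) % (q : ℤ) := by
      rw [← hrrZ x, ← hrrZ y, hxy]
    have h2 : (q : ℤ) ∣ a * (x - y) := by
      have := Int.ModEq.dvd h1
      have h3 : a * (x - y) = -(a * y - a * x) := by ring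
      rw [h3]
      exact (dvd_neg).2 this
    have h3 : (q : ℤ) ∣ x - y := ha.symm.dvd_of_dvd_mul_left h2
    have h4 : |x - y| < q := by
      rw [abs_lt]
      constructor <;> linarith [hx1.1, hx1.2, hy1.1, hy1.2]
    have h5 : x - y = 0 := Int.eq_zero_of_abs_lt_dvd h3 h4
    linarith
  refine (Finset.sum_le_sum hterm).trans ?_
  have h6 : ∑ h ∈ S, ((q : ℝ) / (rr h : ℕ) + (q : ℝ) / ((q : ℝ) - (rr h : ℕ))) =
      ∑ r ∈ S.image rr, ((q : ℝ) / (r : ℕ) + (q : ℝ) / ((q : ℝ) - (r : ℕ))) :=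
    (Finset.sum_image (f := fun r : ℕ => ((q : ℝ) / (r : ℕ) + (q : ℝ) / ((q : ℝ) - (r : ℕ))))
      hinj).symm
  rw [h6]
  have h7 : S.image rr ⊆ Ico 1 q := by
    intro r hr
    obtain ⟨h, hh, rfl⟩ := Finset.mem_image.1 hr
    exact hmem h hh
  refine (Finset.sum_le_sum_of_subset_of_nonneg h7 ?_).trans ?_
  · intro r hr _
    rw [Finset.mem_Ico] at hr
    have : (0 : ℝ) < (q : ℝ) - r := by
      have : (r : ℝ) < q := by exact_mod_cast hr.2
      linarith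
    positivity
  · rw [Finset.sum_add_distrib, gb1_refl]
    have := gb1_harm q
    linarith

private theorem gb2_abs {Y q : ℕ} (hq : 1 ≤ q) (b : ℕ → ℝ) (hb : ∀ n, 0 ≤ b n) :
    ∑ h ∈ (Ioo (-(Y : ℤ)) (Y : ℤ)).filter (fun h => (q : ℤ) ∣ h ∧ h ≠ 0), b h.natAbs ≤
      2 * ∑ j ∈ Icc 1 (Y / q), b (q * j) := by
  classical
  have hqZ : (0 : ℤ) < q := by exact_mod_cast hq
  set S := (Ioo (-(Y : ℤ)) (Y : ℤ)).filter (fun h => (q : ℤ) ∣ h ∧ h ≠ 0) with hS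
  set A := (Icc 1 (Y / q)).image (fun j : ℕ => ((q * j : ℕ) : ℤ)) with hA
  set B := (Icc 1 (Y / q)).image (fun j : ℕ => -((q * j : ℕ) : ℤ)) with hB
  have hsub : S ⊆ A ∪ B := by
    intro h hh
    obtain ⟨h1, h2, h3⟩ := Finset.mem_filter.1 hh
    obtain ⟨h4, h5⟩ := Finset.mem_Ioo.1 h1
    obtain ⟨c, rfl⟩ := h2
    have hc : c ≠ 0 := by
      rintro rfl
      simp at h3
    have hc2 : c.natAbs ∈ Icc 1 (Y / q) := by
      rw [Finset.mem_Icc, Nat.le_div_iff_mul_le (by omega)]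
      refine ⟨Int.natAbs_pos.2 hc, ?_⟩
      have h6 : |(q : ℤ) * c| < Y := abs_lt.2 ⟨h4, h5⟩
      have h7 : ((c.natAbs * q : ℕ) : ℤ) = |(q : ℤ) * c| := by
        push_cast
        rw [abs_mul, Nat.abs_cast, mul_comm]
      have h8 : ((c.natAbs * q : ℕ) : ℤ) < Y := by rw [h7]; exact h6
      exact le_of_lt (by exact_mod_cast h8)
    rcases lt_or_gt_of_ne hc with h6 | h6
    · refine Finset.mem_union_right _ (Finset.mem_image.2 ⟨c.natAbs, hc2, ?_⟩)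
      push_cast
      rw [abs_of_neg h6]
      ring
    · refine Finset.mem_union_left _ (Finset.mem_image.2 ⟨c.natAbs, hc2, ?_⟩)
      push_cast
      rw [abs_of_pos h6]
  refine (Finset.sum_le_sum_of_subset_of_nonneg hsub (fun i _ _ => hb _)).trans ?_
  have hun : ∑ h ∈ A ∪ B, b h.natAbs ≤ ∑ h ∈ A, b h.natAbs + ∑ h ∈ B, b h.natAbs := by
    rw [← Finset.sum_union_inter]
    have : 0 ≤ ∑ h ∈ A ∩ B, b h.natAbs := Finset.sum_nonneg fun i _ => hb _
    linarith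
  refine hun.trans ?_
  have hinjA : Set.InjOn (fun j : ℕ => ((q * j : ℕ) : ℤ)) (Icc 1 (Y / q) : Finset ℕ) := by
    intro x _ y _ hxy
    have : q * x = q * y := by
      have h := hxy
      simp only at h
      exact_mod_cast h
    exact Nat.eq_of_mul_eq_mul_left (by omega) this
  have hinjB : Set.InjOn (fun j : ℕ => -((q * j : ℕ) : ℤ)) (Icc 1 (Y / q) : Finset ℕ) := by
    intro x hx y hy hxy
    refine hinjA hx hy ?_
    have h := hxy
    simp only [neg_inj] at h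
    exact h
  rw [hA, hB, Finset.sum_image hinjA, Finset.sum_image hinjB]
  have e1 : ∀ j : ℕ, b (((q * j : ℕ) : ℤ)).natAbs = b (q * j) := by
    intro j
    rw [Int.natAbs_natCast]
  have e2 : ∀ j : ℕ, b (-((q * j : ℕ) : ℤ)).natAbs = b (q * j) := by
    intro j
    rw [Int.natAbs_neg, Int.natAbs_natCast]
  rw [Finset.sum_congr rfl (fun j _ => e1 j), Finset.sum_congr rfl (fun j _ => e2 j)]
  linarith

/-- MODULE gb2. Multiples `h = q h'`, `h' ≠ 0`: `min(Y, 1 / (2 |β| q h'))` for `1 ≤ h' ≤ Y / q`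
(twice). If `|β| Y² ≤ 4` use `Y` (total `≤ 2 Y² / q`), otherwise `∑ 1 / (2 |β| q h')`
(total `≤ (1 + log Y) / (|β| q)`). -/
theorem multiples_sum {Y q : ℕ} {a : ℤ} {β : ℝ} (hY : 1 ≤ Y) (hq : 1 ≤ q)
    (h : q * |β| * Y ≤ 1 / 2) :
    ∑ h ∈ (Ioo (-(Y : ℤ)) (Y : ℤ)).filter (fun h => (q : ℤ) ∣ h ∧ h ≠ 0),
      ‖gs Y (((a : ℝ) / q + β) * h)‖ ≤
        4 * (1 + Real.log Y) * Y ^ 2 / (q * (1 + |β| * Y ^ 2 / 4)) := by
  classical
  have hqR : (1 : ℝ) ≤ q := by exact_mod_cast hq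
  have hq0 : (0 : ℝ) < q := by linarith
  have hYR : (1 : ℝ) ≤ Y := by exact_mod_cast hY
  have hY0 : (0 : ℝ) < Y := by linarith
  have hlog : 0 ≤ Real.log Y := Real.log_nonneg hYR
  have hβ : 0 ≤ |β| := abs_nonneg β
  have hgs : ∀ x : ℤ, (q : ℤ) ∣ x → gs Y (((a : ℝ) / q + β) * x) = gs Y (β * x) := by
    rintro x ⟨c, rfl⟩
    have : ((a : ℝ) / q + β) * ((((q : ℤ) * c : ℤ)) : ℝ) =
        β * ((((q : ℤ) * c : ℤ)) : ℝ) + (((a * c : ℤ)) : ℝ) := by
      push_cast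
      field_simp
      ring
    rw [this, gs_int]
  have hdiv : ((Y / q : ℕ) : ℝ) ≤ (Y : ℝ) / q := Nat.cast_div_le
  rcases le_or_gt (|β| * Y ^ 2) 4 with hc | hc
  · have h1 : ∑ h ∈ (Ioo (-(Y : ℤ)) (Y : ℤ)).filter (fun h => (q : ℤ) ∣ h ∧ h ≠ 0),
        ‖gs Y (((a : ℝ) / q + β) * h)‖ ≤
        ∑ h ∈ (Ioo (-(Y : ℤ)) (Y : ℤ)).filter (fun h => (q : ℤ) ∣ h ∧ h ≠ 0),
          (fun _ : ℕ => (Y : ℝ)) h.natAbs :=
      Finset.sum_le_sum fun x _ => norm_gs_le Y _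
    have h2 := gb2_abs (Y := Y) hq (fun _ : ℕ => (Y : ℝ)) (fun _ => Nat.cast_nonneg Y)
    have h3 : ∑ j ∈ Icc 1 (Y / q), (fun _ : ℕ => (Y : ℝ)) (q * j) = ((Y / q : ℕ) : ℝ) * Y := by
      simp
    rw [h3] at h2
    refine (h1.trans h2).trans ?_
    rw [le_div_iff₀ (by positivity)]
    have h4 : 2 * (((Y / q : ℕ) : ℝ) * Y) * (q * (1 + |β| * Y ^ 2 / 4)) ≤
        2 * ((Y : ℝ) / q * Y) * (q * (1 + |β| * Y ^ 2 / 4)) := by
      have : ((Y / q : ℕ) : ℝ) * Y ≤ (Y : ℝ) / q * Y :=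
        mul_le_mul_of_nonneg_right hdiv hY0.le
      have h5 : 0 ≤ q * (1 + |β| * Y ^ 2 / 4) := by positivity
      exact mul_le_mul_of_nonneg_right (by linarith) h5
    refine h4.trans ?_
    have h5 : 2 * ((Y : ℝ) / q * Y) * (q * (1 + |β| * Y ^ 2 / 4)) =
        2 * Y ^ 2 * (1 + |β| * Y ^ 2 / 4) := by
      field_simp
    rw [h5]
    have h6 : (0 : ℝ) ≤ (Y : ℝ) ^ 2 := by positivity
    nlinarith [mul_nonneg hlog h6]
  · have hβ0 : 0 < |β| := by
      rcases hβ.lt_or_eq with h | h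
      · exact h
      · rw [← h] at hc
        norm_num at hc
    have hb : ∀ x ∈ (Ioo (-(Y : ℤ)) (Y : ℤ)).filter (fun h => (q : ℤ) ∣ h ∧ h ≠ 0),
        ‖gs Y (((a : ℝ) / q + β) * x)‖ ≤ (fun n : ℕ => 1 / (2 * |β| * n)) x.natAbs := by
      intro x hx
      obtain ⟨h1, h2, h3⟩ := Finset.mem_filter.1 hx
      obtain ⟨h4, h5⟩ := Finset.mem_Ioo.1 h1
      rw [hgs x h2]
      have h6 : |(x : ℝ)| ≤ Y := by
        have : |x| < Y := abs_lt.2 ⟨h4, h5⟩
        exact le_of_lt (by exact_mod_cast this)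
      have h7 : |β * x| ≤ 1 / 2 := by
        rw [abs_mul]
        have h8 : |β| * |(x : ℝ)| ≤ |β| * Y := mul_le_mul_of_nonneg_left h6 hβ
        have h9 : |β| * Y ≤ q * |β| * Y := by
          have : 0 ≤ |β| * Y := by positivity
          nlinarith
        linarith
      have h10 := norm_gs_mul Y (β * x)
      rw [nint_of_abs _ h7, abs_mul] at h10
      have h11 : (0 : ℝ) < |(x : ℝ)| := abs_pos.2 (by exact_mod_cast h3)
      show ‖gs Y (β * x)‖ ≤ 1 / (2 * |β| * (x.natAbs : ℝ))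
      rw [Nat.cast_natAbs, Int.cast_abs, le_div_iff₀ (by positivity)]
      calc ‖gs Y (β * x)‖ * (2 * |β| * |(x : ℝ)|) = ‖gs Y (β * x)‖ * (2 * (|β| * |(x : ℝ)|)) := by ring
        _ ≤ 1 := h10
    refine (Finset.sum_le_sum hb).trans ?_
    refine (gb2_abs (Y := Y) hq (fun n : ℕ => 1 / (2 * |β| * n)) (fun n => by positivity)).trans ?_
    have h1 : ∑ j ∈ Icc 1 (Y / q), (fun n : ℕ => 1 / (2 * |β| * n)) (q * j) =
        1 / (2 * |β| * q) * ∑ j ∈ Icc 1 (Y / q), (1 : ℝ) / j := by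
      rw [Finset.mul_sum]
      refine Finset.sum_congr rfl fun j hj => ?_
      show 1 / (2 * |β| * ((q * j : ℕ) : ℝ)) = 1 / (2 * |β| * q) * (1 / j)
      rw [one_div_mul_one_div]
      push_cast
      ring_nf
    rw [h1]
    have h2 : ∑ j ∈ Icc 1 (Y / q), (1 : ℝ) / j ≤ 1 + Real.log Y := by
      have h3 : ∑ j ∈ Icc 1 (Y / q), (1 : ℝ) / j ≤ ∑ j ∈ Icc 1 Y, (1 : ℝ) / j := by
        refine Finset.sum_le_sum_of_subset_of_nonneg ?_ (fun i _ _ => by positivity)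
        exact Finset.Icc_subset_Icc_right (Nat.div_le_self _ _)
      refine h3.trans ?_
      have h11 := harmonic_le_one_add_log Y
      rw [harmonic_eq_sum_Icc] at h11
      push_cast at h11
      simpa [one_div] using h11
    have h3 : 2 * (1 / (2 * |β| * q) * ∑ j ∈ Icc 1 (Y / q), (1 : ℝ) / j) ≤
        2 * (1 / (2 * |β| * q) * (1 + Real.log Y)) := by
      have := mul_le_mul_of_nonneg_left h2 (a := 1 / (2 * |β| * (q : ℝ))) (by positivity)
      linarith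
    refine h3.trans ?_
    have h4 : 2 * (1 / (2 * |β| * q) * (1 + Real.log Y)) = (1 + Real.log Y) / (|β| * q) := by
      field_simp
    rw [h4, div_le_div_iff₀ (by positivity) (by positivity)]
    have h5 : 0 ≤ (1 + Real.log Y) * q := by positivity
    have h6 : 1 + |β| * Y ^ 2 / 4 ≤ 4 * (|β| * Y ^ 2) := by linarith
    calc (1 + Real.log Y) * (q * (1 + |β| * Y ^ 2 / 4)) =
          (1 + Real.log Y) * q * (1 + |β| * Y ^ 2 / 4) := by ring
      _ ≤ (1 + Real.log Y) * q * (4 * (|β| * Y ^ 2)) := mul_le_mul_of_nonneg_left h6 h5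
      _ = 4 * (1 + Real.log Y) * Y ^ 2 * (|β| * q) := by ring

private theorem gb3_periods {q : ℕ} (hq : 0 < q) {a : ℤ} (ha : IsCoprime a (q : ℤ)) (m : ℤ)
    (K : ℕ) :
    ∑ h ∈ (Ico m (m + (K : ℤ) * q)).filter (fun h => ¬ (q : ℤ) ∣ h), 1 / nint ((a : ℝ) * h / q) ≤
      K * (2 * q * (1 + Real.log q)) := by
  classical
  induction K with
  | zero => simp
  | succ K ih =>
    have hqZ : (0 : ℤ) < q := by exact_mod_cast hq
    have h1 : Ico m (m + ((K + 1 : ℕ) : ℤ) * q) =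
        Ico m (m + (K : ℤ) * q) ∪ Ico (m + (K : ℤ) * q) (m + (K : ℤ) * q + q) := by
      ext x
      simp only [Finset.mem_union, Finset.mem_Ico]
      push_cast
      have h2 : m + ((K : ℤ) + 1) * q = m + (K : ℤ) * q + q := by ring
      have h3 : 0 ≤ (K : ℤ) * q := by positivity
      rw [h2]
      constructor
      · rintro ⟨h4, h5⟩
        rcases lt_or_ge x (m + (K : ℤ) * q) with h6 | h6
        · exact Or.inl ⟨h4, h6⟩
        · exact Or.inr ⟨h6, h5⟩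
      · rintro (⟨h4, h5⟩ | ⟨h4, h5⟩)
        · exact ⟨h4, by linarith⟩
        · exact ⟨by linarith, h5⟩
    have hdis : Disjoint (Ico m (m + (K : ℤ) * q)) (Ico (m + (K : ℤ) * q) (m + (K : ℤ) * q + q)) := by
      rw [Finset.disjoint_left]
      intro x hx hy
      rw [Finset.mem_Ico] at hx hy
      linarith [hx.2, hy.1]
    rw [h1, Finset.filter_union, Finset.sum_union (Finset.disjoint_filter_filter hdis)]
    have h2 := period_sum hq ha (m + (K : ℤ) * q)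
    push_cast
    linarith

/-- MODULE gb3. For `q ∤ h`, `‖(a / q + β) h‖ ≥ ‖a h / q‖ - |β| Y ≥ ‖a h / q‖ / 2` because
`|β| Y ≤ 1 / (2 q)` and `‖a h / q‖ ≥ 1 / q`; so `|gs| ≤ 1 / ‖a h / q‖`. The interval
`-Y < h < Y` is covered by at most `2 Y / q + 1` periods. -/
theorem nonmultiples_sum {Y q : ℕ} {a : ℤ} {β : ℝ} (hY : 1 ≤ Y) (hq : 1 ≤ q)
    (ha : IsCoprime a (q : ℤ)) (h : q * |β| * Y ≤ 1 / 2) :
    ∑ h ∈ (Ioo (-(Y : ℤ)) (Y : ℤ)).filter (fun h => ¬ (q : ℤ) ∣ h),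
      ‖gs Y (((a : ℝ) / q + β) * h)‖ ≤ (4 * Y + 2 * q) * (1 + Real.log q) := by
  classical
  have hqR : (1 : ℝ) ≤ q := by exact_mod_cast hq
  have hq0 : (0 : ℝ) < q := by linarith
  have hYR : (1 : ℝ) ≤ Y := by exact_mod_cast hY
  have hlog : 0 ≤ Real.log q := Real.log_nonneg hqR
  have hβY : |β| * Y ≤ 1 / (2 * q) := by
    rw [le_div_iff₀ (by positivity)]
    nlinarith
  have hterm : ∀ x ∈ (Ioo (-(Y : ℤ)) (Y : ℤ)).filter (fun h => ¬ (q : ℤ) ∣ h),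
      ‖gs Y (((a : ℝ) / q + β) * x)‖ ≤ 1 / nint ((a : ℝ) * x / q) := by
    intro x hx
    obtain ⟨h1, h2⟩ := Finset.mem_filter.1 hx
    obtain ⟨h4, h5⟩ := Finset.mem_Ioo.1 h1
    have h6 : |(x : ℝ)| ≤ Y := by
      have : |x| < Y := abs_lt.2 ⟨h4, h5⟩
      exact le_of_lt (by exact_mod_cast this)
    have h7 : ¬ (q : ℤ) ∣ a * x := fun h8 => h2 (ha.symm.dvd_of_dvd_mul_left h8)
    have h8 := nint_div (by omega : 0 < q) h7
    push_cast at h8
    have h9 := nint_add ((a : ℝ) * x / q) (β * x)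
    have h10 : |β * x| ≤ 1 / (2 * q) := by
      rw [abs_mul]
      exact (mul_le_mul_of_nonneg_left h6 (abs_nonneg β)).trans hβY
    have h11 : (a : ℝ) * x / q + β * x = ((a : ℝ) / q + β) * x := by ring
    rw [h11] at h9
    have h12 : 1 / (2 * (q : ℝ)) = 1 / q / 2 := by
      field_simp
    have h13 : nint ((a : ℝ) * x / q) / 2 ≤ nint (((a : ℝ) / q + β) * x) := by
      rw [h12] at h10
      linarith
    have h14 : 0 < nint ((a : ℝ) * x / q) := lt_of_lt_of_le (by positivity) h8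
    have h15 := norm_gs_mul Y (((a : ℝ) / q + β) * x)
    rw [le_div_iff₀ h14]
    have h16 : 0 ≤ ‖gs Y (((a : ℝ) / q + β) * x)‖ := norm_nonneg _
    calc ‖gs Y (((a : ℝ) / q + β) * x)‖ * nint ((a : ℝ) * x / q) ≤
          ‖gs Y (((a : ℝ) / q + β) * x)‖ * (2 * nint (((a : ℝ) / q + β) * x)) :=
        mul_le_mul_of_nonneg_left (by linarith) h16
      _ ≤ 1 := h15
  refine (Finset.sum_le_sum hterm).trans ?_
  set K := 2 * Y / q + 1 with hK
  have hcov : Ioo (-(Y : ℤ)) (Y : ℤ) ⊆ Ico (-(Y : ℤ)) (-(Y : ℤ) + (K : ℤ) * q) := by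
    intro x hx
    obtain ⟨h4, h5⟩ := Finset.mem_Ioo.1 hx
    rw [Finset.mem_Ico]
    refine ⟨h4.le, ?_⟩
    have h6 : 2 * Y < K * q := by
      have h7 := Nat.lt_div_mul_add (a := 2 * Y) (b := q) (by omega)
      rw [hK, add_mul, one_mul]
      exact h7
    have h7 : (2 : ℤ) * Y < (K : ℤ) * q := by exact_mod_cast h6
    linarith
  have h1 : ∑ x ∈ (Ioo (-(Y : ℤ)) (Y : ℤ)).filter (fun h => ¬ (q : ℤ) ∣ h),
      1 / nint ((a : ℝ) * x / q) ≤
      ∑ x ∈ (Ico (-(Y : ℤ)) (-(Y : ℤ) + (K : ℤ) * q)).filter (fun h => ¬ (q : ℤ) ∣ h),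
        1 / nint ((a : ℝ) * x / q) := by
    refine Finset.sum_le_sum_of_subset_of_nonneg (Finset.filter_subset_filter _ hcov) ?_
    intro i _ _
    exact div_nonneg zero_le_one (nint_nonneg _)
  refine (h1.trans (gb3_periods (by omega) ha _ K)).trans ?_
  have hKR : (K : ℝ) ≤ 2 * Y / q + 1 := by
    rw [hK]
    push_cast
    have : ((2 * Y / q : ℕ) : ℝ) ≤ ((2 * Y : ℕ) : ℝ) / q := Nat.cast_div_le
    push_cast at this
    linarith
  calc (K : ℝ) * (2 * q * (1 + Real.log q)) ≤ (2 * Y / q + 1) * (2 * q * (1 + Real.log q)) :=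
        mul_le_mul_of_nonneg_right hKR (by positivity)
    _ = (4 * Y + 2 * q) * (1 + Real.log q) := by
        field_simp
        ring

/-- MODULE gb4 (from gb2, gb3 and the term `h = 0`). -/
theorem gs_sum_le {Y q : ℕ} {a : ℤ} {β : ℝ} (hY : 1 ≤ Y) (hq : 1 ≤ q)
    (ha : IsCoprime a (q : ℤ)) (h : q * |β| * Y ≤ 1 / 2) :
    ∑ h ∈ Ioo (-(Y : ℤ)) (Y : ℤ), ‖gs Y (((a : ℝ) / q + β) * h)‖ ≤
      Y + (4 * Y + 2 * q) * (1 + Real.log q) +
        4 * (1 + Real.log Y) * Y ^ 2 / (q * (1 + |β| * Y ^ 2 / 4)) := by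
  classical
  have h1 := multiples_sum (a := a) hY hq h
  have h2 := nonmultiples_sum hY hq ha h
  have h3 : ∑ x ∈ Ioo (-(Y : ℤ)) (Y : ℤ), ‖gs Y (((a : ℝ) / q + β) * x)‖ =
      ∑ x ∈ (Ioo (-(Y : ℤ)) (Y : ℤ)).filter (fun h => (q : ℤ) ∣ h),
        ‖gs Y (((a : ℝ) / q + β) * x)‖ +
      ∑ x ∈ (Ioo (-(Y : ℤ)) (Y : ℤ)).filter (fun h => ¬ (q : ℤ) ∣ h),
        ‖gs Y (((a : ℝ) / q + β) * x)‖ :=
    (Finset.sum_filter_add_sum_filter_not _ _ _).symm
  have h4 : (Ioo (-(Y : ℤ)) (Y : ℤ)).filter (fun h => (q : ℤ) ∣ h) ⊆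
      insert 0 ((Ioo (-(Y : ℤ)) (Y : ℤ)).filter (fun h => (q : ℤ) ∣ h ∧ h ≠ 0)) := by
    intro x hx
    obtain ⟨h5, h6⟩ := Finset.mem_filter.1 hx
    by_cases h7 : x = 0
    · rw [h7]
      exact Finset.mem_insert_self _ _
    · exact Finset.mem_insert_of_mem (Finset.mem_filter.2 ⟨h5, h6, h7⟩)
  have h5 : ∑ x ∈ (Ioo (-(Y : ℤ)) (Y : ℤ)).filter (fun h => (q : ℤ) ∣ h),
      ‖gs Y (((a : ℝ) / q + β) * x)‖ ≤ Y +
      ∑ x ∈ (Ioo (-(Y : ℤ)) (Y : ℤ)).filter (fun h => (q : ℤ) ∣ h ∧ h ≠ 0),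
        ‖gs Y (((a : ℝ) / q + β) * x)‖ := by
    refine (Finset.sum_le_sum_of_subset_of_nonneg h4 (fun i _ _ => norm_nonneg _)).trans ?_
    rw [Finset.sum_insert (by simp)]
    have := norm_gs_le Y (((a : ℝ) / q + β) * ((0 : ℤ) : ℝ))
    linarith
  rw [h3]
  linarith

end Pool.Agent.HadS
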