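import Pool.Agent.HadS.PS

/-! The average of `gcd(z, q)` over the products `z` of `k` elements of `Q`. -/

set_option autoImplicit false

namespace Pool.Agent.HadS

open Finset

/-- MODULE gc1. If `q < C ^ (n + 1)` and all elements of `Q` are primes `≥ C ≥ 1`, at most `n`
elements of `Q` divide `q`. -/
theorem card_dvd_le {Q : Finset ℕ} (hQ : ∀ q ∈ Q, q.Prime) {C : ℝ} (hC : 1 < C)
    (lb : ∀ q ∈ Q, C ≤ q) {q n : ℕ} (hq : 0 < q) (hqn : (q : ℝ) < C ^ (n + 1)) :
    (Q.filter (fun p => p ∣ q)).card ≤ n := by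
  by_contra hcon
  have h1 : n + 1 ≤ (Q.filter (fun p => p ∣ q)).card := by omega
  have h2 : (∏ p ∈ Q.filter (fun p => p ∣ q), p) ∣ q :=
    Finset.prod_primes_dvd q (fun p hp => (hQ p (Finset.mem_filter.1 hp).1).prime)
      (fun p hp => (Finset.mem_filter.1 hp).2)
  have h3 : ((∏ p ∈ Q.filter (fun p => p ∣ q), p : ℕ) : ℝ) ≤ q := by exact_mod_cast Nat.le_of_dvd hq h2
  have h4 : C ^ (Q.filter (fun p => p ∣ q)).card ≤ ((∏ p ∈ Q.filter (fun p => p ∣ q), p : ℕ) : ℝ) := by
    push_cast
    rw [← Finset.prod_const]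
    exact Finset.prod_le_prod (fun p _ => by linarith) fun p hp => lb p (Finset.mem_filter.1 hp).1
  have h5 : C ^ (n + 1) ≤ C ^ (Q.filter (fun p => p ∣ q)).card := pow_le_pow_right₀ hC.le h1
  linarith

private theorem gc2_bern (a d : ℝ) (ha : 0 ≤ a) (hd : 0 ≤ d) (n : ℕ) :
    a ^ (n + 1) + (n + 1) * (d * a ^ n) ≤ (a + d) ^ (n + 1) := by
  induction n with
  | zero => simp
  | succ n ih =>
    have h1 := mul_le_mul_of_nonneg_right ih (by linarith : 0 ≤ a + d)
    have h2 : 0 ≤ ((n : ℝ) + 1) * (d * a ^ n) * d := by positivity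
    push_cast
    calc a ^ (n + 1 + 1) + ((n : ℝ) + 1 + 1) * (d * a ^ (n + 1)) ≤
        (a ^ (n + 1) + (n + 1) * (d * a ^ n)) * (a + d) := by
          have h3 : (a ^ (n + 1) + (n + 1) * (d * a ^ n)) * (a + d) =
            a ^ (n + 1 + 1) + ((n : ℝ) + 1 + 1) * (d * a ^ (n + 1)) + ((n : ℝ) + 1) * (d * a ^ n) * d := by ring
          rw [h3]
          linarith
      _ ≤ (a + d) ^ (n + 1) * (a + d) := h1
      _ = (a + d) ^ (n + 1 + 1) := by ring

/-- MODULE gc2. Induction on `k` (for all `q`, `n`): with `W_q(k)` the average,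
`W_q(k) ≤ W_q(k - 1) + |Q|⁻¹ ∑_{π ∈ Q, π ∣ q} π W_{q / π}(k - 1)`
`≤ (1 + δ (k - 1)) ^ n + n δ (1 + δ (k - 1)) ^ (n - 1) ≤ (1 + δ k) ^ n` with `δ = 2 C / |Q|`;
note `gcd(π z, q) = gcd(z, q)` if `π ∤ q`, `= π gcd(z, q / π)` if `π ∣ q`, and
`q / π < C ^ n`. If `n = 0` no element of `Q` divides `q`. -/
theorem gcd_avg {Q : Finset ℕ} (hQ : ∀ q ∈ Q, q.Prime) {C : ℝ} (hC : 1 < C)
    (lb : ∀ q ∈ Q, C ≤ q) (ub : ∀ q ∈ Q, (q : ℝ) ≤ 2 * C) (k : ℕ) {q n : ℕ} (hq : 0 < q)
    (hqn : (q : ℝ) < C ^ (n + 1)) :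
    PS Q k (fun z => (Nat.gcd z q : ℝ)) ≤
      (Q.card : ℝ) ^ k * (1 + 2 * k * C / Q.card) ^ n := by
  induction k generalizing q n with
  | zero =>
    change (Nat.gcd 1 q : ℝ) ≤ _
    simp
  | succ k ih =>
    rcases Q.eq_empty_or_nonempty with hQ0 | hQ0
    · rw [hQ0]
      change (∑ q' ∈ (∅ : Finset ℕ), PS ∅ k (fun z => (Nat.gcd (q' * z) q : ℝ))) ≤ _
      simp
    · have hcard : (0 : ℝ) < Q.card := by exact_mod_cast Finset.card_pos.2 hQ0
      have hC0 : (0 : ℝ) < C := by linarith
      set d : ℝ := 2 * C / Q.card with hd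
      have hd0 : 0 ≤ d := by positivity
      have hdQ : d * Q.card = 2 * C := by
        rw [hd]
        field_simp
      set a : ℝ := 1 + 2 * k * C / Q.card with ha
      have ha0 : 0 ≤ a := by positivity
      have had : 1 + 2 * ((k + 1 : ℕ) : ℝ) * C / Q.card = a + d := by
        rw [ha, hd]
        push_cast
        ring
      rw [had]
      have hterm : ∀ p ∈ Q, PS Q k (fun z => (Nat.gcd (p * z) q : ℝ)) ≤
          (Q.card : ℝ) ^ k * a ^ n + (if p ∣ q then 2 * C * ((Q.card : ℝ) ^ k * a ^ (n - 1)) else 0) := by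
        intro p hp
        by_cases hpq : p ∣ q
        · rw [if_pos hpq]
          obtain ⟨q', rfl⟩ := hpq
          have hp0 : 0 < p := (hQ p hp).pos
          have hq' : 0 < q' := Nat.pos_of_mul_pos_left hq
          have hpC : C ≤ p := lb p hp
          have h1 : (q' : ℝ) < C ^ n := by
            rw [pow_succ] at hqn
            push_cast at hqn
            have h2 : C * (q' : ℝ) ≤ p * q' := mul_le_mul_of_nonneg_right hpC (Nat.cast_nonneg _)
            have h3 : C * (q' : ℝ) < C * C ^ n := by linarith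
            exact lt_of_mul_lt_mul_left h3 hC0.le
          rcases n with _ | n
          · exfalso
            rw [pow_zero] at h1
            have h2 : (1 : ℝ) ≤ q' := by exact_mod_cast hq'
            linarith
          · have h2 := ih hq' h1
            have h3 : PS Q k (fun z => (Nat.gcd (p * z) (p * q') : ℝ)) =
                p * PS Q k (fun z => (Nat.gcd z q' : ℝ)) := by
              rw [← PS_mul_left]
              refine PS_congr fun z _ => ?_
              rw [Nat.gcd_mul_left]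
              push_cast
              rfl
            rw [h3, Nat.add_sub_cancel]
            have h4 : (0 : ℝ) ≤ (Q.card : ℝ) ^ k * a ^ n := by positivity
            have h5 : (p : ℝ) * PS Q k (fun z => (Nat.gcd z q' : ℝ)) ≤ 2 * C * ((Q.card : ℝ) ^ k * a ^ n) := by
              refine (mul_le_mul_of_nonneg_left h2 (by positivity)).trans ?_
              exact mul_le_mul_of_nonneg_right (ub p hp) h4
            have h6 : (0 : ℝ) ≤ (Q.card : ℝ) ^ k * a ^ (n + 1) := by positivity
            linarith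
        · rw [if_neg hpq, add_zero]
          have h3 : PS Q k (fun z => (Nat.gcd (p * z) q : ℝ)) = PS Q k (fun z => (Nat.gcd z q : ℝ)) := by
            refine PS_congr fun z _ => ?_
            have h4 : Nat.Coprime p q := (Nat.Prime.coprime_iff_not_dvd (hQ p hp)).2 hpq
            rw [Nat.Coprime.gcd_mul_left_cancel z h4]
          rw [h3]
          exact ih hq hqn
      change (∑ p ∈ Q, PS Q k (fun z => (Nat.gcd (p * z) q : ℝ))) ≤ _
      refine (Finset.sum_le_sum hterm).trans ?_
      rw [Finset.sum_add_distrib, Finset.sum_const, nsmul_eq_mul, ← Finset.sum_filter, Finset.sum_const,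
        nsmul_eq_mul]
      have hcd : ((Q.filter (fun p => p ∣ q)).card : ℝ) ≤ n := by
        exact_mod_cast card_dvd_le hQ hC lb hq hqn
      rcases n with _ | n
      · have h0 : ((Q.filter (fun p => p ∣ q)).card : ℝ) = 0 := le_antisymm (by simpa using hcd) (Nat.cast_nonneg _)
        rw [h0, pow_zero, pow_zero]
        refine le_of_eq ?_
        ring
      · rw [Nat.add_sub_cancel]
        have h1 := gc2_bern a d ha0 hd0 n
        have h2 : ((Q.filter (fun p => p ∣ q)).card : ℝ) * (2 * C * ((Q.card : ℝ) ^ k * a ^ n)) ≤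
            ((n : ℝ) + 1) * (2 * C * ((Q.card : ℝ) ^ k * a ^ n)) := by
          refine mul_le_mul_of_nonneg_right ?_ (by positivity)
          push_cast at hcd
          exact hcd
        have h3 : (0 : ℝ) ≤ (Q.card : ℝ) ^ (k + 1) := by positivity
        have h4 := mul_le_mul_of_nonneg_left h1 h3
        calc _ ≤ (Q.card : ℝ) * ((Q.card : ℝ) ^ k * a ^ (n + 1)) +
              ((n : ℝ) + 1) * (2 * C * ((Q.card : ℝ) ^ k * a ^ n)) := by linarith
          _ = (Q.card : ℝ) ^ (k + 1) * (a ^ (n + 1) + (n + 1) * (d * a ^ n)) := by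
            rw [← hdQ]
            ring
          _ ≤ _ := h4

end Pool.Agent.HadS
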