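import Pool.Agent.HadS.Arc

/-! The size of the image of `(p₁, …, p₅, c, r) ↦ p₁ + … + p₅ + 2 ^ e c + r`. -/

set_option autoImplicit false

namespace Pool.Agent.HadS

open Finset

private theorem im1_orth {M : ℕ} (hM : 0 < M) (x : ℤ) (hx : |x| < M) :
    ∑ a ∈ range M, ee ((a : ℝ) / M * x) = if x = 0 then (M : ℂ) else 0 := by
  have hM0 : (M : ℝ) ≠ 0 := by exact_mod_cast hM.ne'
  by_cases h0 : x = 0
  · rw [if_pos h0, h0]
    have h1 : ∀ a ∈ range M, ee ((a : ℝ) / M * ((0 : ℤ) : ℝ)) = 1 := by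
      intro a _
      rw [Int.cast_zero, mul_zero, ee_zero]
    rw [Finset.sum_congr rfl h1]
    simp
  · rw [if_neg h0]
    have h1 : ∀ a ∈ range M, ee ((a : ℝ) / M * x) = ee ((x : ℝ) / M) ^ a := by
      intro a _
      rw [← ee_mul_nat]
      congr 1
      ring
    rw [Finset.sum_congr rfl h1]
    have h2 := geom_sum_mul (ee ((x : ℝ) / M)) M
    have h3 : ee ((x : ℝ) / M) ^ M = 1 := by
      rw [← ee_mul_nat, div_mul_cancel₀ _ hM0]
      have h4 := ee_int 0 x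
      rw [zero_add, ee_zero] at h4
      exact h4
    rw [h3, sub_self] at h2
    rcases mul_eq_zero.1 h2 with h4 | h4
    · exact h4
    · exfalso
      have hnd : ¬ (M : ℤ) ∣ x := by
        intro hd
        have h5 := Int.le_of_dvd (abs_pos.2 h0) ((dvd_abs _ _).2 hd)
        exact absurd h5 (not_le.2 hx)
      have h5 := nint_div hM hnd
      have h6 := ee_sub_one ((x : ℝ) / M)
      rw [h4, norm_zero] at h6
      have h7 : (0 : ℝ) < 1 / M := by positivity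
      linarith

private theorem im1_parseval {ι : Type} [Fintype ι] (f : ι → ℕ) {M : ℕ} (hM : 0 < M) (hf : ∀ i, f i < M) :
    ∑ a ∈ range M, ‖∑ i, ee ((a : ℝ) / M * f i)‖ ^ 2 = M * ∑ i, ∑ j, (if f i = f j then (1 : ℝ) else 0) := by
  have h1 : ((∑ a ∈ range M, ‖∑ i, ee ((a : ℝ) / M * f i)‖ ^ 2 : ℝ) : ℂ) =
      ((M * ∑ i, ∑ j, (if f i = f j then (1 : ℝ) else 0) : ℝ) : ℂ) := by
    push_cast
    have h2 : ∀ a ∈ range M, (‖∑ i, ee ((a : ℝ) / M * f i)‖ : ℂ) ^ 2 =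
        ∑ i, ∑ j, ee ((a : ℝ) / M * (((f i : ℤ) - f j : ℤ) : ℝ)) := by
      intro a _
      rw [← Complex.mul_conj', map_sum, Finset.sum_mul_sum]
      refine Finset.sum_congr rfl fun i _ => Finset.sum_congr rfl fun j _ => ?_
      rw [ee_conj, ← ee_add]
      congr 1
      push_cast
      ring
    rw [Finset.sum_congr rfl h2, Finset.sum_comm, Finset.mul_sum]
    refine Finset.sum_congr rfl fun i _ => ?_
    rw [Finset.sum_comm, Finset.mul_sum]
    refine Finset.sum_congr rfl fun j _ => ?_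
    have hi := hf i
    have hj := hf j
    rw [im1_orth hM _ (by rw [abs_lt]; constructor <;> omega)]
    by_cases hij : f i = f j
    · rw [if_pos hij, if_pos (by rw [hij, sub_self])]
      simp
    · rw [if_neg hij, if_neg (by
        intro h3
        exact hij (by omega))]
      simp
  exact_mod_cast h1

private theorem im1_cs {ι : Type} [Fintype ι] (f : ι → ℕ) :
    (Fintype.card ι : ℝ) ^ 2 ≤ ((univ.image f).card : ℝ) * ∑ i, ∑ j, (if f i = f j then (1 : ℝ) else 0) := by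
  classical
  have h1 : (Fintype.card ι : ℝ) = ∑ n ∈ univ.image f, ((univ.filter (fun i => f i = n)).card : ℝ) := by
    have h2 := Finset.card_eq_sum_card_image f (univ : Finset ι)
    rw [Finset.card_univ] at h2
    rw [h2]
    push_cast
    rfl
  have h2 : ∑ i, ∑ j, (if f i = f j then (1 : ℝ) else 0) =
      ∑ n ∈ univ.image f, ((univ.filter (fun i => f i = n)).card : ℝ) ^ 2 := by
    have h3 : ∀ i ∈ (univ : Finset ι), ∑ j, (if f i = f j then (1 : ℝ) else 0) =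
        (fun n => ((univ.filter (fun j => f j = n)).card : ℝ)) (f i) := by
      intro i _
      beta_reduce
      rw [Finset.sum_boole]
      congr 2
      ext j
      simp only [Finset.mem_filter, Finset.mem_univ, true_and]
      exact eq_comm
    have h4 := Finset.sum_comp (s := (univ : Finset ι))
      (fun n => ((univ.filter (fun j => f j = n)).card : ℝ)) f
    rw [Finset.sum_congr rfl h3, h4]
    refine Finset.sum_congr rfl fun n _ => ?_
    rw [nsmul_eq_mul, sq]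
  rw [h1, h2]
  exact sq_sum_le_card_mul_sum_sq

/-- MODULE im1. Parseval modulo `M`: with `ν(n) = #{i | f i = n}` the left side of `hB` is
`M ∑_n ν(n)²` (orthogonality: `∑_{a < M} e(a m / M)` is `M` if `M ∣ m` and `0` otherwise), and
`(∑_n ν(n))² ≤ |image| ∑_n ν(n)²`. -/
theorem img_general {ι : Type} [Fintype ι] [Nonempty ι] (f : ι → ℕ) {M : ℕ} (hM : 0 < M)
    (hf : ∀ i, f i < M) {B : ℝ}
    (hB : ∑ a ∈ range M, ‖∑ i, ee ((a : ℝ) / M * f i)‖ ^ 2 ≤ B * (Fintype.card ι : ℝ) ^ 2) :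
    (M : ℝ) ≤ B * ((univ.image f).card : ℝ) := by
  classical
  have h1 := im1_parseval f hM hf
  have h2 := im1_cs f
  rw [h1] at hB
  set S := ∑ i, ∑ j, (if f i = f j then (1 : ℝ) else 0) with hS
  have hc : (0 : ℝ) < (Fintype.card ι : ℝ) ^ 2 := by
    have : 0 < Fintype.card ι := Fintype.card_pos
    positivity
  have hM0 : (0 : ℝ) ≤ M := Nat.cast_nonneg M
  have hI0 : (0 : ℝ) ≤ ((univ.image f).card : ℝ) := Nat.cast_nonneg _
  have h3 : (M : ℝ) * (Fintype.card ι : ℝ) ^ 2 ≤ (B * ((univ.image f).card : ℝ)) * (Fintype.card ι : ℝ) ^ 2 := by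
    calc (M : ℝ) * (Fintype.card ι : ℝ) ^ 2 ≤ M * (((univ.image f).card : ℝ) * S) :=
          mul_le_mul_of_nonneg_left h2 hM0
      _ = ((univ.image f).card : ℝ) * (M * S) := by ring
      _ ≤ ((univ.image f).card : ℝ) * (B * (Fintype.card ι : ℝ) ^ 2) := mul_le_mul_of_nonneg_left hB hI0
      _ = _ := by ring
  exact le_of_mul_le_mul_right h3 hc

private theorem im2_prod (θ : ℝ) {n : ℕ} (g : Fin n → ℕ) :
    ee (θ * ((∑ j, g j : ℕ) : ℝ)) = ∏ j, ee (θ * (g j : ℝ)) := by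
  induction n with
  | zero => simp [ee_zero]
  | succ n ih =>
    rw [Fin.sum_univ_succ, Fin.prod_univ_succ, ← ih, ← ee_add]
    congr 1
    push_cast
    ring

/-- MODULE im2. The exponential sum factors (`PS_eq_sum`, `Finset.prod_univ_sum` or
`Finset.sum_pow`/`Fintype.sum_pow`, `Fintype.sum_prod_type`). -/
theorem exp_factor (Q : Finset ℕ) (k e U R : ℕ) (θ : ℝ) :
    ∑ i : (Fin 5 → (Fin k → Q)) × Fin U × Fin R,
      ee (θ * ((∑ j, ∏ s, ((i.1 j s : ℕ)) + 2 ^ e * (i.2.1 : ℕ) + (i.2.2 : ℕ) : ℕ) : ℝ)) =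
      (PS Q k (fun n => ee (θ * n))) ^ 5 * gs U (2 ^ e * θ) * gs R θ := by
  have hterm : ∀ i : (Fin 5 → (Fin k → Q)) × Fin U × Fin R,
      ee (θ * ((∑ j, ∏ s, ((i.1 j s : ℕ)) + 2 ^ e * (i.2.1 : ℕ) + (i.2.2 : ℕ) : ℕ) : ℝ)) =
      (∏ j, ee (θ * ((∏ s, (i.1 j s : ℕ) : ℕ) : ℝ))) * (ee (2 ^ e * θ * ((i.2.1 : ℕ) : ℝ)) *
        ee (θ * ((i.2.2 : ℕ) : ℝ))) := by
    intro i
    rw [← im2_prod, ← ee_add, ← ee_add]
    congr 1
    push_cast
    ring
  rw [Finset.sum_congr rfl fun i _ => hterm i, Fintype.sum_prod_type]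
  have h1 : ∀ x : Fin 5 → (Fin k → Q), ∑ y : Fin U × Fin R,
      (∏ j, ee (θ * ((∏ s, (x j s : ℕ) : ℕ) : ℝ))) * (ee (2 ^ e * θ * ((y.1 : ℕ) : ℝ)) *
        ee (θ * ((y.2 : ℕ) : ℝ))) =
      (∏ j, ee (θ * ((∏ s, (x j s : ℕ) : ℕ) : ℝ))) * (gs U (2 ^ e * θ) * gs R θ) := by
    intro x
    rw [← Finset.mul_sum]
    congr 1
    rw [Fintype.sum_prod_type]
    unfold gs
    rw [Finset.sum_mul_sum, Finset.sum_range]
    refine Finset.sum_congr rfl fun c _ => ?_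
    rw [Finset.sum_range]
  rw [Finset.sum_congr rfl fun x _ => h1 x, ← Finset.sum_mul, PS_eq_sum, Fintype.sum_pow]
  ring

/-- MODULE im3. From `arc`, `img_general`, `exp_factor`; all the sums are `< 12 C ^ k ≤ M` as
`p_j ≤ 2 C ^ k` (`Pd_bounds`), `2 ^ e c < 2 ^ e U ≤ C ^ k`, `r < R ≤ C ^ k`. -/
theorem img {L : ℕ} {Q : Finset ℕ} {C lam : ℝ} (h : Cls L Q C lam) {k M e U R : ℕ}
    (hk : 61 ≤ k) (hkL : k ≤ L) (hM1 : 12 * C ^ k ≤ M) (hM : (M : ℝ) ≤ 13 * C ^ k)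
    (hU : 2 * C ^ 30 ≤ U) (hU1 : C ^ k ≤ 2 * (2 ^ e * U)) (hU2 : (2 : ℝ) ^ e * U ≤ C ^ k)
    (hR : 7 * C ^ 60 ≤ R) (hR2 : (R : ℝ) ≤ C ^ k) :
    ∃ I : Finset ℕ, (M : ℝ) ≤ 400 * (I.card : ℝ) ∧ ∀ m ∈ I, 0 < m ∧ m < M ∧
      ∃ p : Fin 5 → ℕ, (∀ i, Pd Q k (p i)) ∧ ∃ c < U, ∃ r < R, m = ∑ i, p i + 2 ^ e * c + r := by
  have hC1 : (16 : ℝ) ≤ C := h.C1
  have hCk : (0 : ℝ) < C ^ k := by positivity
  have hC30 : (0 : ℝ) < C ^ 30 := by positivity
  have hC60 : (0 : ℝ) < C ^ 60 := by positivity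
  have hM0 : 0 < M := by
    have : (0 : ℝ) < M := by linarith
    exact_mod_cast this
  have hU0 : 0 < U := by
    have : (0 : ℝ) < U := by linarith
    exact_mod_cast this
  have hR0 : 0 < R := by
    have : (0 : ℝ) < R := by linarith
    exact_mod_cast this
  have hQ0 : 0 < Q.card := by
    have h1 : (0 : ℝ) < L * C := by
      have : (1 : ℝ) ≤ L := by exact_mod_cast h.L1
      nlinarith
    have h2 := h.card
    have h3 := h.lam1
    by_contra h4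
    have h5 : Q.card = 0 := by omega
    rw [h5] at h2
    simp at h2
    linarith
  haveI : Nonempty Q := (card_pos.1 hQ0).to_subtype
  haveI : Nonempty (Fin U) := ⟨⟨0, hU0⟩⟩
  haveI : Nonempty (Fin R) := ⟨⟨0, hR0⟩⟩
  have hPd : ∀ (v : Fin k → Q), Pd Q k (∏ s, (v s : ℕ)) := fun v => (Pd_iff Q k _).2 ⟨v, rfl⟩
  set f : (Fin 5 → (Fin k → Q)) × Fin U × Fin R → ℕ :=
    fun i => ∑ j, ∏ s, ((i.1 j s : ℕ)) + 2 ^ e * (i.2.1 : ℕ) + (i.2.2 : ℕ) with hf
  have hfM : ∀ i, f i < M := by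
    intro i
    have h1 : ∀ j, ((∏ s, ((i.1 j s : ℕ)) : ℕ) : ℝ) ≤ 2 * C ^ k := fun j =>
      (Pd_bounds h hkL (hPd (i.1 j))).2
    have h2 : ((∑ j, ∏ s, ((i.1 j s : ℕ)) : ℕ) : ℝ) ≤ 10 * C ^ k := by
      rw [Nat.cast_sum]
      calc ∑ j : Fin 5, ((∏ s, ((i.1 j s : ℕ)) : ℕ) : ℝ) ≤ ∑ _j : Fin 5, 2 * C ^ k :=
            sum_le_sum fun j _ => h1 j
        _ = 10 * C ^ k := by
            rw [sum_const, card_univ, Fintype.card_fin]
            ring
    have h3 : (2 : ℝ) ^ e * ((i.2.1 : ℕ) : ℝ) ≤ C ^ k := by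
      have h4 : ((i.2.1 : ℕ) : ℝ) ≤ U := by exact_mod_cast i.2.1.2.le
      have h5 : (2 : ℝ) ^ e * ((i.2.1 : ℕ) : ℝ) ≤ 2 ^ e * U :=
        mul_le_mul_of_nonneg_left h4 (by positivity)
      linarith
    have h6 : ((i.2.2 : ℕ) : ℝ) < R := by exact_mod_cast i.2.2.2
    have h7 : ((f i : ℕ) : ℝ) < M := by
      rw [hf]
      push_cast at h2 ⊢
      linarith
    exact_mod_cast h7
  have hcard : (Fintype.card ((Fin 5 → (Fin k → Q)) × Fin U × Fin R) : ℝ) =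
      ((Q.card : ℝ) ^ k) ^ 5 * (U * R) := by
    rw [Fintype.card_prod, Fintype.card_prod, Fintype.card_fin, Fintype.card_fin,
      Fintype.card_fun, Fintype.card_fun, Fintype.card_fin, Fintype.card_fin, Fintype.card_coe]
    push_cast
    ring
  have hB : ∑ a ∈ range M, ‖∑ i, ee ((a : ℝ) / M * f i)‖ ^ 2 ≤
      400 * (Fintype.card ((Fin 5 → (Fin k → Q)) × Fin U × Fin R) : ℝ) ^ 2 := by
    have h1 := arc h hk hkL hM0 hM hU hU1 hU2 hR
    have h2 : ∀ a ∈ range M, ‖∑ i, ee ((a : ℝ) / M * f i)‖ ^ 2 =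
        (‖Sk Q k ((a : ℝ) / M)‖ ^ 10 * ‖gs U (2 ^ e * ((a : ℝ) / M)) / U‖ ^ 2 *
          ‖gs R ((a : ℝ) / M) / R‖ ^ 2) *
          (Fintype.card ((Fin 5 → (Fin k → Q)) × Fin U × Fin R) : ℝ) ^ 2 := by
      intro a _
      have h3 := exp_factor Q k e U R ((a : ℝ) / M)
      have hQk : (0 : ℝ) < (Q.card : ℝ) ^ k := by
        have : (0 : ℝ) < Q.card := by exact_mod_cast hQ0
        positivity
      have hU' : (0 : ℝ) < U := by exact_mod_cast hU0
      have hR' : (0 : ℝ) < R := by exact_mod_cast hR0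
      rw [hf]
      dsimp only
      rw [h3, hcard, Sk, norm_mul, norm_mul, norm_pow, norm_div, norm_div, norm_div, norm_pow,
        Complex.norm_natCast, Complex.norm_natCast, Complex.norm_natCast]
      field_simp
    rw [sum_congr rfl h2, ← sum_mul]
    exact mul_le_mul_of_nonneg_right h1 (by positivity)
  refine ⟨univ.image f, img_general f hM0 hfM hB, ?_⟩
  intro m hm
  obtain ⟨i, -, rfl⟩ := mem_image.1 hm
  refine ⟨?_, hfM i, fun j => ∏ s, ((i.1 j s : ℕ)), fun j => hPd _, i.2.1, i.2.1.2, i.2.2,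
    i.2.2.2, rfl⟩
  have h1 : 0 < ∏ s, ((i.1 0 s : ℕ)) := Pd_pos h.prime (hPd _)
  have h2 : ∏ s, ((i.1 0 s : ℕ)) ≤ ∑ j, ∏ s, ((i.1 j s : ℕ)) :=
    single_le_sum (f := fun j => ∏ s, ((i.1 j s : ℕ))) (fun _ _ => Nat.zero_le _) (mem_univ 0)
  rw [hf]
  dsimp only
  omega

end Pool.Agent.HadS
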