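import Pool.Agent.HadS.Two

/-! The recursion with the iterated logarithm. -/

set_option autoImplicit false

namespace Pool.Agent.HadS

open Pool.Agent.HadL

/-- MODULE st1 -/
theorem lstar_succ (n : ℕ) (hn : 0 < n) : lstar n = 1 + lstar (Nat.log 2 n) := by
  obtain ⟨m, rfl⟩ : ∃ m, n = m + 1 := ⟨n - 1, by omega⟩
  rw [lstar]

/-- MODULE st1 -/
theorem lstar_mono : Monotone lstar := by
  have h : ∀ n m : ℕ, m ≤ n → lstar m ≤ lstar n := by
    intro n
    induction n using Nat.strong_induction_on with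
    | _ n ih =>
      intro m hm
      rcases Nat.eq_zero_or_pos m with rfl | hm0
      · rw [lstar]; exact Nat.zero_le _
      · have hn0 : 0 < n := by omega
        rw [lstar_succ m hm0, lstar_succ n hn0]
        exact Nat.add_le_add_left
          (ih _ (Nat.log_lt_self 2 hn0.ne') _ (Nat.log_mono_right hm)) 1
  intro m n hmn
  exact h n m hmn

private theorem st1_log_mul (A x : ℕ) : Nat.log 2 (A * x) ≤ Nat.log 2 A + Nat.log 2 x + 1 := by
  rcases Nat.eq_zero_or_pos (A * x) with h | h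
  · rw [h]; simp
  · have hA : 0 < A := Nat.pos_of_mul_pos_right h
    have hx : 0 < x := Nat.pos_of_mul_pos_left h
    have h1 := Nat.lt_pow_succ_log_self (b := 2) (by norm_num) A
    have h2 := Nat.lt_pow_succ_log_self (b := 2) (by norm_num) x
    have h3 : A * x < 2 ^ (Nat.log 2 A + Nat.log 2 x + 1 + 1) := by
      calc A * x < 2 ^ (Nat.log 2 A).succ * 2 ^ (Nat.log 2 x).succ :=
            Nat.mul_lt_mul'' h1 h2
        _ = _ := by rw [← pow_add]; congr 1; omega
    exact Nat.le_of_lt_succ (Nat.log_lt_of_lt_pow h.ne' h3)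

/-- MODULE st1 -/
theorem growth (A : ℕ) : ∃ L₀ : ℕ, 1 ≤ L₀ ∧ ∀ L, L₀ ≤ L →
    A * (Nat.log 2 (A * (Nat.log 2 L + 1)) + 1) ≤ Nat.log 2 L := by
  refine ⟨2 ^ (2 ^ (2 * A + Nat.log 2 A + 8)), Nat.one_le_two_pow, ?_⟩
  intro L hL
  set l := Nat.log 2 L with hl
  have h1 : 2 ^ (2 * A + Nat.log 2 A + 8) ≤ l :=
    Nat.le_log_of_pow_le (by norm_num) hL
  have h0 : 0 < l := lt_of_lt_of_le (by positivity) h1
  -- `s = Nat.log 2 (l + 1)`
  have h2 := st1_log_mul A (l + 1)
  set s := Nat.log 2 (l + 1) with hs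
  have h3 : 2 ^ s ≤ l + 1 := Nat.pow_log_le_self 2 (by omega)
  have h4 : 2 * A + Nat.log 2 A + 8 ≤ s :=
    Nat.le_log_of_pow_le (by norm_num) (h1.trans (Nat.le_succ _))
  -- `2 ^ s ≥ s ^ 2 + 1`
  have h5 : ∀ t : ℕ, 8 ≤ t → t * t + 1 ≤ 2 ^ t := by
    intro t ht
    induction t, ht using Nat.le_induction with
    | base => norm_num
    | succ t ht ih => rw [pow_succ]; nlinarith
  have h6 := h5 s (by omega)
  have h7 : A * (Nat.log 2 (A * (l + 1)) + 1) ≤ A * (2 * s) :=
    Nat.mul_le_mul_left _ (by omega)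
  have h8 : A * (2 * s) ≤ s * s := by nlinarith
  omega

/-- MODULE st1 (by `base`, `succ`). -/
theorem small {P : ℕ → ℕ → Prop} (R : Rules P) (n : ℕ) (hn : 0 < n) : P (2 * n) n := by
  induction n, hn using Nat.le_induction with
  | base => exact R.mono (by norm_num) R.base
  | succ n hn ih => exact R.succ (by omega) ih

/-- MODULE st2. `K' ≥ 4 K²` and `K' ≥ 2 ^ (L₀ + 2)` with `L₀` from `growth A`. By strong induction
on `L`: `Rg P (K' ^ (lstar L + 1)) L`: for `L < L₀` by `small`; otherwise with `l = Nat.log 2 L`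
one has `Rg P w l`, `w = K' ^ (lstar l + 1)`, hence `Rg P (K (w + 1)) (A (log₂ L + 1))` and
`Rg P (K (K (w + 1) + 1)) L`, and `K (K (w + 1) + 1) ≤ 4 K² w ≤ K' w = K' ^ (lstar L + 1)`. Finally
`n < 2 ^ (Nat.log 2 n + 1)` and `lstar (Nat.log 2 n + 1) ≤ lstar n`. -/
theorem star {P : ℕ → ℕ → Prop} (R : Rules P) {A K : ℕ} (hA : 1 ≤ A) (hK : 1 ≤ K)
    (h : ∀ w L : ℕ, 1 ≤ w → 1 ≤ L → Rg P w (A * (Nat.log 2 L + 1)) → Rg P (K * (w + 1)) L) :
    ∃ K' : ℕ, ∀ n, 0 < n → P (K' ^ (lstar n + 1)) n := by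
  obtain ⟨L₀, hL₀, hg⟩ := growth A
  refine ⟨4 * K ^ 2 + 2 ^ (L₀ + 2), ?_⟩
  set K' := 4 * K ^ 2 + 2 ^ (L₀ + 2) with hK'
  have hK'1 : 1 ≤ K' := by
    have : 0 < 2 ^ (L₀ + 2) := by positivity
    omega
  have key : ∀ L : ℕ, Rg P (K' ^ (lstar L + 1)) L := by
    intro L
    induction L using Nat.strong_induction_on with
    | _ L ih =>
      rcases lt_or_ge L L₀ with hL | hL
      · intro n hn hn2
        refine R.mono ?_ (small R n hn)
        have h1 : 2 ^ L ≤ 2 ^ L₀ := Nat.pow_le_pow_right (by norm_num) hL.le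
        have h2 : 2 ^ (L₀ + 2) = 4 * 2 ^ L₀ := by ring
        have h3 : K' ≤ K' ^ (lstar L + 1) := by
          rw [pow_succ]
          exact Nat.le_mul_of_pos_left _ (Nat.pow_pos hK'1)
        omega
      · have hL0 : 0 < L := by omega
        have hl := ih (Nat.log 2 L) (Nat.log_lt_self 2 hL0.ne')
        rw [lstar_succ L hL0]
        set w := K' ^ (lstar (Nat.log 2 L) + 1) with hw
        have hw1 : 1 ≤ w := Nat.one_le_pow _ _ hK'1
        have h1 : Rg P w (A * (Nat.log 2 (A * (Nat.log 2 L + 1)) + 1)) := by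
          intro n hn hn2
          exact hl n hn (hn2.trans_le (Nat.pow_le_pow_right (by norm_num) (hg L hL)))
        have h2 := h w (A * (Nat.log 2 L + 1)) hw1
          (Nat.mul_pos hA (Nat.succ_pos _)) h1
        have h3 := h (K * (w + 1)) L (Nat.mul_pos hK (Nat.succ_pos _)) (by omega) h2
        intro n hn hn2
        refine R.mono ?_ (h3 n hn hn2)
        have h4 : K' ^ (1 + lstar (Nat.log 2 L) + 1) = K' * w := by
          rw [hw, ← pow_succ']
          congr 1
          omega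
        rw [h4]
        have h5 : K * (K * (w + 1) + 1) ≤ 4 * K ^ 2 * w := by nlinarith [Nat.mul_le_mul hK hw1, Nat.mul_le_mul (Nat.mul_le_mul hK hK) hw1, Nat.mul_le_mul hK hK]
        have h6 : 4 * K ^ 2 * w ≤ K' * w := Nat.mul_le_mul_right _ (Nat.le_add_right _ _)
        exact h5.trans h6
  intro n hn
  have h1 := key (Nat.log 2 n + 1) n hn (Nat.lt_pow_succ_log_self (by norm_num) n)
  refine R.mono (Nat.pow_le_pow_right hK'1 (Nat.add_le_add_right (lstar_mono ?_) 1)) h1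
  exact Nat.log_lt_self 2 hn.ne'

end Pool.Agent.HadS
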