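import Pool.Agent.HadL.Had
import Pool.Agent.HadL.RulesP
import Pool.Agent.HadS.Star

set_option autoImplicit false

namespace Pool.Agent.HadS

open Matrix Pool.Agent.HadAP Pool.Agent.HadL

theorem main : ∃ K : ℕ, ∀ n : ℕ, 0 < n → ∀ t : ℕ, K ^ (lstar n + 1) ≤ t → IsHad (2 ^ t * n) := by
  obtain ⟨A, K, hA, hK, h⟩ := two_steps
  obtain ⟨K', hK'⟩ := star rules_P hA hK (h _ rules_P)
  refine ⟨K' + 2, fun n hn t ht => ?_⟩
  have h1 : K' ^ (lstar n + 1) + 1 ≤ (K' + 2) ^ (lstar n + 1) := by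
    have h2 : K' ^ (lstar n + 1) < (K' + 2) ^ (lstar n + 1) :=
      Nat.pow_lt_pow_left (by omega) (by omega)
    exact h2
  obtain ⟨m, rfl⟩ : ∃ m, t = m + 1 := ⟨t - 1, by omega⟩
  have h2 := rules_P.mono (by omega) (hK' n hn) (m' := m)
  have h3 := HasD.isHad hn h2
  have h4 : 2 ^ (m + 1) * n = 2 ^ m * (2 * n) := by ring
  rw [h4]
  exact h3

end Pool.Agent.HadS
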