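import Pool.Agent.HadS.Defs

/-! Sums over products of `k` elements of `Q`: elementary properties (all by induction on `k`). -/

set_option autoImplicit false

namespace Pool.Agent.HadS

open Finset

/-- MODULE ps1 -/
theorem PS_congr {V : Type} [AddCommMonoid V] {Q : Finset ℕ} {k : ℕ} {F G : ℕ → V}
    (h : ∀ n, Pd Q k n → F n = G n) : PS Q k F = PS Q k G := by
  induction k generalizing F G with
  | zero => exact h 1 rfl
  | succ k ih =>
    change ∑ q ∈ Q, PS Q k (fun n => F (q * n)) = ∑ q ∈ Q, PS Q k (fun n => G (q * n))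
    exact Finset.sum_congr rfl fun q hq => ih fun m hm => h (q * m) ⟨q, hq, m, hm, rfl⟩

/-- MODULE ps1 -/
theorem PS_mono {Q : Finset ℕ} {k : ℕ} {F G : ℕ → ℝ}
    (h : ∀ n, Pd Q k n → F n ≤ G n) : PS Q k F ≤ PS Q k G := by
  induction k generalizing F G with
  | zero => exact h 1 rfl
  | succ k ih =>
    change ∑ q ∈ Q, PS Q k (fun n => F (q * n)) ≤ ∑ q ∈ Q, PS Q k (fun n => G (q * n))
    exact Finset.sum_le_sum fun q hq => ih fun m hm => h (q * m) ⟨q, hq, m, hm, rfl⟩

/-- MODULE ps1 -/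
theorem PS_mul_left {V : Type} [Semiring V] (Q : Finset ℕ) (k : ℕ) (c : V) (F : ℕ → V) :
    PS Q k (fun n => c * F n) = c * PS Q k F := by
  induction k generalizing F with
  | zero => rfl
  | succ k ih =>
    change ∑ q ∈ Q, PS Q k (fun n => c * F (q * n)) = c * ∑ q ∈ Q, PS Q k (fun n => F (q * n))
    rw [Finset.mul_sum]
    exact Finset.sum_congr rfl fun q _ => ih fun n => F (q * n)

/-- MODULE ps1 -/
theorem PS_const {V : Type} [Semiring V] (Q : Finset ℕ) (k : ℕ) (c : V) :
    PS Q k (fun _ => c) = (Q.card : V) ^ k * c := by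
  induction k with
  | zero =>
    rw [pow_zero, one_mul]
    rfl
  | succ k ih =>
    change ∑ q ∈ Q, PS Q k (fun _ => c) = (Q.card : V) ^ (k + 1) * c
    rw [Finset.sum_congr rfl fun q _ => ih, Finset.sum_const, nsmul_eq_mul, ← mul_assoc, ← pow_succ']

/-- MODULE ps1 -/
theorem PS_sum {V : Type} [AddCommMonoid V] (Q : Finset ℕ) (k : ℕ) {ι : Type} (s : Finset ι)
    (F : ι → ℕ → V) : PS Q k (fun n => ∑ i ∈ s, F i n) = ∑ i ∈ s, PS Q k (F i) := by
  induction k generalizing F with
  | zero => rfl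
  | succ k ih =>
    change ∑ q ∈ Q, PS Q k (fun n => ∑ i ∈ s, F i (q * n)) = ∑ i ∈ s, ∑ q ∈ Q, PS Q k (fun n => F i (q * n))
    rw [Finset.sum_comm]
    exact Finset.sum_congr rfl fun q _ => ih fun i n => F i (q * n)

/-- MODULE ps1 -/
theorem PS_split {V : Type} [AddCommMonoid V] (Q : Finset ℕ) (j k : ℕ) (F : ℕ → V) :
    PS Q (j + k) F = PS Q j (fun x => PS Q k (fun y => F (x * y))) := by
  induction j generalizing F with
  | zero =>
    rw [Nat.zero_add]
    change PS Q k F = PS Q k (fun y => F (1 * y))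
    simp only [one_mul]
  | succ j ih =>
    rw [Nat.succ_add]
    change ∑ q ∈ Q, PS Q (j + k) (fun n => F (q * n)) =
      ∑ q ∈ Q, PS Q j (fun x => PS Q k (fun y => F (q * x * y)))
    refine Finset.sum_congr rfl fun q _ => ?_
    rw [ih fun n => F (q * n)]
    simp only [mul_assoc]

/-- MODULE ps1 -/
theorem norm_PS_le (Q : Finset ℕ) (k : ℕ) (F : ℕ → ℂ) :
    ‖PS Q k F‖ ≤ PS Q k (fun n => ‖F n‖) := by
  induction k generalizing F with
  | zero => exact le_rfl
  | succ k ih =>
    change ‖∑ q ∈ Q, PS Q k (fun n => F (q * n))‖ ≤ ∑ q ∈ Q, PS Q k (fun n => ‖F (q * n)‖)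
    exact (norm_sum_le _ _).trans (Finset.sum_le_sum fun q _ => ih fun n => F (q * n))

/-- MODULE ps2. Any additive map commutes with `PS` (used for `ℝ → ℂ`, conjugation, `ℕ → ℝ`). -/
theorem PS_map {V W : Type} [AddCommMonoid V] [AddCommMonoid W] (g : V →+ W) (Q : Finset ℕ)
    (k : ℕ) (F : ℕ → V) : g (PS Q k F) = PS Q k (fun n => g (F n)) := by
  induction k generalizing F with
  | zero => rfl
  | succ k ih =>
    change g (∑ q ∈ Q, PS Q k (fun n => F (q * n))) = ∑ q ∈ Q, PS Q k (fun n => g (F (q * n)))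
    rw [map_sum]
    exact Finset.sum_congr rfl fun q _ => ih fun n => F (q * n)

private theorem ps2_eq_sum {V : Type} [AddCommMonoid V] (Q : Finset ℕ) (k : ℕ) (F : ℕ → V) :
    PS Q k F = ∑ v : Fin k → Q, F (∏ i, (v i : ℕ)) := by
  induction k generalizing F with
  | zero =>
    change F 1 = _
    rw [Fintype.sum_unique]
    simp
  | succ k ih =>
    change ∑ q ∈ Q, PS Q k (fun n => F (q * n)) = _
    rw [← Finset.sum_coe_sort, ← (Fin.consEquiv (fun _ : Fin (k + 1) => (Q : Type))).sum_comp,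
      Fintype.sum_prod_type]
    refine Finset.sum_congr rfl fun q _ => ?_
    rw [ih fun n => F (q * n)]
    refine Finset.sum_congr rfl fun v _ => ?_
    rw [Fin.prod_univ_succ]
    rfl

/-- MODULE ps2. Cauchy-Schwarz (from `PS_eq_sum`, or by induction with
`inner_mul_le_norm_mul_norm` / `sq_sum_le_card_mul_sum_sq`). -/
theorem PS_cs (Q : Finset ℕ) (k : ℕ) (F : ℕ → ℝ) :
    (PS Q k F) ^ 2 ≤ (Q.card : ℝ) ^ k * PS Q k (fun n => F n ^ 2) := by
  rw [ps2_eq_sum, ps2_eq_sum]
  have h1 := sq_sum_le_card_mul_sum_sq (s := (univ : Finset (Fin k → Q))) (f := fun v => F (∏ i, (v i : ℕ)))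
  refine h1.trans (le_of_eq ?_)
  congr 1
  rw [Finset.card_univ, Fintype.card_fun, Fintype.card_fin, Fintype.card_coe]
  push_cast
  rfl

/-- MODULE ps2. The sum over tuples as a sum over functions. -/
theorem PS_eq_sum {V : Type} [AddCommMonoid V] (Q : Finset ℕ) (k : ℕ) (F : ℕ → V) :
    PS Q k F = ∑ v : Fin k → Q, F (∏ i, (v i : ℕ)) := by
  exact ps2_eq_sum Q k F

/-- MODULE ps2 -/
theorem Pd_iff (Q : Finset ℕ) (k n : ℕ) :
    Pd Q k n ↔ ∃ v : Fin k → Q, n = ∏ i, (v i : ℕ) := by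
  induction k generalizing n with
  | zero =>
    change n = 1 ↔ _
    constructor
    · rintro rfl
      exact ⟨fun i => i.elim0, by simp⟩
    · rintro ⟨v, rfl⟩
      simp
  | succ k ih =>
    change (∃ q ∈ Q, ∃ m, Pd Q k m ∧ n = q * m) ↔ _
    constructor
    · rintro ⟨q, hq, m, hm, rfl⟩
      obtain ⟨v, rfl⟩ := (ih m).1 hm
      refine ⟨Fin.cons ⟨q, hq⟩ v, ?_⟩
      rw [Fin.prod_univ_succ]
      rfl
    · rintro ⟨v, rfl⟩
      refine ⟨v 0, (v 0).2, ∏ i : Fin k, (v i.succ : ℕ), (ih _).2 ⟨fun i => v i.succ, rfl⟩, ?_⟩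
      rw [Fin.prod_univ_succ]

/-- MODULE ps2. A product of `k` elements as the product of a list. -/
theorem Pd_list {Q : Finset ℕ} {k n : ℕ} (h : Pd Q k n) :
    ∃ t : List ℕ, t.length = k ∧ (∀ q ∈ t, q ∈ Q) ∧ n = t.prod := by
  induction k generalizing n with
  | zero =>
    have h' : n = 1 := h
    exact ⟨[], rfl, by simp, by simp [h']⟩
  | succ k ih =>
    obtain ⟨q, hq, m, hm, rfl⟩ := h
    obtain ⟨t, ht1, ht2, rfl⟩ := ih hm
    refine ⟨q :: t, by simp [ht1], ?_, by simp⟩
    intro p hp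
    rcases List.mem_cons.1 hp with rfl | hp
    · exact hq
    · exact ht2 p hp

/-- MODULE ps3. `PS` as a weighted sum over an interval containing all the products. -/
theorem PS_eq_wt {V : Type} [AddCommMonoid V] (Q : Finset ℕ) (k Y : ℕ)
    (h : ∀ n, Pd Q k n → n < Y) (F : ℕ → V) :
    PS Q k F = ∑ n ∈ range Y, wt Q k n • F n := by
  have h1 : PS Q k F = PS Q k (fun n => ∑ m ∈ range Y, (if n = m then 1 else 0) • F m) := by
    refine PS_congr fun n hn => ?_
    rw [Finset.sum_eq_single n]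
    · rw [if_pos rfl, one_smul]
    · intro m _ hmn
      rw [if_neg hmn.symm, zero_smul]
    · intro hn'
      exact absurd (Finset.mem_range.2 (h n hn)) hn'
  rw [h1, PS_sum]
  refine Finset.sum_congr rfl fun m _ => ?_
  have h2 := PS_map (multiplesHom V (F m)) Q k (fun n => if n = m then 1 else 0)
  unfold wt
  exact h2.symm

private theorem ps3_card {Q : Finset ℕ} (hQ : ∀ q ∈ Q, q.Prime) {k n : ℕ} (hn : Pd Q k n) :
    (Q.filter (fun q => q ∣ n)).card ≤ k := by
  obtain ⟨t, ht1, ht2, rfl⟩ := Pd_list hn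
  have h1 : Q.filter (fun q => q ∣ t.prod) ⊆ t.toFinset := by
    intro q hq
    rw [Finset.mem_filter] at hq
    obtain ⟨p, hp, hqp⟩ := ((hQ q hq.1).prime.dvd_prod_iff).1 hq.2
    rw [List.mem_toFinset, (Nat.prime_dvd_prime_iff_eq (hQ q hq.1) (hQ p (ht2 p hp))).1 hqp]
    exact hp
  exact (Finset.card_le_card h1).trans ((List.toFinset_card_le t).trans ht1.le)

private theorem ps3_Pd {Q : Finset ℕ} {k n : ℕ} (h : wt Q k n ≠ 0) : Pd Q k n := by
  by_contra hcon
  refine h ?_
  unfold wt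
  have h1 : PS Q k (fun m => if m = n then 1 else 0) = PS Q k (fun _ => 0) := by
    refine PS_congr fun m hm => ?_
    rw [if_neg]
    rintro rfl
    exact hcon hm
  rw [h1, PS_const, mul_zero]

/-- MODULE ps3 (by unique factorisation: induction on `k`, `wt Q (k + 1) n` is the sum over
`q ∈ Q` with `q ∣ n` of `wt Q k (n / q)`, and if it is not zero, `n` is a product of `k + 1`
primes, hence has at most `k + 1` different prime factors). -/
theorem wt_le {Q : Finset ℕ} (hQ : ∀ q ∈ Q, q.Prime) (k n : ℕ) : wt Q k n ≤ Nat.factorial k := by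
  induction k generalizing n with
  | zero =>
    unfold wt
    change (if 1 = n then 1 else 0) ≤ 1
    split_ifs <;> norm_num
  | succ k ih =>
    by_cases h0 : wt Q (k + 1) n = 0
    · rw [h0]
      exact Nat.zero_le _
    · have h1 := ps3_card hQ (ps3_Pd h0)
      have h2 : wt Q (k + 1) n = ∑ q ∈ Q, PS Q k (fun m => if q * m = n then 1 else 0) := rfl
      have h3 : ∀ q ∈ Q, PS Q k (fun m => if q * m = n then 1 else 0) ≤
          if q ∣ n then Nat.factorial k else 0 := by
        intro q hq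
        by_cases hqn : q ∣ n
        · rw [if_pos hqn]
          obtain ⟨m', rfl⟩ := hqn
          refine le_trans (le_of_eq ?_) (ih m')
          unfold wt
          refine PS_congr fun m _ => ?_
          have h4 : q * m = q * m' ↔ m = m' := Nat.mul_right_inj (hQ q hq).ne_zero
          simp only [h4]
        · rw [if_neg hqn]
          have h4 : PS Q k (fun m => if q * m = n then 1 else 0) = PS Q k (fun _ => 0) := by
            refine PS_congr fun m _ => ?_
            rw [if_neg]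
            rintro rfl
            exact hqn (dvd_mul_right q m)
          rw [h4, PS_const, mul_zero]
      rw [h2]
      refine (Finset.sum_le_sum h3).trans ?_
      rw [← Finset.sum_filter, Finset.sum_const, smul_eq_mul, Nat.factorial_succ]
      exact Nat.mul_le_mul_right _ h1

/-- MODULE ps3 (from the two preceding ones). -/
theorem PS_le_sum {Q : Finset ℕ} (hQ : ∀ q ∈ Q, q.Prime) (k Y : ℕ)
    (h : ∀ n, Pd Q k n → n < Y) {F : ℕ → ℝ} (hF : ∀ n, 0 ≤ F n) :
    PS Q k F ≤ (Nat.factorial k : ℝ) * ∑ n ∈ range Y, F n := by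
  rw [PS_eq_wt Q k Y h F, Finset.mul_sum]
  refine Finset.sum_le_sum fun n _ => ?_
  rw [nsmul_eq_mul]
  exact mul_le_mul_of_nonneg_right (by exact_mod_cast wt_le hQ k n) (hF n)

/-- MODULE ps4. Size of the products: `n ^ L ≤ 2 ^ k C ^ (k L) ≤ (2 C ^ k) ^ L`. -/
theorem Pd_bounds {L : ℕ} {Q : Finset ℕ} {C lam : ℝ} (h : Cls L Q C lam) {k n : ℕ} (hk : k ≤ L)
    (hn : Pd Q k n) : C ^ k ≤ n ∧ (n : ℝ) ≤ 2 * C ^ k := by
  have hC0 : (0 : ℝ) < C := by linarith [h.C1]
  have key : ∀ j : ℕ, ∀ m : ℕ, Pd Q j m → C ^ j ≤ m ∧ (m : ℝ) ^ L ≤ (2 * C ^ L) ^ j := by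
    intro j
    induction j with
    | zero =>
      intro m hm
      have hm' : m = 1 := hm
      rw [hm']
      simp
    | succ j ih =>
      rintro m ⟨q, hq, m', hm', rfl⟩
      obtain ⟨h1, h2⟩ := ih m' hm'
      push_cast
      refine ⟨?_, ?_⟩
      · rw [pow_succ']
        exact mul_le_mul (h.lb q hq) h1 (by positivity) (by positivity)
      · rw [mul_pow, pow_succ']
        exact mul_le_mul (h.ub q hq) h2 (by positivity) (by positivity)
  obtain ⟨h1, h2⟩ := key k n hn
  refine ⟨h1, ?_⟩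
  have hL0 : L ≠ 0 := by
    have := h.L1
    omega
  have h3 : (n : ℝ) ^ L ≤ (2 * C ^ k) ^ L := by
    refine h2.trans ?_
    rw [mul_pow, mul_pow, ← pow_mul, ← pow_mul, Nat.mul_comm L k]
    exact mul_le_mul_of_nonneg_right (pow_le_pow_right₀ (by norm_num) hk) (by positivity)
  exact (pow_le_pow_iff_left₀ (by positivity) (by positivity) hL0).1 h3

/-- MODULE ps4 -/
theorem Pd_pos {Q : Finset ℕ} (hQ : ∀ q ∈ Q, q.Prime) {k n : ℕ} (hn : Pd Q k n) : 0 < n := by
  induction k generalizing n with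
  | zero =>
    have hn' : n = 1 := hn
    omega
  | succ k ih =>
    obtain ⟨q, hq, m, hm, rfl⟩ := hn
    exact Nat.mul_pos (hQ q hq).pos (ih hm)

end Pool.Agent.HadS
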