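import Pool.Agent.HadS.Defs

/-! Existence of a class of primes. -/

set_option autoImplicit false

namespace Pool.Agent.HadS

open Finset

private theorem pr1_pow (b : ℕ) (hb : 3 ≤ b) : 2 * (b + 1) ≤ 2 ^ b := by
  induction b, hb using Nat.le_induction with
  | base => norm_num
  | succ n hn ih =>
    rw [pow_succ]
    omega

/-- MODULE pr1. Chebyshev: `Chebyshev.psi_ge`, `Chebyshev.psi_le_primeCounting_mul_log` at
`n = 2 ^ b` give `b π(2 ^ b) ≥ 2 ^ b - b - 1`. -/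
theorem prime_count : ∃ B : ℕ, ∀ b, B ≤ b → 2 ^ b ≤ 2 * b * Nat.primeCounting (2 ^ b) := by
  refine ⟨3, fun b hb => ?_⟩
  have h1 := Chebyshev.psi_ge (2 ^ b)
  have h2 := Chebyshev.psi_le_primeCounting_mul_log (2 ^ b)
  have hlog2 : (0 : ℝ) < Real.log 2 := Real.log_pos one_lt_two
  have h3 : Real.log ((2 ^ b : ℕ) : ℝ) = b * Real.log 2 := by
    push_cast
    rw [Real.log_pow]
  have h4 : Real.log (((2 ^ b : ℕ) : ℝ) + 1) ≤ (b + 1) * Real.log 2 := by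
    have h5 : ((2 ^ b : ℕ) : ℝ) + 1 ≤ (2 : ℝ) ^ (b + 1) := by
      push_cast
      have : (1 : ℝ) ≤ 2 ^ b := one_le_pow₀ one_le_two
      rw [pow_succ]
      linarith
    calc Real.log (((2 ^ b : ℕ) : ℝ) + 1) ≤ Real.log ((2 : ℝ) ^ (b + 1)) :=
          Real.log_le_log (by positivity) h5
      _ = (b + 1) * Real.log 2 := by
          rw [Real.log_pow]
          push_cast
          ring
  rw [h3] at h2
  have h6 : ((2 ^ b : ℕ) : ℝ) * Real.log 2 ≤
      ((b + 1) + (Nat.primeCounting (2 ^ b) : ℝ) * b) * Real.log 2 := by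
    linarith
  have h7 : ((2 ^ b : ℕ) : ℝ) ≤ (b + 1) + (Nat.primeCounting (2 ^ b) : ℝ) * b :=
    le_of_mul_le_mul_right h6 hlog2
  have h8 : 2 ^ b ≤ (b + 1) + Nat.primeCounting (2 ^ b) * b := by exact_mod_cast h7
  have h9 : 2 * (b + 1) ≤ 2 ^ b := pr1_pow b hb
  have h10 : 2 * b * Nat.primeCounting (2 ^ b) = 2 * (Nat.primeCounting (2 ^ b) * b) := by ring
  omega

private theorem pr1_pow2 (m : ℕ) (hm : 10 ≤ m) : 4 * (2 * m + 1) ≤ 2 ^ (m - 1) := by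
  induction m, hm using Nat.le_induction with
  | base => norm_num
  | succ n hn ih =>
    have : 2 ^ (n + 1 - 1) = 2 * 2 ^ (n - 1) := by
      rw [← pow_succ']; congr 1; omega
    omega

/-- MODULE pr1. Pigeonhole: the primes `p ≤ 2 ^ b` with `p > 2 ^ b / (4 b)` (at least
`2 ^ b / (4 b)` of them) are distributed over the classes `Nat.log 2 (p ^ L) = i`,
`0 ≤ i ≤ b L`, so one class has at least `2 ^ b / (4 b (b L + 1)) ≥ 2 ^ b / (8 b² L)` elements. -/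
theorem prime_class : ∃ B : ℕ, ∀ b, B ≤ b → ∀ L, 1 ≤ L → ∃ (Q : Finset ℕ) (i : ℕ),
    (∀ q ∈ Q, q.Prime ∧ q ≤ 2 ^ b ∧ 2 ^ (b / 2 + 1) ≤ q ∧ Nat.log 2 (q ^ L) = i) ∧
    2 ^ b ≤ 8 * b ^ 2 * L * Q.card := by
  obtain ⟨B, hB⟩ := prime_count
  refine ⟨max B 20, fun b hb L hL => ?_⟩
  have hbB : B ≤ b := (le_max_left _ _).trans hb
  have hb20 : 20 ≤ b := (le_max_right _ _).trans hb
  have h1 := hB b hbB
  set S : Finset ℕ := (range (2 ^ b + 1)).filter (fun q => q.Prime ∧ 2 ^ (b / 2 + 1) ≤ q) with hS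
  have hcard : Nat.primeCounting (2 ^ b) ≤ S.card + 2 ^ (b / 2 + 1) := by
    have h2 : Nat.primeCounting (2 ^ b) = ((range (2 ^ b + 1)).filter Nat.Prime).card := by
      rw [Nat.primeCounting, Nat.primeCounting', Nat.count_eq_card_filter_range]
    rw [h2]
    have h3 : (range (2 ^ b + 1)).filter Nat.Prime ⊆ S ∪ range (2 ^ (b / 2 + 1)) := by
      intro q hq
      rw [mem_filter, mem_range] at hq
      rw [mem_union, hS, mem_filter, mem_range, mem_range]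
      rcases lt_or_ge q (2 ^ (b / 2 + 1)) with h4 | h4
      · right; exact h4
      · left; exact ⟨hq.1, hq.2, h4⟩
    calc _ ≤ (S ∪ range (2 ^ (b / 2 + 1))).card := card_le_card h3
      _ ≤ S.card + (range (2 ^ (b / 2 + 1))).card := card_union_le _ _
      _ = _ := by rw [card_range]
  have h2 : 2 ^ b ≤ 4 * b * S.card := by
    have h3 : 4 * b * 2 ^ (b / 2 + 1) ≤ 2 ^ b := by
      have h4 : 2 ^ b = 2 ^ (b - (b / 2 + 1)) * 2 ^ (b / 2 + 1) := by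
        rw [← pow_add]; congr 1; omega
      rw [h4]
      refine Nat.mul_le_mul_right _ ?_
      have h5 : 4 * (2 * (b / 2) + 1) ≤ 2 ^ (b / 2 - 1) := pr1_pow2 (b / 2) (by omega)
      have h6 : 2 ^ (b / 2 - 1) ≤ 2 ^ (b - (b / 2 + 1)) :=
        Nat.pow_le_pow_right (by norm_num) (by omega)
      omega
    have h4 : 2 * b * Nat.primeCounting (2 ^ b) ≤ 2 * b * (S.card + 2 ^ (b / 2 + 1)) :=
      Nat.mul_le_mul_left _ hcard
    have h5 : 2 * b * (S.card + 2 ^ (b / 2 + 1)) =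
        2 * b * S.card + 2 * b * 2 ^ (b / 2 + 1) := by ring
    have h6 : 4 * b * 2 ^ (b / 2 + 1) = 2 * (2 * b * 2 ^ (b / 2 + 1)) := by ring
    have h7 : 4 * b * S.card = 2 * (2 * b * S.card) := by ring
    omega
  have hmaps : ∀ q ∈ S, Nat.log 2 (q ^ L) ∈ range (b * L + 1) := by
    intro q hq
    rw [hS, mem_filter, mem_range] at hq
    rw [mem_range, Nat.lt_succ_iff]
    calc Nat.log 2 (q ^ L) ≤ Nat.log 2 ((2 ^ b) ^ L) :=
          Nat.log_mono_right (Nat.pow_le_pow_left (Nat.lt_succ_iff.mp hq.1) L)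
      _ = b * L := by rw [← pow_mul, Nat.log_pow (by norm_num)]
  by_contra hcon
  push Not at hcon
  have hfib : ∀ i ∈ range (b * L + 1),
      8 * b ^ 2 * L * (S.filter fun q => Nat.log 2 (q ^ L) = i).card < 2 ^ b := by
    intro i _
    refine hcon _ i fun q hq => ?_
    rw [mem_filter, hS, mem_filter, mem_range] at hq
    exact ⟨hq.1.2.1, Nat.lt_succ_iff.mp hq.1.1, hq.1.2.2, hq.2⟩
  have hsum : S.card = ∑ i ∈ range (b * L + 1), (S.filter fun q => Nat.log 2 (q ^ L) = i).card :=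
    card_eq_sum_card_fiberwise hmaps
  have h3 : 8 * b ^ 2 * L * S.card < (b * L + 1) * 2 ^ b := by
    rw [hsum, mul_sum]
    calc _ < ∑ _i ∈ range (b * L + 1), 2 ^ b :=
          sum_lt_sum_of_nonempty ⟨0, mem_range.mpr (Nat.succ_pos _)⟩ hfib
      _ = _ := by rw [sum_const, card_range, smul_eq_mul]
  have hbL : 1 ≤ b * L := Nat.mul_pos (by omega) hL
  have h4 : (b * L + 1) * 2 ^ b ≤ (2 * (b * L)) * 2 ^ b := Nat.mul_le_mul_right _ (by omega)
  have h5 : (2 * (b * L)) * 2 ^ b ≤ (2 * (b * L)) * (4 * b * S.card) := Nat.mul_le_mul_left _ h2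
  have h6 : (2 * (b * L)) * (4 * b * S.card) = 8 * b ^ 2 * L * S.card := by ring
  omega

private theorem pr2_large (K k : ℕ) : ∃ N : ℕ, ∀ c, N ≤ c → K * (c + 1) ^ k ≤ 2 ^ c := by
  have h1 := tendsto_pow_const_div_const_pow_of_one_lt k (one_lt_two : (1 : ℝ) < 2)
  have h2 : (0 : ℝ) < 1 / (2 * (K + 1)) := by positivity
  obtain ⟨N, hN⟩ := Filter.eventually_atTop.mp (h1.eventually (gt_mem_nhds h2))
  refine ⟨N, fun c hc => ?_⟩
  have h3 := hN (c + 1) (by omega)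
  rw [div_lt_div_iff₀ (by positivity) (by positivity)] at h3
  have h4 : ((K * (c + 1) ^ k : ℕ) : ℝ) ≤ ((2 ^ c : ℕ) : ℝ) := by
    push_cast at h3 ⊢
    have h5 : (0 : ℝ) ≤ ((c : ℝ) + 1) ^ k := by positivity
    have h6 : (2 : ℝ) ^ (c + 1) = 2 * 2 ^ c := pow_succ' 2 c
    rw [h6] at h3
    nlinarith
  exact_mod_cast h4

/-- MODULE pr2. `Q`, `i` from `prime_class`, `C = 2 ^ (i / L)` (real power), `lam = 8 b² L²`.
`2 ^ i ≤ q ^ L < 2 ^ (i + 1)` gives `C ≤ q`, `q ^ L ≤ 2 C ^ L`, `C ≥ q / 2 ≥ 2 ^ (b / 2)`. The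
conditions `small`, `log` hold for `b ≥ A (log₂ L + 1)` with a large constant `A`. -/
theorem class_exists : ∃ A : ℕ, 1 ≤ A ∧ ∀ L : ℕ, 1 ≤ L → ∀ b : ℕ, A * (Nat.log 2 L + 1) ≤ b →
    ∃ (Q : Finset ℕ) (C lam : ℝ), Cls L Q C lam ∧ (2 : ℝ) ^ (b / 2) ≤ C ∧ C ≤ (2 : ℝ) ^ b := by
  obtain ⟨B, hB⟩ := prime_class
  obtain ⟨N₁, hN₁⟩ := pr2_large (1536 ^ 20 * 8 ^ 120) 120
  obtain ⟨N₂, hN₂⟩ := pr2_large (1170 * 32) 1
  refine ⟨B + 8 * N₁ + 8 * N₂ + 960, by omega, fun L hL b hb => ?_⟩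
  have hA : B + 8 * N₁ + 8 * N₂ + 960 ≤ b :=
    le_trans (Nat.le_mul_of_pos_right _ (Nat.succ_pos _)) hb
  have hlogL : 960 * (Nat.log 2 L + 1) ≤ b :=
    le_trans (Nat.mul_le_mul_right _ (Nat.le_add_left 960 _)) hb
  obtain ⟨Q, i, hQ, hcard⟩ := hB b (by omega) L hL
  set c : ℕ := b / 8 with hc
  have hc1 : N₁ ≤ c := by omega
  have hc2 : N₂ ≤ c := by omega
  have hlogc : 120 * (Nat.log 2 L + 1) ≤ c := by omega
  have hb8 : b ≤ 8 * (c + 1) := by omega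
  have hLpow : L < 2 ^ (Nat.log 2 L + 1) := Nat.lt_pow_succ_log_self (by norm_num) L
  have hL120 : L ^ 120 ≤ 2 ^ c := by
    calc L ^ 120 ≤ (2 ^ (Nat.log 2 L + 1)) ^ 120 := Nat.pow_le_pow_left hLpow.le 120
      _ = 2 ^ (120 * (Nat.log 2 L + 1)) := by rw [← pow_mul, mul_comm]
      _ ≤ 2 ^ c := Nat.pow_le_pow_right (by norm_num) hlogc
  have hLc : L ≤ 2 ^ c := hLpow.le.trans (Nat.pow_le_pow_right (by norm_num) (by omega))
  have h2c : 2 ^ c * 2 ^ c ≤ 2 ^ (b / 2) := by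
    rw [← pow_add]
    exact Nat.pow_le_pow_right (by norm_num) (by omega)
  have hQne : Q.Nonempty := by
    rw [nonempty_iff_ne_empty]
    rintro rfl
    rw [card_empty, mul_zero] at hcard
    have : 0 < 2 ^ b := by positivity
    omega
  obtain ⟨q₀, hq₀⟩ := hQne
  have hLR : (0 : ℝ) < L := by exact_mod_cast hL
  have hL0 : L ≠ 0 := by omega
  set C : ℝ := (2 : ℝ) ^ ((i : ℝ) / L) with hC
  have hCpos : 0 < C := Real.rpow_pos_of_pos two_pos _
  have hCL : C ^ L = 2 ^ i := by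
    rw [hC, ← Real.rpow_natCast, ← Real.rpow_mul two_pos.le, div_mul_cancel₀ _ hLR.ne',
      Real.rpow_natCast]
  have hlow : ∀ q ∈ Q, C ≤ q := by
    intro q hq
    obtain ⟨h1, -, -, h4⟩ := hQ q hq
    have h5 : 2 ^ i ≤ q ^ L := by
      rw [← h4]
      exact Nat.pow_log_le_self 2 (pow_ne_zero L h1.ne_zero)
    have h6 : C ^ L ≤ (q : ℝ) ^ L := by
      rw [hCL]
      exact_mod_cast h5
    exact le_of_pow_le_pow_left₀ hL0 (Nat.cast_nonneg q) h6
  have hup : ∀ q ∈ Q, (q : ℝ) ^ L ≤ 2 * C ^ L := by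
    intro q hq
    obtain ⟨-, -, -, h4⟩ := hQ q hq
    have h5 : q ^ L < 2 ^ (i + 1) := by
      rw [← h4]
      exact Nat.lt_pow_succ_log_self (by norm_num) _
    rw [hCL, ← pow_succ']
    exact_mod_cast h5.le
  have hC2 : (2 : ℝ) ^ (b / 2) ≤ C := by
    obtain ⟨-, -, h3, -⟩ := hQ q₀ hq₀
    have h5 : (q₀ : ℝ) ≤ 2 * C := by
      refine le_of_pow_le_pow_left₀ hL0 (by positivity) ?_
      refine (hup q₀ hq₀).trans ?_
      rw [mul_pow]
      refine mul_le_mul_of_nonneg_right ?_ (by positivity)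
      calc (2 : ℝ) = 2 ^ 1 := (pow_one 2).symm
        _ ≤ 2 ^ L := pow_le_pow_right₀ one_le_two hL
    have h6 : (2 : ℝ) ^ (b / 2 + 1) ≤ q₀ := by exact_mod_cast h3
    rw [pow_succ] at h6
    linarith
  have hCb : C ≤ (2 : ℝ) ^ b := by
    obtain ⟨-, h2, -, -⟩ := hQ q₀ hq₀
    refine (hlow q₀ hq₀).trans ?_
    exact_mod_cast h2
  have h2cR : (2 : ℝ) ^ c * 2 ^ c ≤ C := by
    refine le_trans ?_ hC2
    exact_mod_cast h2c
  have hbR : (b : ℝ) ≤ 8 * (c + 1) := by exact_mod_cast hb8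
  have hLcR : (L : ℝ) ≤ 2 ^ c := by exact_mod_cast hLc
  have hL120R : (L : ℝ) ^ 120 ≤ 2 ^ c := by exact_mod_cast hL120
  have h1c : (1 : ℝ) ≤ 2 ^ c := one_le_pow₀ one_le_two
  have hLR1 : (1 : ℝ) ≤ L := by exact_mod_cast hL
  have hb1 : (1 : ℝ) ≤ b := by
    have : 1 ≤ b := by omega
    exact_mod_cast this
  refine ⟨Q, C, 8 * (b : ℝ) ^ 2 * (L : ℝ) ^ 2, ⟨hL, ?_, ?_, fun q hq => (hQ q hq).1, hlow, hup,
    ?_, ?_, ?_⟩, hC2, hCb⟩
  · refine le_trans ?_ hC2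
    calc (16 : ℝ) = 2 ^ 4 := by norm_num
      _ ≤ 2 ^ (b / 2) := pow_le_pow_right₀ one_le_two (by omega)
  · have h1 : (1 : ℝ) ≤ (b : ℝ) ^ 2 := one_le_pow₀ hb1
    have h2 : (1 : ℝ) ≤ (L : ℝ) ^ 2 := one_le_pow₀ hLR1
    have h3 : (1 : ℝ) ≤ (b : ℝ) ^ 2 * (L : ℝ) ^ 2 := one_le_mul_of_one_le_of_one_le h1 h2
    linarith
  · have h1 : (2 : ℝ) ^ b ≤ 8 * (b : ℝ) ^ 2 * L * Q.card := by exact_mod_cast hcard
    calc (L : ℝ) * C ≤ L * (8 * (b : ℝ) ^ 2 * L * Q.card) :=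
          mul_le_mul_of_nonneg_left (hCb.trans h1) hLR.le
      _ = _ := by ring
  · have h1 : (3 * (8 * (b : ℝ) ^ 2 * (L : ℝ) ^ 2) ^ 3) ^ 20 =
        1536 ^ 20 * (b : ℝ) ^ 120 * (L : ℝ) ^ 120 := by
      rw [show (3 * (8 * (b : ℝ) ^ 2 * (L : ℝ) ^ 2) ^ 3) = 1536 * (b ^ 6 * (L : ℝ) ^ 6) by ring]
      rw [mul_pow, mul_pow, ← pow_mul, ← pow_mul]
      ring
    rw [h1]
    have h2 : (b : ℝ) ^ 120 ≤ 8 ^ 120 * (c + 1) ^ 120 := by
      rw [← mul_pow]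
      exact pow_le_pow_left₀ (by positivity) hbR 120
    have h3 := hN₁ c hc1
    have h4 : (1536 ^ 20 * 8 ^ 120 : ℝ) * (c + 1) ^ 120 ≤ 2 ^ c := by exact_mod_cast h3
    calc 1536 ^ 20 * (b : ℝ) ^ 120 * (L : ℝ) ^ 120
        ≤ 1536 ^ 20 * (8 ^ 120 * (c + 1) ^ 120) * (L : ℝ) ^ 120 := by
          refine mul_le_mul_of_nonneg_right ?_ (by positivity)
          exact mul_le_mul_of_nonneg_left h2 (by positivity)
      _ = (1536 ^ 20 * 8 ^ 120 : ℝ) * (c + 1) ^ 120 * (L : ℝ) ^ 120 := by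
          rw [← mul_assoc (1536 ^ 20 : ℝ)]
      _ ≤ 2 ^ c * 2 ^ c := mul_le_mul h4 hL120R (by positivity) (by positivity)
      _ ≤ C := h2cR
  · have h1 : Real.log (100 * C ^ (L + 2)) ≤ 7 + (L + 2) * b := by
      rw [Real.log_mul (by norm_num) (by positivity), Real.log_pow]
      have h2 : Real.log 100 ≤ 7 := by
        have h3 : Real.log 100 ≤ Real.log ((2 : ℝ) ^ 7) :=
          Real.log_le_log (by norm_num) (by norm_num)
        rw [Real.log_pow] at h3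
        have h4 : Real.log 2 ≤ 1 := by
          have := Real.log_two_lt_d9
          linarith
        push_cast at h3
        linarith
      have h3 : Real.log C ≤ b := by
        have h4 : Real.log C ≤ Real.log ((2 : ℝ) ^ b) := Real.log_le_log hCpos hCb
        rw [Real.log_pow] at h4
        have h5 : Real.log 2 ≤ 1 := by
          have := Real.log_two_lt_d9
          linarith
        have h6 : (b : ℝ) * Real.log 2 ≤ b * 1 :=
          mul_le_mul_of_nonneg_left h5 (by positivity)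
        linarith
      have h4 : ((L + 2 : ℕ) : ℝ) * Real.log C ≤ (L + 2) * b := by
        push_cast
        exact mul_le_mul_of_nonneg_left h3 (by positivity)
      linarith
    have h3 := hN₂ c hc2
    have h4 : (1170 * 32 : ℝ) * (c + 1) ^ 1 ≤ 2 ^ c := by exact_mod_cast h3
    rw [pow_one] at h4
    refine le_trans ?_ h2cR
    have h5 : (L + 2 : ℝ) * b ≤ (3 * 2 ^ c) * (8 * (c + 1)) := by
      refine mul_le_mul ?_ hbR (by positivity) (by positivity)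
      linarith
    have h6 : (0 : ℝ) ≤ c := Nat.cast_nonneg c
    have h7 : (1 : ℝ) ≤ (2 ^ c) * (c + 1) := one_le_mul_of_one_le_of_one_le h1c (by linarith)
    calc 1170 * (1 + Real.log (100 * C ^ (L + 2)))
        ≤ 1170 * (8 + (3 * 2 ^ c) * (8 * (c + 1))) := by linarith
      _ ≤ 1170 * (8 * ((2 ^ c) * (c + 1)) + (3 * 2 ^ c) * (8 * (c + 1))) := by linarith
      _ = 2 ^ c * (1170 * 32 * (c + 1)) := by ring
      _ ≤ 2 ^ c * 2 ^ c := mul_le_mul_of_nonneg_left h4 (by positivity)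

end Pool.Agent.HadS
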