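import Pool.Agent.HadS.Bil
import Pool.Agent.HadS.GB
import Pool.Agent.HadS.Gcd

/-! The pointwise bound for the exponential sum over products of primes of one class. -/

set_option autoImplicit false

namespace Pool.Agent.HadS

open Finset

/-- the logarithmic factor -/
noncomputable def LL (L : ℕ) (C : ℝ) : ℝ := 1 + Real.log (100 * C ^ (L + 2))

private theorem pt1_LL {L : ℕ} {C : ℝ} {x : ℝ} (hx : 1 ≤ x) (hxC : x ≤ 100 * C ^ (L + 2)) :
    1 + Real.log x ≤ LL L C := by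
  unfold LL
  have := Real.log_le_log (by linarith) hxC
  linarith

private theorem pt1_LL1 {L : ℕ} {C : ℝ} (hC : 16 ≤ C) : 1 ≤ LL L C := by
  have h1 : (1 : ℝ) ≤ C ^ (L + 2) := one_le_pow₀ (by linarith)
  have := pt1_LL (L := L) (C := C) (le_refl (1 : ℝ)) (by linarith)
  simpa using this

/-- MODULE pt1. One block: `z` is a product of `k - 2 j` elements, `C ^ (k - 2 j) ≤ z ≤
2 C ^ (k - 2 j)`, `Y = ⌊2 C ^ j⌋ + 1 ≤ 3 C ^ j`. With `g = gcd(z, q)` one has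
`α z = (a (z / g)) / (q / g) + β z`, a reduced fraction, and
`(q / g) |β z| Y ≤ q |β| 6 C ^ (k - j) ≤ 1 / 2`; apply `gs_sum_le`. Now `|β z| Y² / 4 ≥ |β| C ^ k`
(as `Y > 2 C ^ j`), so the last term is at most `36 LL C ^ (2 j) g / N`; the logarithms are at
most `LL - 1`, as `q, Y ≤ 100 C ^ (L + 2)`. Here `N = q (1 + |β| C ^ k)`. -/
theorem pt_block {L : ℕ} {Q : Finset ℕ} {C lam : ℝ} (h : Cls L Q C lam) {k j q : ℕ} {a : ℤ}
    {α : ℝ} (hj : 1 ≤ j) (hjk : 2 * j ≤ k) (hk : k ≤ L) (hq : 1 ≤ q) (ha : IsCoprime a (q : ℤ))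
    (hβ : q * |α - a / q| * (12 * C ^ (k - j)) ≤ 1) (hqL : (q : ℝ) ≤ 100 * C ^ (L + 2)) {z : ℕ}
    (hz : Pd Q (k - 2 * j) z) :
    ∑ i ∈ Ioo (-((⌊2 * C ^ j⌋₊ + 1 : ℕ) : ℤ)) ((⌊2 * C ^ j⌋₊ + 1 : ℕ) : ℤ),
        ‖gs (⌊2 * C ^ j⌋₊ + 1) (α * z * i)‖ ≤
      (Nat.gcd z q : ℝ) * (LL L C * (15 * C ^ j + 2 * q +
        36 * C ^ (2 * j) / (q * (1 + |α - a / q| * C ^ k)))) := by
  have hC := h.C1
  have hC0 : (0 : ℝ) < C := by linarith
  have hC1 : (1 : ℝ) ≤ C := by linarith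
  have hLL1 : 1 ≤ LL L C := pt1_LL1 hC
  have hCj : (1 : ℝ) ≤ C ^ j := one_le_pow₀ hC1
  obtain ⟨Y, hYd⟩ : ∃ Y : ℕ, Y = ⌊2 * C ^ j⌋₊ + 1 := ⟨_, rfl⟩
  rw [← hYd]
  have hY0 : 1 ≤ Y := by omega
  have hY0' : (1 : ℝ) ≤ Y := by exact_mod_cast hY0
  have hY1 : (Y : ℝ) ≤ 3 * C ^ j := by
    have h1 := Nat.floor_le (show (0 : ℝ) ≤ 2 * C ^ j by positivity)
    rw [hYd]
    push_cast
    linarith
  have hY2 : 2 * C ^ j < Y := by
    rw [hYd]
    push_cast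
    exact Nat.lt_floor_add_one _
  obtain ⟨hz1, hz2⟩ := Pd_bounds h (by omega) hz
  have hz0 : 0 < z := Pd_pos h.prime hz
  have hz0' : (0 : ℝ) < z := by exact_mod_cast hz0
  have hq0' : (0 : ℝ) < q := by exact_mod_cast hq
  obtain ⟨g, hg⟩ : ∃ g, g = Nat.gcd z q := ⟨_, rfl⟩
  rw [← hg]
  have hg0 : 0 < g := by rw [hg]; exact Nat.gcd_pos_of_pos_left _ hz0
  have hg0' : (1 : ℝ) ≤ g := by exact_mod_cast hg0
  obtain ⟨z', hz'⟩ : g ∣ z := by rw [hg]; exact Nat.gcd_dvd_left _ _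
  obtain ⟨q', hq'⟩ : g ∣ q := by rw [hg]; exact Nat.gcd_dvd_right _ _
  have hq'0 : 1 ≤ q' := by
    rcases Nat.eq_zero_or_pos q' with h1 | h1
    · rw [h1, mul_zero] at hq'
      omega
    · exact h1
  have hq'0' : (1 : ℝ) ≤ q' := by exact_mod_cast hq'0
  have hzr : (z : ℝ) = g * z' := by rw [hz']; push_cast; ring
  have hqr : (q : ℝ) = g * q' := by rw [hq']; push_cast; ring
  have hqq : (q' : ℝ) ≤ q := by
    rw [hqr]
    nlinarith
  obtain ⟨b, hb⟩ : ∃ b : ℝ, b = α - a / q := ⟨_, rfl⟩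
  rw [← hb] at hβ ⊢
  have hcop : IsCoprime (a * (z' : ℤ)) (q' : ℤ) := by
    apply IsCoprime.mul_left
    · have : (q' : ℤ) ∣ (q : ℤ) := ⟨g, by rw [hq']; push_cast; ring⟩
      exact IsCoprime.of_isCoprime_of_dvd_right ha this
    · apply Nat.isCoprime_iff_coprime.2
      have h1 : g * Nat.gcd z' q' = g * 1 := by
        rw [← Nat.gcd_mul_left, ← hz', ← hq', mul_one]
        exact hg.symm
      exact Nat.eq_of_mul_eq_mul_left hg0 h1
  have hbb : 0 ≤ |b| := abs_nonneg b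
  have hpow : C ^ (k - 2 * j) * C ^ j = C ^ (k - j) := by
    rw [← pow_add]
    congr 1
    omega
  have hpow2 : C ^ (k - 2 * j) * (C ^ j) ^ 2 = C ^ k := by
    rw [← pow_mul, ← pow_add]
    congr 1
    omega
  have hcond : (q' : ℝ) * |b * z| * Y ≤ 1 / 2 := by
    rw [abs_mul, abs_of_pos hz0']
    have h1 : (z : ℝ) * Y ≤ (2 * C ^ (k - 2 * j)) * (3 * C ^ j) :=
      mul_le_mul hz2 hY1 (by positivity) (by positivity)
    have h2 : (z : ℝ) * Y ≤ 6 * C ^ (k - j) := by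
      rw [← hpow]
      linarith
    calc (q' : ℝ) * (|b| * z) * Y = (q' * |b|) * (z * Y) := by ring
      _ ≤ (q * |b|) * (6 * C ^ (k - j)) := by
          apply mul_le_mul _ h2 (by positivity) (by positivity)
          exact mul_le_mul_of_nonneg_right hqq hbb
      _ ≤ 1 / 2 := by linarith
  have hmain := gs_sum_le (Y := Y) (q := q') (a := a * z') (β := b * z) hY0 hq'0 hcop hcond
  have heq : ∀ i : ℤ, α * z * i = (((a * z' : ℤ) : ℝ) / q' + b * z) * i := by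
    intro i
    have h1 : α * z = ((a * z' : ℤ) : ℝ) / q' + b * z := by
      have h2 : α = a / q + b := by rw [hb]; ring
      rw [h2, add_mul]
      congr 1
      rw [hzr, hqr]
      push_cast
      have : (g : ℝ) ≠ 0 := by positivity
      have : (q' : ℝ) ≠ 0 := by positivity
      field_simp
    rw [h1]
  have hsum : ∑ i ∈ Ioo (-(Y : ℤ)) (Y : ℤ), ‖gs Y (α * z * i)‖ =
      ∑ i ∈ Ioo (-(Y : ℤ)) (Y : ℤ), ‖gs Y ((((a * z' : ℤ) : ℝ) / q' + b * z) * i)‖ := by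
    apply Finset.sum_congr rfl
    intro i _
    rw [heq i]
  rw [hsum]
  refine le_trans hmain ?_
  have hL1 : 1 + Real.log q' ≤ LL L C := pt1_LL hq'0' (le_trans hqq hqL)
  have hL2 : 1 + Real.log Y ≤ LL L C := by
    apply pt1_LL hY0'
    have h1 : C ^ j ≤ C ^ (L + 2) := pow_le_pow_right₀ hC1 (by omega)
    linarith
  have hlq : 0 ≤ Real.log q' := Real.log_nonneg hq'0'
  have hlY : 0 ≤ Real.log Y := Real.log_nonneg hY0'
  have hN0 : 0 < q * (1 + |b| * C ^ k) := by positivity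
  have hA : (Y : ℝ) ≤ g * (LL L C * (3 * C ^ j)) := by
    have h1 : 1 * (1 * (3 * C ^ j)) ≤ g * (LL L C * (3 * C ^ j)) := by
      apply mul_le_mul hg0' _ (by positivity) (by positivity)
      exact mul_le_mul_of_nonneg_right hLL1 (by positivity)
    linarith
  have hB : (4 * Y + 2 * q') * (1 + Real.log q') ≤ g * (LL L C * (12 * C ^ j + 2 * q)) := by
    have h1 : (4 * Y + 2 * q') * (1 + Real.log q') ≤ (12 * C ^ j + 2 * q) * LL L C := by
      apply mul_le_mul _ hL1 (by positivity) (by positivity)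
      linarith
    have h2 : 1 * (LL L C * (12 * C ^ j + 2 * q)) ≤ g * (LL L C * (12 * C ^ j + 2 * q)) := by
      apply mul_le_mul_of_nonneg_right hg0'
      have : 0 ≤ LL L C := by linarith
      positivity
    linarith
  have hCC : 4 * (1 + Real.log Y) * (Y : ℝ) ^ 2 / (q' * (1 + |b * z| * (Y : ℝ) ^ 2 / 4)) ≤
      g * (LL L C * (36 * C ^ (2 * j) / (q * (1 + |b| * C ^ k)))) := by
    have h1 : (Y : ℝ) ^ 2 ≤ 9 * C ^ (2 * j) := by
      have : (Y : ℝ) ^ 2 ≤ (3 * C ^ j) ^ 2 := pow_le_pow_left₀ (by positivity) hY1 2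
      calc (Y : ℝ) ^ 2 ≤ (3 * C ^ j) ^ 2 := this
        _ = 9 * C ^ (2 * j) := by rw [mul_comm 2 j, pow_mul]; ring
    have h2 : 4 * (1 + Real.log Y) * (Y : ℝ) ^ 2 ≤ 36 * LL L C * C ^ (2 * j) := by
      calc 4 * (1 + Real.log Y) * (Y : ℝ) ^ 2 ≤ 4 * LL L C * (9 * C ^ (2 * j)) := by
            apply mul_le_mul _ h1 (by positivity) (by linarith)
            linarith
        _ = 36 * LL L C * C ^ (2 * j) := by ring
    have h3 : |b| * C ^ k ≤ |b * z| * (Y : ℝ) ^ 2 / 4 := by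
      rw [abs_mul, abs_of_pos hz0', ← hpow2]
      have h4 : (C ^ j) ^ 2 ≤ (Y : ℝ) ^ 2 / 4 := by
        have : (2 * C ^ j) ^ 2 ≤ (Y : ℝ) ^ 2 := pow_le_pow_left₀ (by positivity) hY2.le 2
        nlinarith
      have h5 : C ^ (k - 2 * j) * (C ^ j) ^ 2 ≤ z * ((Y : ℝ) ^ 2 / 4) :=
        mul_le_mul hz1 h4 (by positivity) (by positivity)
      calc |b| * (C ^ (k - 2 * j) * (C ^ j) ^ 2) ≤ |b| * (z * ((Y : ℝ) ^ 2 / 4)) :=
            mul_le_mul_of_nonneg_left h5 hbb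
        _ = |b| * z * (Y : ℝ) ^ 2 / 4 := by ring
    have h6 : 0 < (q' : ℝ) * (1 + |b| * C ^ k) := by positivity
    have h7 : (q' : ℝ) * (1 + |b| * C ^ k) ≤ q' * (1 + |b * z| * (Y : ℝ) ^ 2 / 4) := by
      apply mul_le_mul_of_nonneg_left _ (by positivity)
      linarith
    calc 4 * (1 + Real.log Y) * (Y : ℝ) ^ 2 / (q' * (1 + |b * z| * (Y : ℝ) ^ 2 / 4))
        ≤ 36 * LL L C * C ^ (2 * j) / (q' * (1 + |b| * C ^ k)) := by
          apply div_le_div₀ _ h2 h6 h7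
          have : 0 ≤ LL L C := by linarith
          positivity
      _ = g * (LL L C * (36 * C ^ (2 * j) / (q * (1 + |b| * C ^ k)))) := by
          rw [hqr]
          have h8 : (g : ℝ) ≠ 0 := by positivity
          have h9 : (q' : ℝ) ≠ 0 := by positivity
          have h10 : 1 + |b| * C ^ k ≠ 0 := by positivity
          field_simp
  have hfin : (g : ℝ) * (LL L C * (3 * C ^ j)) + g * (LL L C * (12 * C ^ j + 2 * q)) +
      g * (LL L C * (36 * C ^ (2 * j) / (q * (1 + |b| * C ^ k)))) =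
      (g : ℝ) * (LL L C * (15 * C ^ j + 2 * q + 36 * C ^ (2 * j) / (q * (1 + |b| * C ^ k)))) := by
    ring
  linarith

/-- MODULE pt2. `|PS_k e(α n)|² ≤ |Q|^(k - 2 j) PS_z |T_z|²` (split `k = (k - 2 j) + (j + j)`,
`norm_PS_le`, `PS_cs`), `|T_z|² ≤ |Q|^(2 j) (j!)² G_z` (`bil` with `θ = α z`, and `Pd_bounds`),
`G_z ≤ gcd(z, q) B` (`hB`), and `gcd_avg`. So
`|Sk|² ≤ (j! / |Q| ^ j)² B (1 + 2 k C / |Q|) ^ n`, and `j! / |Q|^j ≤ (L / |Q|)^j ≤ (lam / C)^j`,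
`1 + 2 k C / |Q| ≤ 1 + 2 lam ≤ 3 lam`. -/
theorem pt_avg {L : ℕ} {Q : Finset ℕ} {C lam : ℝ} (h : Cls L Q C lam) {k j q n : ℕ}
    {α B : ℝ} (hj : 1 ≤ j) (hjk : 2 * j ≤ k) (hk : k ≤ L) (hq : 1 ≤ q)
    (hqn : (q : ℝ) < C ^ (n + 1))
    (hB : ∀ z, Pd Q (k - 2 * j) z →
      ∑ i ∈ Ioo (-((⌊2 * C ^ j⌋₊ + 1 : ℕ) : ℤ)) ((⌊2 * C ^ j⌋₊ + 1 : ℕ) : ℤ),
        ‖gs (⌊2 * C ^ j⌋₊ + 1) (α * z * i)‖ ≤ (Nat.gcd z q : ℝ) * B) :
    ‖Sk Q k α‖ ^ 2 * C ^ (2 * j) ≤ lam ^ (2 * j) * (3 * lam) ^ n * B := by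
  have hC := h.C1
  have hC0 : (0 : ℝ) < C := by linarith
  have hC1 : (1 : ℝ) < C := by linarith
  have hlam := h.lam1
  have hlam0 : 0 < lam := by linarith
  have hL1 := h.L1
  have hL1' : (1 : ℝ) ≤ L := by exact_mod_cast hL1
  have hcard := h.card
  have hQ0 : (0 : ℝ) < Q.card := by
    by_contra h1
    have h2 : (Q.card : ℝ) = 0 := le_antisymm (not_lt.1 h1) (Nat.cast_nonneg _)
    rw [h2] at hcard
    nlinarith
  have hQne : Q.Nonempty := by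
    rw [← Finset.card_pos]
    exact_mod_cast hQ0
  -- `B` is nonnegative
  have hex : ∀ i, ∃ z, Pd Q i z := by
    intro i
    induction i with
    | zero => exact ⟨1, rfl⟩
    | succ i ih =>
      obtain ⟨z, hz⟩ := ih
      obtain ⟨p, hp⟩ := hQne
      exact ⟨p * z, p, hp, z, hz, rfl⟩
  have hB0 : 0 ≤ B := by
    obtain ⟨z, hz⟩ := hex (k - 2 * j)
    have h1 := hB z hz
    have h2 : 0 ≤ ∑ i ∈ Ioo (-((⌊2 * C ^ j⌋₊ + 1 : ℕ) : ℤ)) ((⌊2 * C ^ j⌋₊ + 1 : ℕ) : ℤ),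
        ‖gs (⌊2 * C ^ j⌋₊ + 1) (α * z * i)‖ := Finset.sum_nonneg fun _ _ => norm_nonneg _
    have h3 : 0 < Nat.gcd z q := Nat.gcd_pos_of_pos_right _ hq
    have h4 : (0 : ℝ) < (Nat.gcd z q : ℝ) := by exact_mod_cast h3
    by_contra h5
    push Not at h5
    have := mul_neg_of_pos_of_neg h4 h5
    linarith
  -- the double sum for one `z`
  obtain ⟨T, hT⟩ : ∃ T : ℕ → ℂ, T = fun z : ℕ => PS Q j (fun x => PS Q j (fun y =>
      ee ((α * (z : ℝ)) * ((x * y : ℕ) : ℝ)))) := ⟨_, rfl⟩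
  have hTz : ∀ z, Pd Q (k - 2 * j) z → ‖T z‖ ^ 2 ≤
      (Q.card : ℝ) ^ (2 * j) * (Nat.factorial j : ℝ) ^ 2 * B * (Nat.gcd z q : ℝ) := by
    intro z hz
    have hY : ∀ n, Pd Q j n → n < ⌊2 * C ^ j⌋₊ + 1 := by
      intro n hn
      have h1 := (Pd_bounds h (by omega) hn).2
      have := Nat.le_floor h1
      omega
    have h1 := bil h.prime hY (α * z)
    have h2 := hB z hz
    rw [hT]
    refine le_trans h1 ?_
    calc (Q.card : ℝ) ^ (2 * j) * (Nat.factorial j : ℝ) ^ 2 *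
        ∑ h ∈ Ioo (-((⌊2 * C ^ j⌋₊ + 1 : ℕ) : ℤ)) ((⌊2 * C ^ j⌋₊ + 1 : ℕ) : ℤ),
          ‖gs (⌊2 * C ^ j⌋₊ + 1) (α * z * h)‖ ≤
        (Q.card : ℝ) ^ (2 * j) * (Nat.factorial j : ℝ) ^ 2 * ((Nat.gcd z q : ℝ) * B) :=
          mul_le_mul_of_nonneg_left h2 (by positivity)
      _ = _ := by ring
  have hdec : PS Q k (fun n => ee (α * n)) = PS Q (k - 2 * j) T := by
    have e1 : k = (k - 2 * j) + (j + j) := by omega
    conv_lhs => rw [e1]
    rw [PS_split, hT]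
    apply PS_congr
    intro z _
    rw [PS_split]
    apply PS_congr
    intro x _
    apply PS_congr
    intro y _
    congr 1
    push_cast
    ring
  have hg := gcd_avg h.prime hC1 h.lb (fun p hp => ?_) (k - 2 * j) hq hqn
  swap
  · -- `p ≤ 2 C`
    have h1 := h.ub p hp
    have h2 : (p : ℝ) ^ L ≤ (2 * C) ^ L := by
      refine le_trans h1 ?_
      rw [mul_pow]
      apply mul_le_mul_of_nonneg_right _ (by positivity)
      calc (2 : ℝ) = 2 ^ 1 := by norm_num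
        _ ≤ 2 ^ L := pow_le_pow_right₀ (by norm_num) hL1
    exact (pow_le_pow_iff_left₀ (by positivity) (by positivity) (by omega)).1 h2
  have hd : 1 + 2 * ((k - 2 * j : ℕ) : ℝ) * C / Q.card ≤ 3 * lam := by
    have h1 : ((k - 2 * j : ℕ) : ℝ) ≤ L := by
      have : k - 2 * j ≤ L := by omega
      exact_mod_cast this
    have h2 : 2 * ((k - 2 * j : ℕ) : ℝ) * C / Q.card ≤ 2 * lam := by
      rw [div_le_iff₀ hQ0]
      nlinarith
    linarith
  have hd0 : 0 ≤ 1 + 2 * ((k - 2 * j : ℕ) : ℝ) * C / Q.card := by positivity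
  have hg2 : PS Q (k - 2 * j) (fun z => (Nat.gcd z q : ℝ)) ≤
      (Q.card : ℝ) ^ (k - 2 * j) * (3 * lam) ^ n := by
    refine le_trans hg ?_
    apply mul_le_mul_of_nonneg_left _ (by positivity)
    exact pow_le_pow_left₀ hd0 hd n
  -- the whole sum
  have hS1 : ‖PS Q k (fun n => ee (α * n))‖ ^ 2 ≤
      (Q.card : ℝ) ^ (k - 2 * j) * ((Q.card : ℝ) ^ (2 * j) * (Nat.factorial j : ℝ) ^ 2 * B *
        ((Q.card : ℝ) ^ (k - 2 * j) * (3 * lam) ^ n)) := by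
    rw [hdec]
    calc ‖PS Q (k - 2 * j) T‖ ^ 2 ≤ (PS Q (k - 2 * j) (fun z => ‖T z‖)) ^ 2 :=
          pow_le_pow_left₀ (norm_nonneg _) (norm_PS_le _ _ _) 2
      _ ≤ (Q.card : ℝ) ^ (k - 2 * j) * PS Q (k - 2 * j) (fun z => ‖T z‖ ^ 2) := PS_cs _ _ _
      _ ≤ (Q.card : ℝ) ^ (k - 2 * j) * PS Q (k - 2 * j) (fun z =>
          (Q.card : ℝ) ^ (2 * j) * (Nat.factorial j : ℝ) ^ 2 * B * (Nat.gcd z q : ℝ)) :=
          mul_le_mul_of_nonneg_left (PS_mono hTz) (by positivity)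
      _ = (Q.card : ℝ) ^ (k - 2 * j) * ((Q.card : ℝ) ^ (2 * j) * (Nat.factorial j : ℝ) ^ 2 * B *
          PS Q (k - 2 * j) (fun z => (Nat.gcd z q : ℝ))) := by
          rw [PS_mul_left]
      _ ≤ _ := by
          apply mul_le_mul_of_nonneg_left _ (by positivity)
          exact mul_le_mul_of_nonneg_left hg2 (by positivity)
  have hpk : (Q.card : ℝ) ^ (k - 2 * j) * (Q.card : ℝ) ^ (2 * j) = (Q.card : ℝ) ^ k := by
    rw [← pow_add]
    congr 1
    omega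
  have hSk : ‖Sk Q k α‖ ^ 2 * (Q.card : ℝ) ^ (2 * j) ≤
      (Nat.factorial j : ℝ) ^ 2 * B * (3 * lam) ^ n := by
    have h1 : ‖Sk Q k α‖ ^ 2 = ‖PS Q k (fun n => ee (α * n))‖ ^ 2 / ((Q.card : ℝ) ^ k) ^ 2 := by
      unfold Sk
      rw [norm_div, norm_pow, Complex.norm_natCast, div_pow]
    rw [h1, div_mul_eq_mul_div, div_le_iff₀ (by positivity)]
    calc ‖PS Q k (fun n => ee (α * n))‖ ^ 2 * (Q.card : ℝ) ^ (2 * j) ≤
        ((Q.card : ℝ) ^ (k - 2 * j) * ((Q.card : ℝ) ^ (2 * j) * (Nat.factorial j : ℝ) ^ 2 * B *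
        ((Q.card : ℝ) ^ (k - 2 * j) * (3 * lam) ^ n))) * (Q.card : ℝ) ^ (2 * j) :=
          mul_le_mul_of_nonneg_right hS1 (by positivity)
      _ = (Nat.factorial j : ℝ) ^ 2 * B * (3 * lam) ^ n * ((Q.card : ℝ) ^ (k - 2 * j) *
          (Q.card : ℝ) ^ (2 * j)) ^ 2 := by ring
      _ = _ := by rw [hpk]
  have hfac : (Nat.factorial j : ℝ) * C ^ j ≤ lam ^ j * (Q.card : ℝ) ^ j := by
    have h1 : (Nat.factorial j : ℝ) ≤ (L : ℝ) ^ j := by
      have h2 : Nat.factorial j ≤ L ^ j :=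
        le_trans (Nat.factorial_le_pow j) (Nat.pow_le_pow_left (by omega) j)
      exact_mod_cast h2
    calc (Nat.factorial j : ℝ) * C ^ j ≤ (L : ℝ) ^ j * C ^ j :=
          mul_le_mul_of_nonneg_right h1 (by positivity)
      _ = ((L : ℝ) * C) ^ j := by rw [mul_pow]
      _ ≤ (lam * Q.card) ^ j := pow_le_pow_left₀ (by positivity) hcard j
      _ = _ := by rw [mul_pow]
  have hQj : (0 : ℝ) < (Q.card : ℝ) ^ (2 * j) := by positivity
  have hfin : (‖Sk Q k α‖ ^ 2 * C ^ (2 * j)) * (Q.card : ℝ) ^ (2 * j) ≤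
      (lam ^ (2 * j) * (3 * lam) ^ n * B) * (Q.card : ℝ) ^ (2 * j) := by
    calc (‖Sk Q k α‖ ^ 2 * C ^ (2 * j)) * (Q.card : ℝ) ^ (2 * j) =
        (‖Sk Q k α‖ ^ 2 * (Q.card : ℝ) ^ (2 * j)) * C ^ (2 * j) := by ring
      _ ≤ ((Nat.factorial j : ℝ) ^ 2 * B * (3 * lam) ^ n) * C ^ (2 * j) :=
          mul_le_mul_of_nonneg_right hSk (by positivity)
      _ = ((Nat.factorial j : ℝ) * C ^ j) ^ 2 * (B * (3 * lam) ^ n) := by
          rw [mul_comm 2 j, pow_mul]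
          ring
      _ ≤ (lam ^ j * (Q.card : ℝ) ^ j) ^ 2 * (B * (3 * lam) ^ n) :=
          mul_le_mul_of_nonneg_right (pow_le_pow_left₀ (by positivity) hfac 2) (by positivity)
      _ = _ := by
          rw [mul_comm 2 j, pow_mul, pow_mul]
          ring
  exact le_of_mul_le_mul_right hfin hQj

/-- MODULE pt3. Case A: `j` minimal with `12 N ≤ C ^ j`. Then `q ≤ N < C ^ j` (so `n = j - 1`),
`q |β| 12 C ^ (k - j) ≤ 12 N C ^ (-j) ≤ 1`, and
`N (15 C ^ j + 2 q) ≤ 16 N C ^ j ≤ 2 C ^ (2 j)`. -/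
theorem pt_A {L : ℕ} {Q : Finset ℕ} {C lam : ℝ} (h : Cls L Q C lam) {k j q : ℕ} {a : ℤ}
    {α : ℝ} (hj : 1 ≤ j) (hjk : 2 * j ≤ k) (hk : k ≤ L) (hq : 1 ≤ q) (ha : IsCoprime a (q : ℤ))
    (hA : 12 * (q * (1 + |α - a / q| * C ^ k)) ≤ C ^ j) :
    ‖Sk Q k α‖ ^ 2 * (q * (1 + |α - a / q| * C ^ k)) ≤
      45 * LL L C * (3 * lam ^ 3) ^ j := by
  have hC := h.C1
  have hC0 : (0 : ℝ) < C := by linarith
  have hC1 : (1 : ℝ) ≤ C := by linarith
  have hlam := h.lam1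
  have hLL1 : 1 ≤ LL L C := pt1_LL1 hC
  have hq1 : (1 : ℝ) ≤ q := by exact_mod_cast hq
  have hbb : 0 ≤ |α - a / q| := abs_nonneg _
  obtain ⟨N, hN⟩ : ∃ N : ℝ, N = q * (1 + |α - a / q| * C ^ k) := ⟨_, rfl⟩
  have hqN : (q : ℝ) ≤ N := by
    rw [hN]
    have : 0 ≤ (q : ℝ) * (|α - a / q| * C ^ k) := by positivity
    linarith
  have hN1 : 1 ≤ N := le_trans hq1 hqN
  have hA' : 12 * N ≤ C ^ j := by rw [hN]; exact hA
  have hCj : (1 : ℝ) ≤ C ^ j := one_le_pow₀ hC1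
  have hβ : q * |α - a / q| * (12 * C ^ (k - j)) ≤ 1 := by
    have h1 : q * |α - a / q| * C ^ k ≤ N := by
      rw [hN]
      linarith
    have h2 : C ^ (k - j) * C ^ j = C ^ k := by
      rw [← pow_add]
      congr 1
      omega
    have h3 : (q * |α - a / q| * (12 * C ^ (k - j))) * C ^ j ≤ 1 * C ^ j := by
      calc (q * |α - a / q| * (12 * C ^ (k - j))) * C ^ j =
          12 * (q * |α - a / q| * (C ^ (k - j) * C ^ j)) := by ring
        _ = 12 * (q * |α - a / q| * C ^ k) := by rw [h2]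
        _ ≤ 12 * N := by linarith
        _ ≤ 1 * C ^ j := by linarith
    exact le_of_mul_le_mul_right h3 (by positivity)
  have hqn : (q : ℝ) < C ^ (j - 1 + 1) := by
    have : j - 1 + 1 = j := by omega
    rw [this]
    linarith
  have hqL : (q : ℝ) ≤ 100 * C ^ (L + 2) := by
    have h1 : C ^ j ≤ C ^ (L + 2) := pow_le_pow_right₀ hC1 (by omega)
    linarith
  have hav := pt_avg h (B := LL L C * (15 * C ^ j + 2 * q +
      36 * C ^ (2 * j) / (q * (1 + |α - a / q| * C ^ k)))) hj hjk hk hq hqn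
      (fun z hz => pt_block h hj hjk hk hq ha hβ hqL hz)
  rw [← hN] at hav ⊢
  have hN0 : 0 < N := by linarith
  have hCC : C ^ (2 * j) = (C ^ j) ^ 2 := by rw [mul_comm 2 j, pow_mul]
  have hkey : N * (15 * C ^ j + 2 * q + 36 * C ^ (2 * j) / N) ≤ 45 * C ^ (2 * j) := by
    have e1 : N * (15 * C ^ j + 2 * q + 36 * C ^ (2 * j) / N) =
        N * (15 * C ^ j + 2 * q) + 36 * C ^ (2 * j) := by
      field_simp
    rw [e1, hCC]
    have h1 : 2 * (q : ℝ) ≤ C ^ j := by linarith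
    have h2 : N * (15 * C ^ j + 2 * q) ≤ (C ^ j / 12) * (16 * C ^ j) := by
      apply mul_le_mul _ _ (by positivity) (by positivity)
      · linarith
      · linarith
    nlinarith [sq_nonneg (C ^ j)]
  have hl3 : lam ^ (2 * j) * (3 * lam) ^ (j - 1) ≤ (3 * lam ^ 3) ^ j := by
    calc lam ^ (2 * j) * (3 * lam) ^ (j - 1) ≤ lam ^ (2 * j) * (3 * lam) ^ j := by
          apply mul_le_mul_of_nonneg_left _ (by positivity)
          exact pow_le_pow_right₀ (by linarith) (by omega)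
      _ = (3 * lam ^ 3) ^ j := by
          rw [pow_mul, ← mul_pow]
          congr 1
          ring
  have hfin : (‖Sk Q k α‖ ^ 2 * N) * C ^ (2 * j) ≤
      (45 * LL L C * (3 * lam ^ 3) ^ j) * C ^ (2 * j) := by
    calc (‖Sk Q k α‖ ^ 2 * N) * C ^ (2 * j) = N * (‖Sk Q k α‖ ^ 2 * C ^ (2 * j)) := by ring
      _ ≤ N * (lam ^ (2 * j) * (3 * lam) ^ (j - 1) *
          (LL L C * (15 * C ^ j + 2 * q + 36 * C ^ (2 * j) / N))) :=
          mul_le_mul_of_nonneg_left hav hN0.le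
      _ = (lam ^ (2 * j) * (3 * lam) ^ (j - 1)) *
          (LL L C * (N * (15 * C ^ j + 2 * q + 36 * C ^ (2 * j) / N))) := by ring
      _ ≤ (3 * lam ^ 3) ^ j * (LL L C * (45 * C ^ (2 * j))) := by
          apply mul_le_mul hl3 _ (by positivity) (by positivity)
          exact mul_le_mul_of_nonneg_left hkey (by linarith)
      _ = _ := by ring
  exact le_of_mul_le_mul_right hfin (by positivity)

/-- MODULE pt4. Case B: `j = k / 2 =: h'`, `n = k - h' ≤ h' + 1`, `q ≤ 13 C ^ (k - h')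
< C ^ (k - h' + 1)`; `N ≤ 13 C ^ (k - h') + C ^ h' / 12 ≤ 14 C ^ (h' + 1)`, so
`N (15 C ^ h' + 2 q) ≤ 14 C ^ (h' + 1) 27 C ^ (h' + 1)`. -/
theorem pt_B {L : ℕ} {Q : Finset ℕ} {C lam : ℝ} (h : Cls L Q C lam) {k q : ℕ} {a : ℤ}
    {α : ℝ} (hk2 : 2 ≤ k) (hk : k ≤ L) (hq : 1 ≤ q) (ha : IsCoprime a (q : ℤ))
    (hqD : (q : ℝ) ≤ 13 * C ^ (k - k / 2))
    (hβ : q * |α - a / q| * (12 * C ^ (k - k / 2)) ≤ 1) :
    ‖Sk Q k α‖ ^ 2 * (q * (1 + |α - a / q| * C ^ k)) ≤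
      1170 * LL L C * C ^ 2 * (3 * lam ^ 3) ^ (k / 2 + 1) := by
  have hC := h.C1
  have hC0 : (0 : ℝ) < C := by linarith
  have hC1 : (1 : ℝ) ≤ C := by linarith
  have hlam := h.lam1
  have hLL1 : 1 ≤ LL L C := pt1_LL1 hC
  have hq1 : (1 : ℝ) ≤ q := by exact_mod_cast hq
  have hbb : 0 ≤ |α - a / q| := abs_nonneg _
  obtain ⟨j, hjd⟩ : ∃ j, j = k / 2 := ⟨_, rfl⟩
  rw [← hjd] at hqD hβ ⊢
  have hj : 1 ≤ j := by omega
  have hjk : 2 * j ≤ k := by omega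
  have hkj : k - j ≤ j + 1 := by omega
  obtain ⟨N, hN⟩ : ∃ N : ℝ, N = q * (1 + |α - a / q| * C ^ k) := ⟨_, rfl⟩
  have hqN : (q : ℝ) ≤ N := by
    rw [hN]
    have : 0 ≤ (q : ℝ) * (|α - a / q| * C ^ k) := by positivity
    linarith
  have hN1 : 1 ≤ N := le_trans hq1 hqN
  have hCj : (1 : ℝ) ≤ C ^ j := one_le_pow₀ hC1
  have hCk : C ^ (k - j) ≤ C ^ (j + 1) := pow_le_pow_right₀ hC1 hkj
  have hNle : N ≤ 14 * C ^ (j + 1) := by
    have h2 : C ^ (k - j) * C ^ j = C ^ k := by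
      rw [← pow_add]
      congr 1
      omega
    have h3 : 12 * (q * (|α - a / q| * C ^ k)) ≤ C ^ j := by
      calc 12 * (q * (|α - a / q| * C ^ k)) = (q * |α - a / q| * (12 * C ^ (k - j))) * C ^ j := by
            rw [← h2]
            ring
        _ ≤ 1 * C ^ j := mul_le_mul_of_nonneg_right hβ (by positivity)
        _ = C ^ j := one_mul _
    have h4 : C ^ j ≤ C ^ (j + 1) := pow_le_pow_right₀ hC1 (by omega)
    have h5 : N = q + q * (|α - a / q| * C ^ k) := by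
      rw [hN]
      ring
    linarith
  have hqn : (q : ℝ) < C ^ (k - j + 1) := by
    rw [pow_succ]
    have : 0 < C ^ (k - j) := by positivity
    nlinarith
  have hqL : (q : ℝ) ≤ 100 * C ^ (L + 2) := by
    have h1 : C ^ (k - j) ≤ C ^ (L + 2) := pow_le_pow_right₀ hC1 (by omega)
    have : 0 < C ^ (L + 2) := by positivity
    linarith
  have hav := pt_avg h (B := LL L C * (15 * C ^ j + 2 * q +
      36 * C ^ (2 * j) / (q * (1 + |α - a / q| * C ^ k)))) hj hjk hk hq hqn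
      (fun z hz => pt_block h hj hjk hk hq ha hβ hqL hz)
  rw [← hN] at hav ⊢
  have hN0 : 0 < N := by linarith
  have hCC : C ^ (2 * j) = (C ^ j) ^ 2 := by rw [mul_comm 2 j, pow_mul]
  have hCs : C ^ (j + 1) = C ^ j * C := pow_succ _ _
  have hkey : N * (15 * C ^ j + 2 * q + 36 * C ^ (2 * j) / N) ≤ 1170 * (C ^ 2 * C ^ (2 * j)) := by
    have e1 : N * (15 * C ^ j + 2 * q + 36 * C ^ (2 * j) / N) =
        N * (15 * C ^ j + 2 * q) + 36 * C ^ (2 * j) := by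
      field_simp
    rw [e1, hCC]
    have h1 : 15 * C ^ j + 2 * (q : ℝ) ≤ 27 * C ^ (j + 1) := by
      have : 15 * C ^ j ≤ C ^ (j + 1) := by
        rw [hCs]
        nlinarith
      linarith
    have h2 : N * (15 * C ^ j + 2 * q) ≤ (14 * C ^ (j + 1)) * (27 * C ^ (j + 1)) :=
      mul_le_mul hNle h1 (by positivity) (by positivity)
    have h3 : (14 * C ^ (j + 1)) * (27 * C ^ (j + 1)) = 378 * (C ^ 2 * (C ^ j) ^ 2) := by
      rw [hCs]
      ring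
    have h4 : (C ^ j) ^ 2 ≤ C ^ 2 * (C ^ j) ^ 2 := by
      have : 1 ≤ C ^ 2 := one_le_pow₀ hC1
      have : 0 < (C ^ j) ^ 2 := by positivity
      nlinarith
    have h5 : 0 < C ^ 2 * (C ^ j) ^ 2 := by positivity
    linarith
  have hl3 : lam ^ (2 * j) * (3 * lam) ^ (k - j) ≤ (3 * lam ^ 3) ^ (j + 1) := by
    calc lam ^ (2 * j) * (3 * lam) ^ (k - j) ≤ lam ^ (2 * (j + 1)) * (3 * lam) ^ (j + 1) := by
          apply mul_le_mul _ _ (by positivity) (by positivity)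
          · exact pow_le_pow_right₀ hlam (by omega)
          · exact pow_le_pow_right₀ (by linarith) hkj
      _ = (3 * lam ^ 3) ^ (j + 1) := by
          rw [pow_mul, ← mul_pow]
          congr 1
          ring
  have hfin : (‖Sk Q k α‖ ^ 2 * N) * C ^ (2 * j) ≤
      (1170 * LL L C * C ^ 2 * (3 * lam ^ 3) ^ (j + 1)) * C ^ (2 * j) := by
    calc (‖Sk Q k α‖ ^ 2 * N) * C ^ (2 * j) = N * (‖Sk Q k α‖ ^ 2 * C ^ (2 * j)) := by ring
      _ ≤ N * (lam ^ (2 * j) * (3 * lam) ^ (k - j) *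
          (LL L C * (15 * C ^ j + 2 * q + 36 * C ^ (2 * j) / N))) :=
          mul_le_mul_of_nonneg_left hav hN0.le
      _ = (lam ^ (2 * j) * (3 * lam) ^ (k - j)) *
          (LL L C * (N * (15 * C ^ j + 2 * q + 36 * C ^ (2 * j) / N))) := by ring
      _ ≤ (3 * lam ^ 3) ^ (j + 1) * (LL L C * (1170 * (C ^ 2 * C ^ (2 * j)))) := by
          apply mul_le_mul hl3 _ (by positivity) (by positivity)
          exact mul_le_mul_of_nonneg_left hkey (by linarith)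
      _ = _ := by ring
  exact le_of_mul_le_mul_right hfin (by positivity)

/-- the conclusion from a bound for `|S|² N` -/
private theorem pt5_fin {S N C E X : ℝ} (_hS : 0 ≤ S) (hC : 16 ≤ C) (hN : C ^ 30 ≤ N)
    (hE : S ^ 2 * N ≤ E) (hX : X ≤ C ^ 62 * N) (hEX : E ^ 20 ≤ X) : S ^ 10 * N ^ 4 ≤ 1 := by
  have hC0 : (0 : ℝ) < C := by linarith
  have hC1 : (1 : ℝ) ≤ C := by linarith
  have hN0 : 0 < N := lt_of_lt_of_le (by positivity) hN
  have h1 : (S ^ 2 * N) ^ 20 ≤ E ^ 20 := pow_le_pow_left₀ (by positivity) hE 20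
  have h2 : C ^ 90 ≤ N ^ 3 := by
    calc C ^ 90 = (C ^ 30) ^ 3 := by rw [← pow_mul]
      _ ≤ N ^ 3 := pow_le_pow_left₀ (by positivity) hN 3
  have h3 : C ^ 62 ≤ C ^ 90 := pow_le_pow_right₀ hC1 (by norm_num)
  have h4 : (S ^ 10 * N ^ 4) ^ 4 * N ^ 4 ≤ 1 * N ^ 4 := by
    calc (S ^ 10 * N ^ 4) ^ 4 * N ^ 4 = (S ^ 2 * N) ^ 20 := by ring
      _ ≤ C ^ 62 * N := le_trans h1 (le_trans hEX hX)
      _ ≤ N ^ 3 * N := mul_le_mul_of_nonneg_right (le_trans h3 h2) hN0.le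
      _ = 1 * N ^ 4 := by ring
  have h5 : (S ^ 10 * N ^ 4) ^ 4 ≤ 1 := le_of_mul_le_mul_right h4 (by positivity)
  exact (pow_le_one_iff_of_nonneg (by positivity) (by norm_num)).1 h5

/-- MODULE pt5. Let `N = q (1 + |β| C ^ k) ≥ C ^ 30` and `j ≥ 1` minimal with `12 N ≤ C ^ j`, so
`C ^ j < 12 N C`. If `2 j ≤ k`: by `pt_A`, `|S| ^ 40 N ^ 16 ≤ (45 LL) ^ 20 (3 lam³) ^ (20 j) / N ^ 4
≤ (45 LL) ^ 20 12 C / N ^ 3 ≤ 1` (use `small`, `log`: `1170 LL ≤ C`). Otherwise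
`C ^ (k / 2) < 12 N` and by `pt_B`
`|S| ^ 40 N ^ 16 ≤ (1170 LL C²) ^ 20 (3 lam³) ^ (20 (k / 2 + 1)) / N ^ 4
≤ C ^ 60 · 12 N C / N ^ 4 ≤ 1`. Take fourth roots. -/
theorem pt {L : ℕ} {Q : Finset ℕ} {C lam : ℝ} (h : Cls L Q C lam) {k q : ℕ} {a : ℤ}
    {α : ℝ} (hk2 : 2 ≤ k) (hk : k ≤ L) (hq : 1 ≤ q) (ha : IsCoprime a (q : ℤ))
    (hqD : (q : ℝ) ≤ 13 * C ^ (k - k / 2))
    (hβ : q * |α - a / q| * (12 * C ^ (k - k / 2)) ≤ 1)
    (hN : C ^ 30 ≤ q * (1 + |α - a / q| * C ^ k)) :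
    ‖Sk Q k α‖ ^ 10 * (q * (1 + |α - a / q| * C ^ k)) ^ 4 ≤ 1 := by
  have hC := h.C1
  have hC0 : (0 : ℝ) < C := by linarith
  have hC1 : (1 : ℝ) < C := by linarith
  have hlam := h.lam1
  have hLL1 : 1 ≤ LL L C := pt1_LL1 hC
  have hsmall := h.small
  have hlog : 1170 * LL L C ≤ C := h.log
  obtain ⟨N, hNd⟩ : ∃ N : ℝ, N = q * (1 + |α - a / q| * C ^ k) := ⟨_, rfl⟩
  rw [← hNd] at hN ⊢
  have hN0 : 0 < N := lt_of_lt_of_le (by positivity) hN
  have hexj : ∃ j, 12 * N ≤ C ^ j := by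
    obtain ⟨j, hj⟩ := pow_unbounded_of_one_lt (12 * N) hC1
    exact ⟨j, hj.le⟩
  classical
  obtain ⟨j, hj, hjmin⟩ : ∃ j, 12 * N ≤ C ^ j ∧ ∀ i < j, C ^ i < 12 * N := by
    refine ⟨Nat.find hexj, Nat.find_spec hexj, fun i hi => ?_⟩
    exact not_le.1 (Nat.find_min hexj hi)
  have hC30 : C ≤ C ^ 30 := by
    calc C = C ^ 1 := (pow_one _).symm
      _ ≤ C ^ 30 := pow_le_pow_right₀ hC1.le (by norm_num)
  have hj2 : 2 ≤ j := by
    by_contra h1
    have h2 : C ^ j ≤ C ^ 1 := pow_le_pow_right₀ hC1.le (by omega)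
    rw [pow_one] at h2
    linarith
  have hlow : C ^ (j - 1) < 12 * N := hjmin (j - 1) (by omega)
  have hl0 : 0 < 3 * lam ^ 3 := by positivity
  have hl1 : 1 ≤ (3 * lam ^ 3) ^ 20 := by
    apply one_le_pow₀
    have : 1 ≤ lam ^ 3 := one_le_pow₀ hlam
    linarith
  rcases Nat.lt_or_ge k (2 * j) with h1 | h1
  · -- case B
    have hB := pt_B h hk2 hk hq ha hqD hβ
    rw [← hNd] at hB
    have hkj : k / 2 ≤ j - 1 := by omega
    have hCk : C ^ (k / 2) ≤ 12 * N := le_trans (pow_le_pow_right₀ hC1.le hkj) hlow.le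
    refine pt5_fin (X := C ^ 60 * C ^ (k / 2 + 1)) (norm_nonneg _) hC hN hB ?_ ?_
    · have h2 : C ^ 60 * C ^ (k / 2 + 1) = C ^ 61 * C ^ (k / 2) := by ring
      rw [h2]
      calc C ^ 61 * C ^ (k / 2) ≤ C ^ 61 * (12 * N) :=
            mul_le_mul_of_nonneg_left hCk (by positivity)
        _ ≤ C ^ 61 * (C * N) := by
            apply mul_le_mul_of_nonneg_left _ (by positivity)
            nlinarith
        _ = C ^ 62 * N := by ring
    · have h2 : 0 ≤ LL L C := by linarith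
      have h3 : 1170 * LL L C * C ^ 2 * (3 * lam ^ 3) ^ (k / 2 + 1) ≤
          C ^ 3 * (3 * lam ^ 3) ^ (k / 2 + 1) := by
        apply mul_le_mul_of_nonneg_right _ (by positivity)
        have : 0 < C ^ 2 := by positivity
        nlinarith
      calc (1170 * LL L C * C ^ 2 * (3 * lam ^ 3) ^ (k / 2 + 1)) ^ 20 ≤
          (C ^ 3 * (3 * lam ^ 3) ^ (k / 2 + 1)) ^ 20 := pow_le_pow_left₀ (by positivity) h3 20
        _ = C ^ 60 * ((3 * lam ^ 3) ^ 20) ^ (k / 2 + 1) := by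
            rw [mul_pow, ← pow_mul, ← pow_mul, ← pow_mul, mul_comm (k / 2 + 1) 20]
        _ ≤ C ^ 60 * C ^ (k / 2 + 1) := by
            apply mul_le_mul_of_nonneg_left _ (by positivity)
            exact pow_le_pow_left₀ (by positivity) hsmall _
  · -- case A
    have hA := pt_A h (j := j) (by omega) h1 hk hq ha (by rw [← hNd]; exact hj)
    rw [← hNd] at hA
    have hCj : C ^ j ≤ C * (12 * N) := by
      have e : C ^ j = C * C ^ (j - 1) := by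
        rw [← pow_succ']
        congr 1
        omega
      rw [e]
      exact mul_le_mul_of_nonneg_left hlow.le hC0.le
    refine pt5_fin (X := C ^ 60 * C ^ j) (norm_nonneg _) hC hN hA ?_ ?_
    · calc C ^ 60 * C ^ j ≤ C ^ 60 * (C * (12 * N)) :=
            mul_le_mul_of_nonneg_left hCj (by positivity)
        _ ≤ C ^ 60 * (C * (C * N)) := by
            apply mul_le_mul_of_nonneg_left _ (by positivity)
            apply mul_le_mul_of_nonneg_left _ hC0.le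
            nlinarith
        _ = C ^ 62 * N := by ring
    · have h2 : 0 ≤ LL L C := by linarith
      have h3 : 45 * LL L C * (3 * lam ^ 3) ^ j ≤ C * (3 * lam ^ 3) ^ j := by
        apply mul_le_mul_of_nonneg_right _ (by positivity)
        linarith
      calc (45 * LL L C * (3 * lam ^ 3) ^ j) ^ 20 ≤
          (C * (3 * lam ^ 3) ^ j) ^ 20 := pow_le_pow_left₀ (by positivity) h3 20
        _ = C ^ 20 * ((3 * lam ^ 3) ^ 20) ^ j := by
            rw [mul_pow, ← pow_mul, ← pow_mul, mul_comm j 20]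
        _ ≤ C ^ 60 * C ^ j := by
            apply mul_le_mul _ _ (by positivity) (by positivity)
            · exact pow_le_pow_right₀ hC1.le (by norm_num)
            · exact pow_le_pow_left₀ (by positivity) hsmall _

/-- MODULE pt2 -/
theorem norm_Sk_le (Q : Finset ℕ) (k : ℕ) (α : ℝ) : ‖Sk Q k α‖ ≤ 1 := by
  unfold Sk
  rw [norm_div, norm_pow, Complex.norm_natCast]
  apply div_le_one_of_le₀ _ (by positivity)
  refine le_trans (norm_PS_le _ _ _) ?_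
  have h1 : (fun n : ℕ => ‖ee (α * n)‖) = fun _ => (1 : ℝ) := by
    funext n
    exact norm_ee _
  rw [h1, PS_const, mul_one]

end Pool.Agent.HadS
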