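import Pool.Agent.HadS.Defs

/-! Schnirelmann's theorem in a finite interval. -/

set_option autoImplicit false

namespace Pool.Agent.HadS

open Finset

private theorem sc1_fin (A : Set ℕ) (x : ℕ) : (A ∩ Set.Icc 1 x).Finite :=
  (Set.finite_Icc 1 x).subset Set.inter_subset_right

private theorem sc1_succ {A : Set ℕ} {x : ℕ} (h : x + 1 ∈ A) :
    (A ∩ Set.Icc 1 (x + 1)).ncard = (A ∩ Set.Icc 1 x).ncard + 1 := by
  have h1 : A ∩ Set.Icc 1 (x + 1) = insert (x + 1) (A ∩ Set.Icc 1 x) := by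
    ext k
    simp only [Set.mem_inter_iff, Set.mem_Icc, Set.mem_insert_iff]
    constructor
    · rintro ⟨h2, h3, h4⟩
      by_cases h5 : k = x + 1
      · exact Or.inl h5
      · exact Or.inr ⟨h2, h3, by omega⟩
    · rintro (rfl | ⟨h2, h3, h4⟩)
      · exact ⟨h, by omega, le_rfl⟩
      · exact ⟨h2, h3, by omega⟩
  rw [h1, Set.ncard_insert_of_notMem (by
    rintro ⟨-, -, h2⟩
    omega) (sc1_fin A x)]

private theorem sc1_eq {A : Set ℕ} {a x : ℕ} (hax : a ≤ x) (h : ∀ k, a < k → k ≤ x → k ∉ A) :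
    A ∩ Set.Icc 1 x = A ∩ Set.Icc 1 a := by
  ext k
  simp only [Set.mem_inter_iff, Set.mem_Icc]
  constructor
  · rintro ⟨h2, h3, h4⟩
    refine ⟨h2, h3, ?_⟩
    by_contra h5
    exact h k (by omega) h4 h2
  · rintro ⟨h2, h3, h4⟩
    exact ⟨h2, h3, by omega⟩

private theorem sc1_add {A B : Set ℕ} {a x : ℕ} (ha : a ∈ A) (hax : a ≤ x) :
    ({n | ∃ a ∈ A, ∃ b ∈ B, n = a + b} ∩ Set.Icc 1 a).ncard + (B ∩ Set.Icc 1 (x - a)).ncard ≤
      ({n | ∃ a ∈ A, ∃ b ∈ B, n = a + b} ∩ Set.Icc 1 x).ncard := by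
  set S := {n | ∃ a ∈ A, ∃ b ∈ B, n = a + b} with hS
  have h1 : (B ∩ Set.Icc 1 (x - a)).ncard = ((fun b => a + b) '' (B ∩ Set.Icc 1 (x - a))).ncard :=
    (Set.ncard_image_of_injective _ (add_right_injective a)).symm
  have hfin : ((fun b => a + b) '' (B ∩ Set.Icc 1 (x - a))).Finite := (sc1_fin B _).image _
  have hdis : Disjoint (S ∩ Set.Icc 1 a) ((fun b => a + b) '' (B ∩ Set.Icc 1 (x - a))) := by
    rw [Set.disjoint_left]
    rintro k ⟨-, -, hk⟩ ⟨b, ⟨-, hb, -⟩, rfl⟩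
    have h2 : a + b ≤ a := hk
    omega
  rw [h1, ← Set.ncard_union_eq hdis (sc1_fin S a) hfin]
  refine Set.ncard_le_ncard ?_ (sc1_fin S x)
  rintro k (⟨hk1, hk2, hk3⟩ | ⟨b, ⟨hb1, hb2, hb3⟩, rfl⟩)
  · exact ⟨hk1, hk2, hk3.trans hax⟩
  · refine ⟨⟨a, ha, b, hb1, rfl⟩, ?_, ?_⟩
    · change 1 ≤ a + b
      omega
    · change a + b ≤ x
      omega

private theorem sc1_claim {N : ℕ} {A B : Set ℕ} (hA : 0 ∈ A) (hB : 0 ∈ B) {β : ℝ}
    (hβ : 0 ≤ β)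
    (h2 : ∀ x ≤ N, β * x ≤ ((B ∩ Set.Icc 1 x).ncard : ℝ)) (x : ℕ) : x ≤ N →
      ((A ∩ Set.Icc 1 x).ncard : ℝ) + β * (x - ((A ∩ Set.Icc 1 x).ncard : ℝ)) ≤
      (({n | ∃ a ∈ A, ∃ b ∈ B, n = a + b} ∩ Set.Icc 1 x).ncard : ℝ) := by
  classical
  induction x using Nat.strong_induction_on with
  | _ x ih =>
    intro hxN
    set a := Nat.findGreatest (fun k => k ∈ A) x with ha
    have haA : a ∈ A := Nat.findGreatest_spec (P := fun k => k ∈ A) (Nat.zero_le x) hA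
    have hax : a ≤ x := Nat.findGreatest_le x
    have hgr : ∀ k, a < k → k ≤ x → k ∉ A := fun k hk1 hk2 => Nat.findGreatest_is_greatest hk1 hk2
    rcases hax.lt_or_eq with hlt | heq
    · have h3 := ih a hlt (hax.trans hxN)
      have h4 := sc1_add (B := B) haA hax
      have h5 := h2 (x - a) ((Nat.sub_le x a).trans hxN)
      rw [Nat.cast_sub hax] at h5
      have h6 : (({n | ∃ a ∈ A, ∃ b ∈ B, n = a + b} ∩ Set.Icc 1 a).ncard : ℝ) +
          ((B ∩ Set.Icc 1 (x - a)).ncard : ℝ) ≤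
          (({n | ∃ a ∈ A, ∃ b ∈ B, n = a + b} ∩ Set.Icc 1 x).ncard : ℝ) := by exact_mod_cast h4
      rw [sc1_eq hax hgr]
      nlinarith
    · rcases x with _ | x
      · have h3 : ∀ S : Set ℕ, S ∩ Set.Icc 1 0 = ∅ := by
          intro S
          ext k
          simp only [Set.mem_inter_iff, Set.mem_Icc, Set.mem_empty_iff_false, iff_false, not_and]
          intro _ h4
          omega
        rw [h3, h3]
        simp
      · have h3 : x + 1 ∈ A := by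
          rw [← heq]
          exact haA
        have h4 : x + 1 ∈ {n | ∃ a ∈ A, ∃ b ∈ B, n = a + b} := ⟨x + 1, h3, 0, hB, rfl⟩
        have h5 := ih x (Nat.lt_succ_self x) (by omega)
        rw [sc1_succ h3, sc1_succ h4]
        push_cast
        nlinarith

/-- MODULE sc1. By strong induction on `x ≤ N` one shows
`|(A + B) ∩ [1, x]| ≥ |A ∩ [1, x]| + β (x - |A ∩ [1, x]|)`: let `a` be the largest element of
`A ∩ [0, x]`; if `a = x` use `x - 1`, otherwise `(A + B) ∩ [1, x]` contains `(A + B) ∩ [1, a]` and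
`a + (B ∩ [1, x - a])`. -/
theorem sch_step {N : ℕ} {A B : Set ℕ} (hA : 0 ∈ A) (hB : 0 ∈ B) {α β : ℝ} (hα : 0 ≤ α)
    (hβ : 0 ≤ β) (hβ1 : β ≤ 1) (h1 : ∀ x ≤ N, α * x ≤ ((A ∩ Set.Icc 1 x).ncard : ℝ))
    (h2 : ∀ x ≤ N, β * x ≤ ((B ∩ Set.Icc 1 x).ncard : ℝ)) :
    ∀ x ≤ N, (α + β - α * β) * x ≤
      (({n | ∃ a ∈ A, ∃ b ∈ B, n = a + b} ∩ Set.Icc 1 x).ncard : ℝ) := by
  intro x hx
  have h3 := sc1_claim hA hB hβ h2 x hx
  have h4 := h1 x hx
  have h5 : 0 ≤ (1 - β) * (((A ∩ Set.Icc 1 x).ncard : ℝ) - α * x) := mul_nonneg (by linarith) (by linarith)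
  nlinarith

/-- MODULE sc1. If `2 |A ∩ [1, n]| ≥ n` and `0 ∈ A`, then `n ∈ A + A` (for `n ≥ 1`: the sets
`A ∩ [0, n]` and `n - (A ∩ [0, n])` have together at least `n + 2` elements). -/
theorem sch_half {A : Set ℕ} (hA : 0 ∈ A) {n : ℕ}
    (h : (n : ℝ) ≤ 2 * ((A ∩ Set.Icc 1 n).ncard : ℝ)) : ∃ a ∈ A, ∃ b ∈ A, n = a + b := by
  classical
  set F := (range (n + 1)).filter (fun k => k ∈ A) with hF
  set F1 := (Icc 1 n).filter (fun k => k ∈ A) with hF1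
  have h1 : A ∩ Set.Icc 1 n = (F1 : Set ℕ) := by
    ext k
    simp only [Set.mem_inter_iff, Set.mem_Icc, hF1, Finset.coe_filter, Finset.mem_Icc, Set.mem_ofPred_eq]
    exact and_comm
  rw [h1, Set.ncard_coe_finset] at h
  have h2 : F = insert 0 F1 := by
    ext k
    simp only [hF, hF1, Finset.mem_filter, Finset.mem_range, Finset.mem_insert, Finset.mem_Icc]
    constructor
    · rintro ⟨h3, h4⟩
      by_cases h5 : k = 0
      · exact Or.inl h5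
      · exact Or.inr ⟨⟨by omega, by omega⟩, h4⟩
    · rintro (rfl | ⟨⟨h3, h4⟩, h5⟩)
      · exact ⟨by omega, hA⟩
      · exact ⟨by omega, h5⟩
  have h3 : F.card = F1.card + 1 := by
    rw [h2, Finset.card_insert_of_notMem]
    rw [hF1, Finset.mem_filter, Finset.mem_Icc]
    rintro ⟨⟨h4, -⟩, -⟩
    omega
  set G := F.image (fun k => n - k) with hG
  have hle : ∀ k ∈ F, k ≤ n := by
    intro k hk
    rw [hF, Finset.mem_filter, Finset.mem_range] at hk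
    omega
  have h4 : G.card = F.card := by
    refine Finset.card_image_of_injOn fun k hk k' hk' hkk => ?_
    have e1 := hle k (Finset.mem_coe.1 hk)
    have e2 := hle k' (Finset.mem_coe.1 hk')
    have e3 : n - k = n - k' := hkk
    omega
  have h5 : n ≤ 2 * F1.card := by exact_mod_cast h
  have h6 : ¬ Disjoint F G := by
    intro hd
    have h7 := Finset.card_union_of_disjoint hd
    have h8 : F ∪ G ⊆ range (n + 1) := by
      refine Finset.union_subset (Finset.filter_subset _ _) ?_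
      intro k hk
      obtain ⟨k', -, rfl⟩ := Finset.mem_image.1 hk
      exact Finset.mem_range.2 (by omega)
    have h9 := Finset.card_le_card h8
    rw [Finset.card_range] at h9
    omega
  rw [Finset.not_disjoint_iff] at h6
  obtain ⟨a, ha, ha'⟩ := h6
  obtain ⟨b, hb, hab⟩ := Finset.mem_image.1 ha'
  have hb' := hle b hb
  rw [hF, Finset.mem_filter] at ha hb
  exact ⟨a, ha.2, b, hb.2, by omega⟩

private def sc2_S (A : Set ℕ) (H : ℕ) : Set ℕ := {n | ∃ y : Fin H → ℕ, (∀ i, y i ∈ A) ∧ n = ∑ i, y i}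

private theorem sc2_add {A : Set ℕ} {H H' n n' : ℕ} (h : n ∈ sc2_S A H) (h' : n' ∈ sc2_S A H') :
    n + n' ∈ sc2_S A (H + H') := by
  obtain ⟨y, hy, rfl⟩ := h
  obtain ⟨y', hy', rfl⟩ := h'
  refine ⟨Fin.append y y', fun i => ?_, ?_⟩
  · refine Fin.addCases (fun j => ?_) (fun j => ?_) i
    · rw [Fin.append_left]
      exact hy j
    · rw [Fin.append_right]
      exact hy' j
  · rw [Fin.sum_univ_add]
    simp only [Fin.append_left, Fin.append_right]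

private theorem sc2_zero {A : Set ℕ} (hA : 0 ∈ A) (H : ℕ) : 0 ∈ sc2_S A H :=
  ⟨fun _ => 0, fun _ => hA, by simp⟩

private theorem sc2_dens {N : ℕ} {A : Set ℕ} (hA : 0 ∈ A) {γ : ℝ} (hγ : 0 ≤ γ) (hγ1 : γ ≤ 1)
    (h : ∀ x ≤ N, (1 - γ) * x ≤ ((A ∩ Set.Icc 1 x).ncard : ℝ)) (t : ℕ) :
    ∀ x ≤ N, (1 - γ ^ (2 ^ t)) * x ≤ ((sc2_S A (2 ^ t) ∩ Set.Icc 1 x).ncard : ℝ) := by
  induction t with
  | zero =>
    intro x hx
    have h1 : A ⊆ sc2_S A (2 ^ 0) := fun a ha => ⟨fun _ => a, fun _ => ha, by simp⟩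
    rw [pow_zero, pow_one]
    refine (h x hx).trans ?_
    exact_mod_cast Set.ncard_le_ncard (Set.inter_subset_inter_left _ h1) (sc1_fin _ x)
  | succ t ih =>
    intro x hx
    have h0 : 0 ≤ γ ^ (2 ^ t) := by positivity
    have h1 : γ ^ (2 ^ t) ≤ 1 := pow_le_one₀ hγ hγ1
    have h2 := sch_step (sc2_zero hA (2 ^ t)) (sc2_zero hA (2 ^ t)) (α := 1 - γ ^ (2 ^ t)) (β := 1 - γ ^ (2 ^ t))
      (by linarith) (by linarith) (by linarith) ih ih x hx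
    have h3 : {n | ∃ a ∈ sc2_S A (2 ^ t), ∃ b ∈ sc2_S A (2 ^ t), n = a + b} ⊆ sc2_S A (2 ^ (t + 1)) := by
      rintro n ⟨a, ha, b, hb, rfl⟩
      rw [pow_succ, mul_two]
      exact sc2_add ha hb
    have h4 : (({n | ∃ a ∈ sc2_S A (2 ^ t), ∃ b ∈ sc2_S A (2 ^ t), n = a + b} ∩ Set.Icc 1 x).ncard : ℝ) ≤
        ((sc2_S A (2 ^ (t + 1)) ∩ Set.Icc 1 x).ncard : ℝ) := by
      exact_mod_cast Set.ncard_le_ncard (Set.inter_subset_inter_left _ h3) (sc1_fin _ x)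
    have h5 : (1 - γ ^ (2 ^ t) + (1 - γ ^ (2 ^ t)) - (1 - γ ^ (2 ^ t)) * (1 - γ ^ (2 ^ t))) =
        1 - γ ^ (2 ^ (t + 1)) := by
      rw [pow_succ 2 t, pow_mul]
      ring
    rw [h5] at h2
    exact h2.trans h4

/-- MODULE sc2. Doubling (`sch_step` with `A = B`): `1 - σ(2 A) ≤ (1 - σ(A))²`; after `s`
doublings with `(1 - 1 / D) ^ (2 ^ s) ≤ 1 / 2` use `sch_half`; `H = 2 ^ (s + 1)`. -/
theorem sch (D : ℕ) (hD : 0 < D) : ∃ H : ℕ, 1 ≤ H ∧ ∀ (N : ℕ) (A : Set ℕ), 0 ∈ A →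
    (∀ x ≤ N, (x : ℝ) ≤ D * ((A ∩ Set.Icc 1 x).ncard : ℝ)) →
    ∀ n ≤ N, ∃ y : Fin H → ℕ, (∀ i, y i ∈ A) ∧ n = ∑ i, y i := by
  have hD1 : (1 : ℝ) ≤ D := by exact_mod_cast hD
  set γ : ℝ := 1 - 1 / D with hγ
  have hinv : 1 / (D : ℝ) ≤ 1 := by
    rw [div_le_one (by linarith)]
    exact hD1
  have hinv0 : 0 < 1 / (D : ℝ) := by positivity
  have hγ0 : 0 ≤ γ := by linarith
  have hγ1 : γ < 1 := by linarith
  obtain ⟨s, hs⟩ := exists_pow_lt_of_lt_one (by norm_num : (0 : ℝ) < 1 / 2) hγ1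
  refine ⟨2 ^ (s + 1), Nat.one_le_two_pow, fun N A hA h n hn => ?_⟩
  have h1 : ∀ x ≤ N, (1 - γ) * x ≤ ((A ∩ Set.Icc 1 x).ncard : ℝ) := by
    intro x hx
    have h2 := h x hx
    have h3 : (1 - γ) * x = x / D := by
      rw [hγ]
      ring
    rw [h3, div_le_iff₀ (by linarith)]
    linarith
  have h2 := sc2_dens hA hγ0 hγ1.le h1 s n hn
  have h3 : γ ^ (2 ^ s) ≤ 1 / 2 :=
    (pow_le_pow_of_le_one hγ0 hγ1.le (Nat.lt_two_pow_self).le).trans hs.le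
  have h4 : (n : ℝ) ≤ 2 * ((sc2_S A (2 ^ s) ∩ Set.Icc 1 n).ncard : ℝ) := by
    have h5 : (0 : ℝ) ≤ n := Nat.cast_nonneg n
    nlinarith
  obtain ⟨a, ha, b, hb, hab⟩ := sch_half (sc2_zero hA _) h4
  have h5 : n ∈ sc2_S A (2 ^ (s + 1)) := by
    rw [pow_succ, mul_two, hab]
    exact sc2_add ha hb
  exact h5

end Pool.Agent.HadS
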