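import Pool.Agent.HadS.Den
import Pool.Agent.HadS.Sch
import Pool.Agent.HadS.Prm

/-! Theorem A: every `u < 2 ^ L'` (`L' ≤ L`) is a sum of `T` terms, each `0` or a power of two
times a product of at most `L' / 20 + 1` integers below `2 ^ l`, `l = A (log₂ L + 1)`. -/

set_option autoImplicit false

namespace Pool.Agent.HadS

open Finset

/-- MODULE th1. `b = l / 65`, class from `class_exists` with the parameter `L` (so `l ≥ 65 b`,
`C ≥ 2 ^ (b / 2)`, `b / 2 ≥ 20`); for `L' ≤ L` apply `sch 1000` with `N = 2 ^ L' - 1` and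
`A = {n | Sm l (L' / 20 + 1) 7 n}`. Density: for `x < 2 ^ (65 b)` all `n ≤ x` are in `A`
(`Sm.small`); for `2 ^ (65 b) ≤ x < 2 ^ L'` use `density`, where `C ^ k ≤ x < 2 ^ L'` gives
`k b / 2 < L'`, so `k ≤ L' / 20`. -/
theorem thmA : ∃ A T : ℕ, 1 ≤ A ∧ ∀ L : ℕ, 1 ≤ L → ∀ l : ℕ, A * (Nat.log 2 L + 1) ≤ l →
    ∀ L' ≤ L, ∀ u < 2 ^ L', Sm l (L' / 20 + 1) T u := by
  obtain ⟨A₁, hA₁, hcl⟩ := class_exists
  obtain ⟨H, hH, hs⟩ := sch 1000 (by norm_num)
  refine ⟨65 * (A₁ + 40), 7 * H, by omega, ?_⟩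
  intro L hL l hl L' hL' u hu
  have hb0 : (A₁ + 40) * (Nat.log 2 L + 1) ≤ l / 65 := by
    rw [Nat.le_div_iff_mul_le (by norm_num)]
    calc (A₁ + 40) * (Nat.log 2 L + 1) * 65 = 65 * (A₁ + 40) * (Nat.log 2 L + 1) := by ring
      _ ≤ l := hl
  have hlb : 65 * (l / 65) ≤ l := Nat.mul_div_le l 65
  generalize l / 65 = b at hb0 hlb
  have hb1 : A₁ * (Nat.log 2 L + 1) ≤ b :=
    (Nat.mul_le_mul_right _ (Nat.le_add_right _ _)).trans hb0
  have hb40 : 40 ≤ b := by nlinarith [Nat.zero_le (Nat.log 2 L), Nat.zero_le (A₁ * (Nat.log 2 L + 1))]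
  obtain ⟨Q, C, lam, h, hC1, hC2⟩ := hcl L hL b hb1
  have hC : (16 : ℝ) ≤ C := h.C1
  have key : ∀ x : ℕ, x ≤ 2 ^ L' - 1 → (x : ℝ) ≤ ((1000 : ℕ) : ℝ) *
      ((({n | Sm l (L' / 20 + 1) 7 n} : Set ℕ) ∩ Set.Icc 1 x).ncard : ℝ) := by
    intro x hx
    have hx2 : x < 2 ^ L' := by
      have : 0 < 2 ^ L' := by positivity
      omega
    have hfin : (({n | Sm l (L' / 20 + 1) 7 n} : Set ℕ) ∩ Set.Icc 1 x).Finite :=
      (Set.finite_Icc 1 x).subset Set.inter_subset_right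
    rcases lt_or_ge x (2 ^ (65 * b)) with h1 | h1
    · have h2 : ({n | Sm l (L' / 20 + 1) 7 n} : Set ℕ) ∩ Set.Icc 1 x = Set.Icc 1 x := by
        rw [Set.inter_eq_right]
        intro n hn
        exact Sm.small (by omega) (by norm_num)
          (lt_of_le_of_lt hn.2 (h1.trans_le (Nat.pow_le_pow_right (by norm_num) hlb)))
      rw [h2]
      have h3 : (Set.Icc 1 x).ncard = x := by
        rw [← Finset.coe_Icc, Set.ncard_coe_finset, Nat.card_Icc]
        omega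
      rw [h3]
      push_cast
      nlinarith [Nat.cast_nonneg (α := ℝ) x]
    · have hxr : (x : ℝ) < 2 ^ L' := by exact_mod_cast hx2
      have h2 : (x : ℝ) < 13 * C ^ (L + 1) := by
        have h3 : (2 : ℝ) ^ L' ≤ 2 ^ (L + 1) := pow_le_pow_right₀ (by norm_num) (by omega)
        have h4 : (2 : ℝ) ^ (L + 1) ≤ C ^ (L + 1) :=
          pow_le_pow_left₀ (by norm_num) (by linarith) _
        have h5 : (0 : ℝ) < C ^ (L + 1) := by positivity
        linarith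
      obtain ⟨k, hk61, hkL, hkx, J, hJ, hJ2⟩ := density h (by omega) hC2 h1 h2
      have hkk : k ≤ L' / 20 := by
        have h3 : ((2 : ℝ) ^ (b / 2)) ^ k < 2 ^ L' :=
          lt_of_le_of_lt (pow_le_pow_left₀ (by positivity) hC1 k) (lt_of_le_of_lt hkx hxr)
        rw [← pow_mul] at h3
        have h4 := (pow_lt_pow_iff_right₀ (by norm_num : (1 : ℝ) < 2)).1 h3
        rw [Nat.le_div_iff_mul_le (by norm_num)]
        have h5 : 20 ≤ b / 2 := by omega
        nlinarith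
      have h6 : J.card ≤ (({n | Sm l (L' / 20 + 1) 7 n} : Set ℕ) ∩ Set.Icc 1 x).ncard := by
        rw [← Set.ncard_coe_finset]
        refine Set.ncard_le_ncard ?_ hfin
        intro n hn
        obtain ⟨h7, h8, h9⟩ := hJ2 n (Finset.mem_coe.1 hn)
        exact ⟨Sm.mono hlb (by omega) h9, h7, h8⟩
      have h10 : x ≤ 1000 * (({n | Sm l (L' / 20 + 1) 7 n} : Set ℕ) ∩ Set.Icc 1 x).ncard :=
        hJ.trans (Nat.mul_le_mul_left _ h6)
      exact_mod_cast h10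
  obtain ⟨y, hy, hyu⟩ := hs (2 ^ L' - 1) {n | Sm l (L' / 20 + 1) 7 n} (Sm.zero _ _ _) key u
    (by omega)
  rw [hyu]
  exact Sm.sum y hy

end Pool.Agent.HadS
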