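import Pool.Agent.HadS.Cost
import Pool.Agent.HadS.ThmA

/-! The reduction of all integers to `2 ^ s u` with `s ≥ L' / 20 + T`. -/

set_option autoImplicit false

namespace Pool.Agent.HadS

open Pool.Agent.HadL

private theorem tw1_solve {Pr τ E₁ E : ℕ} (hE₁ : 1 ≤ E₁) (hEE : E₁ ≤ E) (hodd : Nat.Coprime Pr 2)
    (h : Pr ≡ τ [MOD 2 ^ E₁]) : ∃ u < 2 ^ (E - E₁), (1 + 2 ^ E₁ * u) * Pr ≡ τ [MOD 2 ^ E] := by
  have hcop : Nat.Coprime Pr (2 ^ E) := Nat.Coprime.pow_right E hodd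
  have hE1 : 1 < 2 ^ E := Nat.one_lt_two_pow (by omega)
  obtain ⟨m, -, hm⟩ := Nat.exists_mul_mod_eq_one_of_coprime hcop hE1
  have hm' : Pr * m ≡ 1 [MOD 2 ^ E] := by
    unfold Nat.ModEq
    rw [hm, Nat.mod_eq_of_lt hE1]
  set g := (m * τ) % 2 ^ E with hg
  have hg1 : g ≡ m * τ [MOD 2 ^ E] := Nat.mod_modEq _ _
  have hgE : g < 2 ^ E := Nat.mod_lt _ (by positivity)
  have hgPr : g * Pr ≡ τ [MOD 2 ^ E] := by
    have e1 : g * Pr ≡ m * τ * Pr [MOD 2 ^ E] := hg1.mul_right Pr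
    have e2 : m * τ * Pr = Pr * m * τ := by ring
    have e3 : Pr * m * τ ≡ 1 * τ [MOD 2 ^ E] := hm'.mul_right τ
    rw [e2] at e1
    rw [one_mul] at e3
    exact e1.trans e3
  have hd : 2 ^ E₁ ∣ 2 ^ E := pow_dvd_pow 2 hEE
  have h2 : g * Pr ≡ 1 * Pr [MOD 2 ^ E₁] := by
    rw [one_mul]
    exact (hgPr.of_dvd hd).trans h.symm
  have hcop1 : Nat.gcd (2 ^ E₁) Pr = 1 := (Nat.Coprime.pow_right E₁ hodd).symm
  have h3 : g ≡ 1 [MOD 2 ^ E₁] := Nat.ModEq.cancel_right_of_coprime hcop1 h2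
  have hE11 : 1 < 2 ^ E₁ := Nat.one_lt_two_pow (by omega)
  have hg0 : 1 ≤ g := by
    by_contra hcon
    have h4 : g = 0 := by omega
    rw [h4] at h3
    unfold Nat.ModEq at h3
    rw [Nat.zero_mod, Nat.mod_eq_of_lt hE11] at h3
    omega
  obtain ⟨u, hu⟩ := (Nat.modEq_iff_dvd' hg0).1 h3.symm
  have hgu : 1 + 2 ^ E₁ * u = g := by omega
  refine ⟨u, ?_, ?_⟩
  · have h4 : 2 ^ E₁ * u < 2 ^ E₁ * 2 ^ (E - E₁) := by
      rw [← pow_add, Nat.add_sub_cancel' hEE]
      omega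
    exact Nat.lt_of_mul_lt_mul_left h4
  · rw [hgu]
    exact hgPr

/-- MODULE tw1. Induction on `E`. If `E ≤ 4 (T + 1)` take `f` ones. Otherwise
`E₁ = E / 20 + T + 1 ≤ E / 2`, and `f - 1` factors with product `Π ≡ τ mod 2 ^ E₁` are given;
`Π` is odd, so there is `u < 2 ^ (E - E₁)` with `(1 + 2 ^ E₁ u) Π ≡ τ mod 2 ^ E`. The new factor
`g = 1 + 2 ^ E₁ u ≤ 2 ^ E` satisfies `P (W + 2) g` by `succ` and `hW` (or it is `1`). -/
theorem factors {P : ℕ → ℕ → Prop} (R : Rules P) {W T L : ℕ}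
    (hW : ∀ L' ≤ L, ∀ u < 2 ^ L', 0 < u → ∀ s, L' / 20 + T ≤ s → P W (2 ^ s * u)) (E : ℕ) :
    E ≤ L → ∀ f : ℕ, Nat.log 2 E + 1 ≤ f → ∀ τ : ℕ, τ ≡ 1 [MOD 2 ^ (4 * (T + 1))] →
      ∃ t : List ℕ, t.length = f ∧ (∀ g ∈ t, 0 < g ∧ P (W + 2) g) ∧ t.prod ≤ 2 ^ (2 * E) ∧
        t.prod ≡ τ [MOD 2 ^ E] := by
  induction E using Nat.strong_induction_on with
  | _ E ih =>
    intro hEL f hf τ hτ
    by_cases hE : E ≤ 4 * (T + 1)
    · refine ⟨List.replicate f 1, List.length_replicate, ?_, ?_, ?_⟩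
      · intro g hg
        rw [(List.mem_replicate.1 hg).2]
        exact ⟨one_pos, R.mono (by omega) R.base⟩
      · rw [List.prod_replicate, one_pow]
        exact Nat.one_le_two_pow
      · rw [List.prod_replicate, one_pow]
        exact (hτ.of_dvd (pow_dvd_pow 2 hE)).symm
    · set E₁ := E / 20 + T + 1 with hE₁
      have h1 : E₁ ≤ E / 2 := by omega
      have h2 : E₁ < E := by omega
      have hlog : Nat.log 2 E₁ + 1 ≤ f - 1 := by
        have e1 : Nat.log 2 E₁ ≤ Nat.log 2 (E / 2) := Nat.log_mono_right h1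
        have e2 : Nat.log 2 (E / 2) = Nat.log 2 E - 1 := Nat.log_div_base 2 E
        have e3 : 1 ≤ Nat.log 2 E := Nat.log_pos (by norm_num) (by omega)
        omega
      obtain ⟨t, ht1, ht2, ht3, ht4⟩ := ih E₁ h2 (by omega) (f - 1) hlog τ hτ
      have hodd : Nat.Coprime t.prod 2 := by
        have e1 : t.prod ≡ τ [MOD 2] := ht4.of_dvd (dvd_pow_self 2 (by omega))
        have e2 : τ ≡ 1 [MOD 2] := hτ.of_dvd (dvd_pow_self 2 (by omega))
        have e3 := e1.trans e2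
        rw [Nat.coprime_two_right]
        exact Nat.odd_iff.2 e3
      obtain ⟨u, hu1, hu2⟩ := tw1_solve (by omega) h2.le hodd ht4
      have hg : 0 < 1 + 2 ^ E₁ * u ∧ P (W + 2) (1 + 2 ^ E₁ * u) := by
        refine ⟨by omega, ?_⟩
        rcases Nat.eq_zero_or_pos u with h0 | h0
        · rw [h0, mul_zero, add_zero]
          exact R.mono (by omega) R.base
        · have e1 := hW (E - E₁) (by omega) u hu1 h0 E₁ (by omega)
          rw [Nat.add_comm 1]
          exact R.succ (by positivity) e1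
      refine ⟨(1 + 2 ^ E₁ * u) :: t, ?_, ?_, ?_, ?_⟩
      · rw [List.length_cons, ht1]
        omega
      · intro g hg'
        rcases List.mem_cons.1 hg' with rfl | hg'
        · exact hg
        · exact ht2 g hg'
      · rw [List.prod_cons]
        have e1 : 1 + 2 ^ E₁ * u ≤ 2 ^ E := by
          have e2 : 2 ^ E₁ * (u + 1) ≤ 2 ^ E₁ * 2 ^ (E - E₁) := Nat.mul_le_mul_left _ hu1
          rw [← pow_add, Nat.add_sub_cancel' h2.le, mul_add, mul_one] at e2
          have e3 : 1 ≤ 2 ^ E₁ := Nat.one_le_two_pow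
          omega
        calc (1 + 2 ^ E₁ * u) * t.prod ≤ 2 ^ E * 2 ^ (2 * E₁) := Nat.mul_le_mul e1 ht3
          _ = 2 ^ (E + 2 * E₁) := by rw [pow_add]
          _ ≤ 2 ^ (2 * E) := Nat.pow_le_pow_right (by norm_num) (by omega)
      · rw [List.prod_cons]
        exact hu2

private theorem tw2_list {P : ℕ → ℕ → Prop} (R : Rules P) {w : ℕ} (t : List ℕ) :
    t ≠ [] → (∀ c ∈ t, 0 < c ∧ P w c) → 0 < t.prod ∧ P w (2 ^ (t.length - 1) * t.prod) := by
  induction t with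
  | nil => intro h; exact absurd rfl h
  | cons a t ih =>
    intro _ h
    have ha := h a (List.mem_cons_self)
    rcases t with _ | ⟨b, t⟩
    · simp only [List.length_cons, List.length_nil, List.prod_cons, List.prod_nil, mul_one]
      exact ⟨ha.1, by simpa using ha.2⟩
    · obtain ⟨h1, h2⟩ := ih (List.cons_ne_nil b t) (fun c hc => h c (List.mem_cons_of_mem a hc))
      rw [List.prod_cons]
      refine ⟨Nat.mul_pos ha.1 h1, ?_⟩
      have h3 := R.mul ha.1 (by positivity : 0 < 2 ^ ((b :: t).length - 1) * (b :: t).prod) ha.2 h2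
      have h4 : 2 ^ ((a :: b :: t).length - 1) * (a * (b :: t).prod) =
          2 * a * (2 ^ ((b :: t).length - 1) * (b :: t).prod) := by
        simp only [List.length_cons, Nat.add_sub_cancel]
        rw [pow_succ]
        ring
      rw [h4]
      exact h3

/-- MODULE tw2. Let `2 ^ (L' - 1) ≤ n < 2 ^ L'`, `L' > l ≥ 100 (T + 1) (log₂ L + 1)`. Put
`K = L' / 20 + T + 1`, `f = Nat.log 2 K + 1`, `B = 4 (T + 1)`, `0 < r ≤ 2 ^ (f + B)` with
`n - r = 2 ^ f τ`, `τ ≡ 1 mod 2 ^ B`; `m = r + 2 (2 ^ (f - 1) ∏ g)` with the factors `g` of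
`factors` for `E = K`. Then `P (w + W + 3) m`, `m ≤ n`, `m ≡ n mod 2 ^ K`, and
`n = m + 2 (2 ^ (K - 1) u)` with `P W (2 ^ (K - 1) u)` (if `u > 0`). -/
theorem reduce {P : ℕ → ℕ → Prop} (R : Rules P) {w W T L l : ℕ}
    (hW : ∀ L' ≤ L, ∀ u < 2 ^ L', 0 < u → ∀ s, L' / 20 + T ≤ s → P W (2 ^ s * u))
    (hl : 100 * (T + 1) * (Nat.log 2 L + 1) ≤ l) (hR : Rg P w l) :
    Rg P (w + 2 * W + 4) L := by
  intro n hn hnL
  by_cases hnl : n < 2 ^ l
  · exact R.mono (by omega) (hR n hn hnl)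
  · have hnl' : 2 ^ l ≤ n := not_lt.1 hnl
    set L' := Nat.log 2 n + 1 with hL'
    have hn1 : 2 ^ (L' - 1) ≤ n := by
      rw [hL', Nat.add_sub_cancel]
      exact Nat.pow_log_le_self 2 hn.ne'
    have hn2 : n < 2 ^ L' := Nat.lt_pow_succ_log_self (by norm_num) n
    have hL'L : L' ≤ L := by
      have e1 : 2 ^ (L' - 1) < 2 ^ L := hn1.trans_lt hnL
      have e2 := (Nat.pow_lt_pow_iff_right (by norm_num : 1 < 2)).1 e1
      omega
    have hlL' : l < L' := by
      have e1 : 2 ^ l < 2 ^ L' := hnl'.trans_lt hn2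
      exact (Nat.pow_lt_pow_iff_right (by norm_num : 1 < 2)).1 e1
    set K := L' / 20 + T + 1 with hK
    set f := Nat.log 2 K + 1 with hf
    set B := 4 * (T + 1) with hB
    have hl1 : 100 * (T + 1) ≤ l := by
      refine le_trans ?_ hl
      exact Nat.le_mul_of_pos_right _ (Nat.succ_pos _)
    have hl2 : 100 * (Nat.log 2 L + 1) ≤ l := by
      refine le_trans ?_ hl
      exact Nat.mul_le_mul_right _ (Nat.le_mul_of_pos_right _ (Nat.succ_pos _))
    have hKL : K ≤ L' := by omega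
    have hfK : f ≤ K := by
      have e1 : Nat.log 2 K < K := Nat.log_lt_self 2 (by omega)
      omega
    have hfL : f ≤ Nat.log 2 L + 1 := by
      have e1 : Nat.log 2 K ≤ Nat.log 2 L := Nat.log_mono_right (hKL.trans hL'L)
      omega
    have hfB : f + B < l := by
      have e1 : 1 ≤ Nat.log 2 L + 1 := by omega
      omega
    have hfBpos : 2 ^ f < 2 ^ l := Nat.pow_lt_pow_right (by norm_num) (by omega)
    -- the remainder
    have hMo : 0 < 2 ^ (f + B) := by positivity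
    set q := (n - 2 ^ f - 1) / 2 ^ (f + B) with hq
    set r := (n - 2 ^ f - 1) % 2 ^ (f + B) + 1 with hr
    have hr1 : r ≤ 2 ^ (f + B) := by
      have e1 := Nat.mod_lt (n - 2 ^ f - 1) hMo
      omega
    set τ := 1 + 2 ^ B * q with hτ
    have hnr : n = r + 2 ^ f * τ := by
      have e1 : 2 ^ (f + B) * q + (r - 1) = n - 2 ^ f - 1 := by
        rw [hr, Nat.add_sub_cancel]
        exact Nat.div_add_mod (n - 2 ^ f - 1) (2 ^ (f + B))
      have e2 : 2 ^ f * τ = 2 ^ f + 2 ^ (f + B) * q := by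
        rw [hτ, pow_add 2 f B]
        ring
      have e3 : 1 ≤ r := by omega
      rw [e2]
      generalize 2 ^ (f + B) * q = Z at e1 ⊢
      omega
    have hτ1 : τ ≡ 1 [MOD 2 ^ (4 * (T + 1))] := by
      have e1 : 1 ≤ τ := by omega
      refine ((Nat.modEq_iff_dvd' e1).2 ⟨q, ?_⟩).symm
      rw [hτ, Nat.add_sub_cancel_left]
    obtain ⟨t, ht1, ht2, ht3, ht4⟩ := factors R hW K (hKL.trans hL'L) f le_rfl τ hτ1
    have htne : t ≠ [] := by
      rintro rfl
      simp only [List.length_nil] at ht1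
      omega
    obtain ⟨htpos, htP⟩ := tw2_list R t htne ht2
    rw [ht1] at htP
    have hr0 : 0 < r := by omega
    have hPr : P w r := hR r hr0 (hr1.trans_lt (Nat.pow_lt_pow_right (by norm_num) hfB))
    have hPm := R.add hr0 (by positivity) hPr htP
    have hf1 : 2 * (2 ^ (f - 1) * t.prod) = 2 ^ f * t.prod := by
      rw [← mul_assoc, ← pow_succ', Nat.sub_add_cancel (by omega)]
    rw [hf1] at hPm
    set m := r + 2 ^ f * t.prod with hm
    have hmn : m ≤ n := by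
      have e1 : 2 ^ f * t.prod ≤ 2 ^ (f + 2 * K) := by
        calc 2 ^ f * t.prod ≤ 2 ^ f * 2 ^ (2 * K) := Nat.mul_le_mul_left _ ht3
          _ = 2 ^ (f + 2 * K) := (pow_add 2 f (2 * K)).symm
      have e2 : 2 ^ (f + 2 * K) ≤ 2 ^ (L' - 2) := Nat.pow_le_pow_right (by norm_num) (by omega)
      have e3 : 2 ^ (f + B) ≤ 2 ^ (L' - 2) := Nat.pow_le_pow_right (by norm_num) (by omega)
      have e4 : 2 ^ (L' - 1) = 2 ^ (L' - 2) + 2 ^ (L' - 2) := by
        rw [← two_mul, ← pow_succ']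
        congr 1
        omega
      omega
    have hmod : m ≡ n [MOD 2 ^ K] := by
      have e1 : 2 ^ f * t.prod ≡ 2 ^ f * τ [MOD 2 ^ K] := ht4.mul_left _
      have e2 := e1.add_left r
      rw [← hnr] at e2
      exact e2
    obtain ⟨u, hu⟩ := (Nat.modEq_iff_dvd' hmn).1 hmod
    have hnu : n = m + 2 ^ K * u := by omega
    rcases Nat.eq_zero_or_pos u with h0 | h0
    · have e1 : n = m := by rw [hnu, h0, mul_zero, add_zero]
      rw [e1]
      exact R.mono (by omega) hPm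
    · have hu2 : u < 2 ^ (L' - K) := by
        have e1 : 2 ^ K * u < 2 ^ K * 2 ^ (L' - K) := by
          rw [← pow_add, Nat.add_sub_cancel' hKL]
          omega
        exact Nat.lt_of_mul_lt_mul_left e1
      have e1 := hW (L' - K) (by omega) u hu2 h0 (K - 1) (by omega)
      have e2 := R.add (by omega : 0 < m) (by positivity) hPm e1
      have e3 : m + 2 * (2 ^ (K - 1) * u) = n := by
        rw [← mul_assoc, ← pow_succ', Nat.sub_add_cancel (by omega)]
        exact hnu.symm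
      rw [e3] at e2
      exact R.mono (by omega) e2

/-- MODULE tw3 (from `thmA`, `cost_sum`, `reduce`). -/
theorem two_steps : ∃ A K : ℕ, 1 ≤ A ∧ 1 ≤ K ∧ ∀ P : ℕ → ℕ → Prop, Rules P → ∀ w L : ℕ, 1 ≤ w →
    1 ≤ L → Rg P w (A * (Nat.log 2 L + 1)) → Rg P (K * (w + 1)) L := by
  obtain ⟨A, T, hA, hT⟩ := thmA
  refine ⟨A + 100 * (T + 1 + 1), 2 * T + 5, by omega, by omega, ?_⟩
  intro P R w L hw hL hR
  have h1 : ∀ L' ≤ L, ∀ u < 2 ^ L', 0 < u → ∀ s, L' / 20 + (T + 1) ≤ s →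
      P (T * (w + 1)) (2 ^ s * u) := by
    intro L' hL' u hu hu0 s hs
    exact cost_sum R hw hR T u s
      (hT L hL _ (Nat.mul_le_mul_right _ (Nat.le_add_right _ _)) L' hL' u hu) hu0 (by omega)
  have h2 := reduce R h1 (l := (A + 100 * (T + 1 + 1)) * (Nat.log 2 L + 1))
    (Nat.mul_le_mul_right _ (Nat.le_add_left _ _)) hR
  intro n hn hn2
  refine R.mono ?_ (h2 n hn hn2)
  nlinarith

end Pool.Agent.HadS
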